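import Pool.Agent.Lib.MP_6bf7a3_nt.Zeta

open NumberField FractionalIdeal Filter
open scoped nonZeroDivisors Topology

namespace Pool.Agent.Lib.MP_6bf7a3_nt

theorem compl_one_mem_nhds : ({1}ᶜ : Set ℂ) ∈ 𝓝 (0 : ℂ) :=
  isOpen_compl_singleton.mem_nhds (by simp)

theorem eventuallyEq_of_continuation {f g : ℂ → ℂ} (hf : DifferentiableOn ℂ f {1}ᶜ)
    (hg : DifferentiableOn ℂ g {1}ᶜ) (h : ∀ s : ℂ, 1 < s.re → f s = g s) : f =ᶠ[𝓝 0] g := by
  have hU : IsPreconnected ({1}ᶜ : Set ℂ) :=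
    (isConnected_compl_singleton_of_one_lt_rank (by simp) 1).isPreconnected
  have h2 : f =ᶠ[𝓝 2] g := by
    have : {s : ℂ | 1 < s.re} ∈ 𝓝 (2 : ℂ) :=
      (isOpen_lt continuous_const Complex.continuous_re).mem_nhds (by simp)
    filter_upwards [this] with s hs using h s hs
  have h3 := (hf.analyticOnNhd isOpen_compl_singleton).eqOn_of_preconnected_of_eventuallyEq
    (hg.analyticOnNhd isOpen_compl_singleton) hU (z₀ := 2) (by simp) h2
  filter_upwards [compl_one_mem_nhds] with s hs using h3 hs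

variable {K : Type} [Field K] {O : Type} [CommRing O] [Algebra O K] [IsFractionRing O K]
  {σ₂ : K →+* ℝ}

theorem IsZDeriv.unique {m : Ideal O} {a : (FractionalIdeal O⁰ K)ˣ} {x y : ℝ}
    (hx : IsZDeriv σ₂ m a x) (hy : IsZDeriv σ₂ m a y) : x = y := by
  obtain ⟨f, h1, h2, h3⟩ := hx
  obtain ⟨g, g1, g2, g3⟩ := hy
  have := (eventuallyEq_of_continuation h1 g1 fun s hs => by rw [h3 s hs, g3 s hs]).deriv_eq
  rw [h2, g2] at this
  exact_mod_cast this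

omit [IsFractionRing O K] in
theorem loc_of_neg_one {m : Ideal O} {ρ : K} (h : ρ + 1 ∈ loc K m m) : ρ ∈ loc K m ⊤ := by
  simpa using loc_sub (loc_top h) loc_one

theorem cp_pr_of_neg_one {m : Ideal O} {ρ : Kˣ} (h : (ρ : K) + 1 ∈ loc K m m) :
    Cp m (pr O ρ) := by
  have h1 : ((-ρ : Kˣ) : K) - 1 ∈ loc K m m := by
    have := loc_neg h
    convert this using 1
    simp; ring
  refine ⟨flat_pr.2 (loc_of_neg_one h), ?_⟩
  rw [← map_inv]
  refine flat_pr.2 ?_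
  have := loc_neg (loc_inv_of_one h1)
  simpa using this

theorem rclass_eq {m : Ideal O} (hm1 : m ≠ ⊤) (hm : {p : Ideal O | m ≤ p}.Finite)
    {a : (FractionalIdeal O⁰ K)ˣ} (ha : Flat m a) {ρ₀ : Kˣ} (h1 : (ρ₀ : K) + 1 ∈ loc K m m)
    (h2 : 0 < σ₂ ρ₀) :
    {b | ∃ ρ : Kˣ, (ρ : K) + 1 ∈ loc K m m ∧ 0 < σ₂ ρ ∧
        MRel σ₂ m b (toPrincipalIdeal O K ρ * a)} = {b | MRel σ₂ m b (a * pr O ρ₀)} := by
  ext b
  rw [mul_comm a]
  refine ⟨?_, fun h => ⟨ρ₀, h1, h2, h⟩⟩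
  rintro ⟨ρ, h3, h4, h5⟩
  refine h5.trans hm1 hm ⟨a, ρ, ρ₀, ha, loc_of_neg_one h3, loc_of_neg_one h1, ?_, ?_, rfl, rfl⟩
  · simpa using loc_sub h3 h1
  · rw [sign_pos h2, sign_pos h4]

theorem IsZDeriv.congr {m : Ideal O} (hm1 : m ≠ ⊤) (hm : {p : Ideal O | m ≤ p}.Finite)
    {a a' : (FractionalIdeal O⁰ K)ˣ} (h : MRel σ₂ m a a') {x : ℝ} (hx : IsZDeriv σ₂ m a x) :
    IsZDeriv σ₂ m a' x := by
  obtain ⟨f, h1, h2, h3⟩ := hx
  refine ⟨f, h1, h2, fun s hs => ?_⟩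
  rw [h3 s hs]
  congr 2
  · ext b
    exact ⟨fun hb => MRel.trans hm1 hm hb h, fun hb => MRel.trans hm1 hm hb h.symm⟩
  · ext b
    have key : ∀ ρ : Kˣ, (ρ : K) + 1 ∈ loc K m m → MRel σ₂ m (pr O ρ * a) (pr O ρ * a') := by
      intro ρ hρ
      rw [mul_comm _ a, mul_comm _ a']
      exact h.mul_right (cp_pr_of_neg_one hρ).1
    constructor
    · rintro ⟨ρ, g1, g2, g3⟩; exact ⟨ρ, g1, g2, g3.trans hm1 hm (key ρ g1)⟩
    · rintro ⟨ρ, g1, g2, g3⟩; exact ⟨ρ, g1, g2, g3.trans hm1 hm (key ρ g1).symm⟩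

variable {A : Type} [CommRing A] [IsDomain A] [Algebra A K] [IsFractionRing A K] [Algebra O A]
  [IsScalarTower O A K]

theorem Setup.isZDeriv_dec {m : Ideal O} {f : Ideal A} (S : Setup m f)
    (hs : ∀ s : ℂ, 1 < s.re → Summable fun J : Ideal A => (Nat.card (A ⧸ J) : ℂ) ^ (-s))
    {a : (FractionalIdeal O⁰ K)ˣ} (ha : Flat m a) {T : Finset (FractionalIdeal A⁰ K)ˣ}
    (hT : Dec σ₂ m f a T) (x : (FractionalIdeal A⁰ K)ˣ → ℝ) (hx : ∀ B ∈ T, IsZDeriv σ₂ f B (x B)) :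
    IsZDeriv σ₂ m a (∑ B ∈ T, ((fib σ₂ m f a B).ncard : ℝ) * x B) := by
  have := S.finn
  obtain ⟨w, hw, hw2⟩ := exists_neg (n := f.comap (algebraMap O A)) σ₂
  have hw0 : -algebraMap O K w ≠ 0 := by
    rw [neg_ne_zero]; intro h0; rw [h0, map_zero] at hw2; exact lt_irrefl _ hw2
  let ρ₀ : Kˣ := Units.mk0 _ hw0
  have hρ1 : (ρ₀ : K) + 1 ∈ loc K f f := by
    have h1 : algebraMap O A (w - 1) ∈ f := hw
    have := loc_neg (loc_alg (K := K) (m := f) h1)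
    convert this using 1
    rw [← IsScalarTower.algebraMap_apply]
    simp [ρ₀]; ring
  have hρ2 : 0 < σ₂ ρ₀ := by simpa [ρ₀] using hw2
  have hcp := cp_pr_of_neg_one (loc_self_con S.hf hρ1)
  choose! F hF1 hF2 hF3 using hx
  refine ⟨fun s => ∑ B ∈ T, ((fib σ₂ m f a B).ncard : ℂ) * F B s, ?_, ?_, fun s hs' => ?_⟩
  · exact DifferentiableOn.fun_sum fun B hB => (hF1 B hB).const_mul _
  · rw [deriv_fun_sum fun B hB =>
      ((hF1 B hB).differentiableAt compl_one_mem_nhds).const_mul _]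
    push_cast
    refine Finset.sum_congr rfl fun B hB => ?_
    rw [deriv_const_mul_field, hF2 B hB]
  · rw [rclass_eq S.hm1 S.mfin ha (S.loc_fm hρ1) hρ2, S.zeta_dec hT (hs s hs'),
      S.zeta_dec (S.dec_mul hT hcp) (hs s hs'), Finset.sum_map, ← Finset.sum_sub_distrib]
    refine Finset.sum_congr rfl fun B hB => ?_
    rw [hF3 B hB s hs', rclass_eq S.f1 S.ffin (hT.1 B hB) hρ1 hρ2, mulRightEmbedding_apply,
      S.ncard_fib_mul hcp, ext_pr, mul_sub]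

end Pool.Agent.Lib.MP_6bf7a3_nt
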