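import Pool.Agent.Lib.MP_6bf7a3_nt.Loc

open NumberField FractionalIdeal
open scoped nonZeroDivisors

namespace Pool.Agent.Lib.MP_6bf7a3_nt

variable {K : Type} [Field K] {O : Type} [CommRing O] [Algebra O K] [IsFractionRing O K]

/-- The ideal `x a` contains an element congruent to one modulo `m`. -/
def PP (a : (FractionalIdeal O⁰ K)ˣ) (x : K) (m : Ideal O) : Prop :=
  ∃ u ∈ (a : FractionalIdeal O⁰ K), ∃ z : O, algebraMap O K z = x * u ∧ z - 1 ∈ m

omit [IsFractionRing O K] in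
theorem add_mem' {a : FractionalIdeal O⁰ K} {x y : K} (hx : x ∈ a) (hy : y ∈ a) : x + y ∈ a :=
  Submodule.add_mem a.coeToSubmodule hx hy

omit [IsFractionRing O K] in
theorem sub_mem' {a : FractionalIdeal O⁰ K} {x y : K} (hx : x ∈ a) (hy : y ∈ a) : x - y ∈ a :=
  Submodule.sub_mem a.coeToSubmodule hx hy

omit [IsFractionRing O K] in
theorem PP.combine {a : (FractionalIdeal O⁰ K)ˣ} {x : K} {m q : Ideal O} (hq : q.IsMaximal)
    (h : PP a x m) {u' : K} (hu' : u' ∈ (a : FractionalIdeal O⁰ K)) {z' : O}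
    (e' : algebraMap O K z' = x * u') (hz' : z' ∉ q) : PP a x (m * q) := by
  obtain ⟨u, hu, z, e, hz⟩ := h
  obtain ⟨w, c, hc, hw⟩ := hq.exists_inv hz'
  refine ⟨u + algebraMap O K (w * (1 - z)) * u', add_mem' hu (alg_mul_mem _ hu'),
    z + w * (1 - z) * z', ?_, ?_⟩
  · rw [map_add, map_mul, e, e']; ring
  · have : z + w * (1 - z) * z' - 1 = (z - 1) * c := by
      have : c = 1 - w * z' := by rw [← hw]; ring
      rw [this]; ring
    rw [this]; exact Ideal.mul_mem_mul hz hc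

theorem exists_not_mem_max (a : (FractionalIdeal O⁰ K)ˣ) {q : Ideal O} (hq : q ≠ ⊤) :
    ∃ l ∈ ((a⁻¹ : (FractionalIdeal O⁰ K)ˣ) : FractionalIdeal O⁰ K),
      ∃ u ∈ (a : FractionalIdeal O⁰ K), ∃ z : O, algebraMap O K z = l * u ∧ z ∉ q := by
  by_contra hcon
  push Not at hcon
  have key : ∀ x ∈ (a : FractionalIdeal O⁰ K) * ((a⁻¹ : (FractionalIdeal O⁰ K)ˣ) : _),
      ∃ z ∈ q, algebraMap O K z = x := by
    intro x hx
    refine FractionalIdeal.mul_induction_on hx (fun i hi j hj => ?_) ?_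
    · obtain ⟨z, hz⟩ := exists_of_mem_inv hi hj
      exact ⟨z, hcon j hj i hi z (by rw [hz, mul_comm]), hz⟩
    · rintro x y ⟨z, hz, rfl⟩ ⟨w, hw, rfl⟩
      exact ⟨z + w, q.add_mem hz hw, map_add _ _ _⟩
  obtain ⟨z, hz, e⟩ := key 1 (one_mem_mul_inv a)
  have : z = 1 := IsFractionRing.injective O K (by rw [e, map_one])
  rw [this, ← Ideal.eq_top_iff_one] at hz
  exact hq hz

theorem approx_step (a : (FractionalIdeal O⁰ K)ˣ) {m q : Ideal O} (hq : q.IsMaximal) {x : K}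
    (hx : x ∈ ((a⁻¹ : (FractionalIdeal O⁰ K)ˣ) : FractionalIdeal O⁰ K)) (h : PP a x m) :
    ∃ y ∈ (m : FractionalIdeal O⁰ K) * ((a⁻¹ : (FractionalIdeal O⁰ K)ˣ) : _),
      PP a (x + y) (m * q) := by
  by_cases hc : ∃ u' ∈ (a : FractionalIdeal O⁰ K), ∃ z' : O,
      algebraMap O K z' = x * u' ∧ z' ∉ q
  · obtain ⟨u', hu', z', e', hz'⟩ := hc
    exact ⟨0, zero_mem _, by simpa using h.combine hq hu' e' hz'⟩
  · push Not at hc
    obtain ⟨u, hu, z, e, hz⟩ := h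
    have hzq : z ∈ q := hc u hu z e
    have htq : 1 - z ∉ q := by
      intro ht
      have := q.add_mem ht hzq
      rw [sub_add_cancel, ← Ideal.eq_top_iff_one] at this
      exact hq.ne_top this
    have htm : 1 - z ∈ m := by rw [← neg_sub]; exact m.neg_mem hz
    obtain ⟨l, hl, u', hu', w, ew, hw⟩ := exists_not_mem_max a hq.ne_top
    refine ⟨algebraMap O K (1 - z) * l, mul_mem_mul (mem_coeIdeal_of_mem _ htm) hl, ?_⟩
    obtain ⟨v, ev⟩ := exists_of_mem_inv hu hl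
    obtain ⟨v', ev'⟩ := exists_of_mem_inv hu' hx
    have h1 : PP a (x + algebraMap O K (1 - z) * l) m := by
      refine ⟨u, hu, z + (1 - z) * v, ?_, ?_⟩
      · rw [map_add, map_mul, e, ev]; ring
      · have : z + (1 - z) * v - 1 = (z - 1) + (1 - z) * v := by ring
        rw [this]; exact m.add_mem hz (m.mul_mem_right _ htm)
    refine h1.combine hq hu' (z' := v' + (1 - z) * w) ?_ ?_
    · rw [map_add, map_mul, ew, ev']; ring
    · intro hmem
      have hv' : v' ∈ q := hc u' hu' v' (by rw [ev', mul_comm])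
      have := q.sub_mem hmem hv'
      rw [add_sub_cancel_left] at this
      rcases hq.isPrime.mem_or_mem this with h | h
      · exact htq h
      · exact hw h

omit [IsFractionRing O K] in
theorem mem_of_mem_coe_mul {m : Ideal O} {b : FractionalIdeal O⁰ K} {y : K}
    (hy : y ∈ (m : FractionalIdeal O⁰ K) * b) : y ∈ b := by
  refine FractionalIdeal.mul_induction_on hy (fun i hi j hj => ?_) (fun _ _ => add_mem')
  obtain ⟨i', -, rfl⟩ := (mem_coeIdeal _).1 hi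
  exact alg_mul_mem _ hj

theorem approx_finset (a : (FractionalIdeal O⁰ K)ˣ) (m : Ideal O) (T : Finset (Ideal O))
    (hT : ∀ q ∈ T, q.IsMaximal) {x : K}
    (hx : x ∈ ((a⁻¹ : (FractionalIdeal O⁰ K)ˣ) : FractionalIdeal O⁰ K)) (h : PP a x m) :
    ∃ y ∈ (m : FractionalIdeal O⁰ K) * ((a⁻¹ : (FractionalIdeal O⁰ K)ˣ) : _),
      PP a (x + y) (m * ∏ q ∈ T, q) := by
  classical
  induction T using Finset.induction_on with
  | empty => exact ⟨0, zero_mem _, by simpa using h⟩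
  | insert q T hq ih =>
    obtain ⟨y, hy, h1⟩ := ih (fun p hp => hT p (Finset.mem_insert_of_mem hp))
    obtain ⟨y', hy', h2⟩ := approx_step a (hT q (Finset.mem_insert_self _ _))
      (add_mem' hx (mem_of_mem_coe_mul hy)) h1
    refine ⟨y + y', add_mem' hy ?_, ?_⟩
    · refine FractionalIdeal.mul_induction_on hy' (fun i hi j hj => ?_) (fun _ _ => add_mem')
      obtain ⟨i', hi', rfl⟩ := (mem_coeIdeal _).1 hi
      exact mul_mem_mul (mem_coeIdeal_of_mem _ (Ideal.mul_le_left hi')) hj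
    · rw [Finset.prod_insert hq, mul_comm q, ← mul_assoc, ← add_assoc]; exact h2

theorem approx (a : (FractionalIdeal O⁰ K)ˣ) (m n : Ideal O) (hn : {p : Ideal O | n ≤ p}.Finite)
    {x : K} (hx : x ∈ ((a⁻¹ : (FractionalIdeal O⁰ K)ˣ) : FractionalIdeal O⁰ K)) (h : PP a x m) :
    ∃ y ∈ (m : FractionalIdeal O⁰ K) * ((a⁻¹ : (FractionalIdeal O⁰ K)ˣ) : _),
      PP a (x + y) n := by
  classical
  have hfin : {p : Ideal O | n ≤ p ∧ p.IsMaximal}.Finite := hn.subset fun p hp => hp.1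
  obtain ⟨y, hy, u, hu, z, e, hz⟩ := approx_finset a m hfin.toFinset
    (fun q hq => (hfin.mem_toFinset.1 hq).2) hx h
  refine ⟨y, hy, ?_⟩
  have hcop : Ideal.span {z} ⊔ n = ⊤ := by
    by_contra hne
    obtain ⟨p, hp, hle⟩ := Ideal.exists_le_maximal _ hne
    have h1 : z ∈ p := hle (Ideal.mem_sup_left (Ideal.mem_span_singleton_self z))
    have h2 : p ∈ hfin.toFinset := hfin.mem_toFinset.2 ⟨le_sup_right.trans hle, hp⟩
    have h3 : z - 1 ∈ p := by
      refine (Ideal.mul_le_right.trans ?_ : m * ∏ q ∈ hfin.toFinset, q ≤ p) hz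
      exact Ideal.le_of_dvd (Finset.dvd_prod_of_mem _ h2)
    have := p.sub_mem h1 h3
    rw [sub_sub_cancel, ← Ideal.eq_top_iff_one] at this
    exact hp.ne_top this
  obtain ⟨t, ht⟩ := cop_iff.1 hcop
  exact ⟨algebraMap O K t * u, alg_mul_mem _ hu, t * z, by rw [map_mul, e]; ring, ht⟩

theorem PP.ne_zero {a : (FractionalIdeal O⁰ K)ˣ} {x : K} {n : Ideal O} (hn : n ≠ ⊤)
    (h : PP a x n) : x ≠ 0 := by
  rintro rfl
  obtain ⟨u, -, z, e, hz⟩ := h
  have : z = 0 := IsFractionRing.injective O K (by rw [e, map_zero, zero_mul])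
  rw [this, zero_sub, Ideal.neg_mem_iff, ← Ideal.eq_top_iff_one] at hz
  exact hn hz

theorem PP.exists_ideal {a : (FractionalIdeal O⁰ K)ˣ} {α : Kˣ} {n : Ideal O}
    (hx : (α : K) ∈ ((a⁻¹ : (FractionalIdeal O⁰ K)ˣ) : FractionalIdeal O⁰ K))
    (h : PP a α n) : ∃ C : Ideal O, C ⊔ n = ⊤ ∧
      ((pr O α * a : (FractionalIdeal O⁰ K)ˣ) : FractionalIdeal O⁰ K) = C := by
  have hle : ((pr O α * a : (FractionalIdeal O⁰ K)ˣ) : FractionalIdeal O⁰ K) ≤ 1 := by
    intro x hx'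
    obtain ⟨y, hy, rfl⟩ := mem_pr_mul.1 hx'
    obtain ⟨z, hz⟩ := exists_of_mem_inv hy hx
    exact (mem_one_iff _).2 ⟨z, by rw [hz, mul_comm]⟩
  obtain ⟨C, hC⟩ := le_one_iff_exists_coeIdeal.1 hle
  obtain ⟨u, hu, z, e, hz⟩ := h
  refine ⟨C, ?_, hC.symm⟩
  have : algebraMap O K z ∈ (C : FractionalIdeal O⁰ K) := by
    rw [hC]; exact mem_pr_mul.2 ⟨u, hu, e⟩
  obtain ⟨w, hw, e2⟩ := (mem_coeIdeal _).1 this
  rw [IsFractionRing.injective O K e2] at hw
  exact sup_of_exists_one hw hz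

/-- Every invertible ideal is a principal multiple of an integral ideal coprime to `n`. -/
theorem exists_decomp (a : (FractionalIdeal O⁰ K)ˣ) {n : Ideal O} (hn1 : n ≠ ⊤)
    (hn : {p : Ideal O | n ≤ p}.Finite) :
    ∃ (α : Kˣ) (c : (FractionalIdeal O⁰ K)ˣ) (C : Ideal O), C ⊔ n = ⊤ ∧
      (c : FractionalIdeal O⁰ K) = C ∧ a = pr O α * c := by
  obtain ⟨y, hy, h⟩ := approx a ⊤ n hn (x := 0) (zero_mem _)
    ⟨0, zero_mem _, 0, by simp, trivial⟩
  rw [zero_add] at h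
  let β : Kˣ := Units.mk0 y (h.ne_zero hn1)
  obtain ⟨C, hC, e⟩ := PP.exists_ideal (α := β) (mem_of_mem_coe_mul hy) h
  exact ⟨β⁻¹, pr O β * a, C, hC, e, by rw [map_inv, inv_mul_cancel_left]⟩

variable {σ₂ : K →+* ℝ}

theorem MRel.trans {m : Ideal O} (hm1 : m ≠ ⊤) (hm : {p : Ideal O | m ≤ p}.Finite)
    {a b c : (FractionalIdeal O⁰ K)ˣ} (h1 : MRel σ₂ m a b) (h2 : MRel σ₂ m b c) :
    MRel σ₂ m a c := by
  obtain ⟨α, d, D, hD, e, rfl⟩ := exists_decomp b hm1 hm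
  have hd := cp_of_coe e hD
  have hα := loc_of_flat_pr_mul hd.2 h1.flat_right
  obtain ⟨β, rfl, h3, h4⟩ := (mrel_iff hd hα).1 h1
  obtain ⟨γ, rfl, h5, h6⟩ := (mrel_iff hd hα).1 h2.symm
  have hγ := loc_of_flat_pr_mul hd.2 h2.flat_right
  refine (mrel_iff hd hγ).2 ⟨β, rfl, ?_, h4.trans h6.symm⟩
  have := loc_sub h3 h5
  simpa using this

omit [IsFractionRing O K] in
theorem exists_neg {n : Ideal O} [Finite (O ⧸ n)] (σ₂ : K →+* ℝ) :
    ∃ w : O, w - 1 ∈ n ∧ σ₂ (algebraMap O K w) < 0 := by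
  have h1 : ((Nat.card (O ⧸ n) : ℕ) : O) ∈ n := by
    rw [← Ideal.Quotient.eq_zero_iff_mem, map_natCast, ← nsmul_one]
    exact card_nsmul_eq_zero'
  have h2 : 0 < Nat.card (O ⧸ n) := Nat.card_pos
  refine ⟨1 - 2 * (Nat.card (O ⧸ n) : ℕ), ?_, ?_⟩
  · have : (1 : O) - 2 * (Nat.card (O ⧸ n) : ℕ) - 1 = (-2) * (Nat.card (O ⧸ n) : ℕ) := by ring
    rw [this]; exact n.mul_mem_left _ h1
  · have h3 : (1 : ℝ) ≤ (Nat.card (O ⧸ n) : ℕ) := by exact_mod_cast h2
    simp only [map_sub, map_one, map_mul, map_ofNat, map_natCast]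
    linarith

/-- Moving an ideal coprime to `m` to one coprime to `n` inside its ray class. -/
theorem exists_move {m n : Ideal O} (hnm : n ≤ m) (hm1 : m ≠ ⊤) [Finite (O ⧸ n)]
    (hn : {p : Ideal O | n ≤ p}.Finite) (σ₂ : K →+* ℝ) {a : (FractionalIdeal O⁰ K)ˣ}
    (ha : Cp m a) :
    ∃ α : Kˣ, (α : K) - 1 ∈ loc K m m ∧ 0 < σ₂ α ∧ Cp n (pr O α * a) := by
  have hn1 : n ≠ ⊤ := fun h => hm1 (top_le_iff.1 (h ▸ hnm))
  obtain ⟨t, ht, ht2⟩ := exists_one_mem ha.2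
  obtain ⟨t', ht', ht2'⟩ := exists_one_mem (a := a⁻¹) (m := m) (by rw [inv_inv]; exact ha.1)
  obtain ⟨y, hy, h⟩ := approx a m n hn ht2' ⟨_, ht2, t' * t, map_mul _ _ _, one_mul_mem ht' ht⟩
  let β : Kˣ := Units.mk0 _ (h.ne_zero hn1)
  obtain ⟨C, hC, e⟩ := PP.exists_ideal (α := β) (add_mem' ht2' (mem_of_mem_coe_mul hy)) h
  have hcp := cp_of_coe e hC
  have hβ : (β : K) - 1 ∈ loc K m m := by
    have h1 : y ∈ loc K m m := by
      refine FractionalIdeal.mul_induction_on hy (fun i hi j hj => ?_) (fun _ _ => loc_add)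
      obtain ⟨i', hi', rfl⟩ := (mem_coeIdeal _).1 hi
      exact loc_mul' (loc_alg hi') (ha.2 j hj)
    have h2 : algebraMap O K (t' - 1) ∈ loc K m m := loc_alg ht'
    have : (β : K) - 1 = algebraMap O K (t' - 1) + y := by
      simp only [β, Units.val_mk0, map_sub, map_one]; ring
    rw [this]; exact loc_add h2 h1
  have hne : σ₂ β ≠ 0 := by simp
  rcases hne.lt_or_gt with hlt | hgt
  · obtain ⟨w, hw, hw2⟩ := exists_neg (n := n) σ₂
    have hw0 : algebraMap O K w ≠ 0 := by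
      intro h0; rw [h0, map_zero] at hw2; exact lt_irrefl _ hw2
    let ω : Kˣ := Units.mk0 _ hw0
    have hω : (ω : K) - 1 ∈ loc K n n := by
      have := loc_alg (K := K) (m := n) hw
      simpa [ω] using this
    refine ⟨ω * β, loc_one_mul (loc_mono hnm hnm hω) hβ, ?_, ?_⟩
    · rw [Units.val_mul, map_mul]; exact mul_pos_of_neg_of_neg hw2 hlt
    · rw [map_mul, mul_assoc]; exact (cp_pr_of_one hω).mul hcp
  · exact ⟨β, hβ, hgt, hcp⟩

end Pool.Agent.Lib.MP_6bf7a3_nt
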