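import Pool.Agent.Lib.MP_6bf7a3_nt.Analytic

open NumberField FractionalIdeal
open scoped nonZeroDivisors

namespace Pool.Agent.Lib.MP_6bf7a3_nt

variable {K : Type} [Field K] {O : Type} [CommRing O] [Algebra O K] [IsFractionRing O K]
  {A : Type} [CommRing A] [IsDomain A] [Algebra A K] [IsFractionRing A K] [Algebra O A]
  [IsScalarTower O A K] {σ₂ : K →+* ℝ} {G' G : Type} [Group G'] [Group G]

/-- Group-theoretic properties of an Artin map. -/
structure IsArt (σ₂ : K →+* ℝ) (m : Ideal O) (Art : (FractionalIdeal O⁰ K)ˣ → G) : Prop where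
  mul : ∀ a b, Cp m a → Cp m b → Art (a * b) = Art a * Art b
  surj : ∀ g, ∃ a, Cp m a ∧ Art a = g
  ker : ∀ a, Cp m a → (Art a = 1 ↔
    ∃ α : Kˣ, a = pr O α ∧ (α : K) - 1 ∈ loc K m m ∧ 0 < σ₂ α)

theorem IsArt.one {m : Ideal O} {Art : (FractionalIdeal O⁰ K)ˣ → G} (h : IsArt σ₂ m Art) :
    Art 1 = 1 := by
  have := h.mul 1 1 cp_one cp_one
  rw [mul_one] at this
  exact left_eq_mul.1 this

theorem IsArt.inv {m : Ideal O} {Art : (FractionalIdeal O⁰ K)ˣ → G} (h : IsArt σ₂ m Art)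
    {a : (FractionalIdeal O⁰ K)ˣ} (ha : Cp m a) : Art a⁻¹ = (Art a)⁻¹ := by
  have := h.mul a a⁻¹ ha ha.inv
  rw [mul_inv_cancel, h.one] at this
  exact eq_inv_of_mul_eq_one_right this.symm

omit [IsFractionRing O K] in
theorem pos_inv {α : Kˣ} (h : 0 < σ₂ α) : 0 < σ₂ ((α⁻¹ : Kˣ) : K) := by
  rw [Units.val_inv_eq_inv_val, map_inv₀]; exact inv_pos.2 h

omit [IsFractionRing O K] in
theorem pos_mul {α β : Kˣ} (h : 0 < σ₂ α) (h' : 0 < σ₂ β) : 0 < σ₂ ((α * β : Kˣ) : K) := by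
  rw [Units.val_mul, map_mul]; exact mul_pos h h'

/-- The subgroup cutting out the ray class field of the order. -/
def kerN (m : Ideal O) {f : Ideal A} {Art' : (FractionalIdeal A⁰ K)ˣ → G'}
    (h : IsArt σ₂ f Art') : Subgroup G' where
  carrier := {g | ∃ β : Kˣ, Cp (f.comap (algebraMap O A)) (pr O β) ∧ (β : K) - 1 ∈ loc K m m ∧
    0 < σ₂ β ∧ g = Art' (pr A β)}
  one_mem' := ⟨1, by rw [map_one]; exact cp_one, by simpa using loc_zero, by simp,
    by rw [map_one, h.one]⟩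
  mul_mem' := by
    rintro _ _ ⟨β, h1, h2, h3, rfl⟩ ⟨γ, g1, g2, g3, rfl⟩
    refine ⟨β * γ, by rw [map_mul]; exact h1.mul g1, loc_one_mul h2 g2, pos_mul h3 g3, ?_⟩
    rw [map_mul, h.mul _ _ (ext_pr (O := O) (A := A) β ▸ h1.ext) (ext_pr (O := O) (A := A) γ ▸ g1.ext)]
  inv_mem' := by
    rintro _ ⟨β, h1, h2, h3, rfl⟩
    refine ⟨β⁻¹, by rw [map_inv]; exact h1.inv, loc_one_inv h2, pos_inv h3, ?_⟩
    rw [map_inv, h.inv (ext_pr (O := O) (A := A) β ▸ h1.ext)]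

theorem Setup.exists_art {m : Ideal O} {f : Ideal A} (S : Setup m f)
    {Art' : (FractionalIdeal A⁰ K)ˣ → G'} (h : IsArt σ₂ f Art') (res : G' →* G)
    (hsurj : Function.Surjective res) (hker : ∀ g, res g = 1 ↔ g ∈ kerN m h) :
    ∃ Art : (FractionalIdeal O⁰ K)ˣ → G, IsArt σ₂ m Art ∧
      ∀ (a : (FractionalIdeal O⁰ K)ˣ) (α : Kˣ), (α : K) - 1 ∈ loc K m m → 0 < σ₂ α →
        Cp (f.comap (algebraMap O A)) (pr O α * a) → Art a = res (Art' (ext A (pr O α * a))) := by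
  classical
  have := S.finn
  have hmove := fun (a : (FractionalIdeal O⁰ K)ˣ) (ha : Cp m a) =>
    exists_move S.le S.hm1 S.nfin σ₂ ha
  choose! μ hμ1 hμ2 hμ3 using hmove
  have hwd : ∀ (a : (FractionalIdeal O⁰ K)ˣ) (α β : Kˣ), (α : K) - 1 ∈ loc K m m → 0 < σ₂ α →
      Cp (f.comap (algebraMap O A)) (pr O α * a) → (β : K) - 1 ∈ loc K m m → 0 < σ₂ β →
      Cp (f.comap (algebraMap O A)) (pr O β * a) →
      res (Art' (ext A (pr O α * a))) = res (Art' (ext A (pr O β * a))) := by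
    intro a α β h1 h2 h3 g1 g2 g3
    have e : pr O (α * β⁻¹) = (pr O α * a) * (pr O β * a)⁻¹ := by
      rw [map_mul, map_inv, mul_inv, mul_mul_mul_comm, mul_inv_cancel, mul_one]
    have hc : Cp (f.comap (algebraMap O A)) (pr O (α * β⁻¹)) := e ▸ h3.mul g3.inv
    have hN : Art' (pr A (α * β⁻¹)) ∈ kerN m h :=
      ⟨_, hc, loc_one_mul h1 (loc_one_inv g1), pos_mul h2 (pos_inv g2), rfl⟩
    have e2 : pr O α * a = pr O (α * β⁻¹) * (pr O β * a) := by
      rw [e, inv_mul_cancel_right]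
    rw [e2, map_mul (ext A), h.mul _ _ hc.ext g3.ext, map_mul, ext_pr, (hker _).2 hN, one_mul]
  have hcp : ∀ (a : (FractionalIdeal O⁰ K)ˣ) (α : Kˣ), (α : K) - 1 ∈ loc K m m →
      Cp (f.comap (algebraMap O A)) (pr O α * a) → Cp m a := by
    intro a α h1 h3
    have := (cp_pr_of_one h1).inv.mul (h3.mono S.le)
    rwa [inv_mul_cancel_left] at this
  have hform : ∀ (a : (FractionalIdeal O⁰ K)ˣ) (α : Kˣ), (α : K) - 1 ∈ loc K m m → 0 < σ₂ α →
      Cp (f.comap (algebraMap O A)) (pr O α * a) →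
      res (Art' (ext A (pr O (μ a) * a))) = res (Art' (ext A (pr O α * a))) := by
    intro a α h1 h2 h3
    have ha := hcp a α h1 h3
    exact hwd a _ _ (hμ1 a ha) (hμ2 a ha) (hμ3 a ha) h1 h2 h3
  refine ⟨fun a => res (Art' (ext A (pr O (μ a) * a))), ⟨?_, ?_, ?_⟩, hform⟩
  · intro a b ha hb
    have e : pr O (μ a * μ b) * (a * b) = (pr O (μ a) * a) * (pr O (μ b) * b) := by
      rw [map_mul, mul_mul_mul_comm]
    rw [hform (a * b) (μ a * μ b) (loc_one_mul (hμ1 a ha) (hμ1 b hb))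
      (pos_mul (hμ2 a ha) (hμ2 b hb)) (e ▸ (hμ3 a ha).mul (hμ3 b hb)), e, map_mul (ext A),
      h.mul _ _ (hμ3 a ha).ext (hμ3 b hb).ext, map_mul]
  · intro g
    obtain ⟨g', rfl⟩ := hsurj g
    obtain ⟨B, hB, rfl⟩ := h.surj g'
    obtain ⟨d, hd, rfl, -⟩ := exists_ext (O := O) S.hf S.hf0 hB
    refine ⟨d, hd.mono S.le, ?_⟩
    rw [hform d 1 (by simpa using loc_zero) (by simp) (by simpa using hd)]
    simp
  · intro a ha
    constructor
    · intro h0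
      obtain ⟨β, h1, h2, h3, h4⟩ := (hker _).1 h0
      have hc : Cp (f.comap (algebraMap O A)) (pr O (μ a) * a * (pr O β)⁻¹) :=
        (hμ3 a ha).mul h1.inv
      have h5 : Art' (ext A (pr O (μ a) * a * (pr O β)⁻¹)) = 1 := by
        rw [map_mul (ext A), h.mul _ _ (hμ3 a ha).ext h1.inv.ext, map_inv, h.inv h1.ext, h4,
          ext_pr, mul_inv_cancel]
      obtain ⟨γ, g1, g2, g3⟩ := (h.ker _ hc.ext).1 h5
      have hγ := cp_pr_of_one (loc_self_con S.hf g2)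
      have h6 := eq_one_of_ext S.hf (hc.mul hγ.inv)
        (by rw [map_mul (ext A), g1, map_inv, ext_pr, mul_inv_cancel])
      refine ⟨γ * β * (μ a)⁻¹, ?_, ?_, pos_mul (pos_mul g3 h3) (pos_inv (hμ2 a ha))⟩
      · rw [mul_inv_eq_one, mul_inv_eq_iff_eq_mul] at h6
        rw [map_mul, map_mul, ← h6, map_inv, mul_comm (pr O (μ a)), mul_inv_cancel_right]
      · exact loc_one_mul (loc_one_mul (S.loc_fm g2) h2) (loc_one_inv (hμ1 a ha))
    · rintro ⟨γ, rfl, g1, g2⟩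
      have e : pr O γ⁻¹ * pr O γ = 1 := by rw [map_inv, inv_mul_cancel]
      rw [hform _ γ⁻¹ (loc_one_inv g1) (pos_inv g2) (e ▸ cp_one), e, map_one, h.one, map_one]

end Pool.Agent.Lib.MP_6bf7a3_nt
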