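import Mathlib

open NumberField
open scoped nonZeroDivisors

namespace Pool.Agent.Lib.MP_6bf7a3_nt

variable (K : Type) [Field K] {O : Type} [CommRing O] [Algebra O K] [IsFractionRing O K]

/-- The subset `I O[S⁻¹]` of `K`, where `S` is the set of elements of `O` coprime to `m`. -/
def loc (m I : Ideal O) : Set K :=
  {x | ∃ s : O, Ideal.span {s} ⊔ m = ⊤ ∧ ∃ y ∈ I, algebraMap O K s * x = algebraMap O K y}

/-- The ideal `(m : O_K)` of the maximal order. -/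
def cond [Algebra O (𝓞 K)] (m : Ideal O) : Ideal (𝓞 K) :=
  Ideal.span {x | ∀ y : 𝓞 K, ∃ z ∈ m, algebraMap O (𝓞 K) z = x * y}

variable {K}

/-- Invertible fractional ideals `a` with `a R ⊆ R`. -/
def Flat (m : Ideal O) (a : (FractionalIdeal O⁰ K)ˣ) : Prop :=
  ∀ x ∈ (a : FractionalIdeal O⁰ K), x ∈ loc K m ⊤

/-- Invertible fractional ideals coprime to `m`. -/
def InJ (m : Ideal O) (a : (FractionalIdeal O⁰ K)ˣ) : Prop :=
  ∃ I₁ I₂ : Ideal O, I₁ ⊔ m = ⊤ ∧ I₂ ⊔ m = ⊤ ∧ IsUnit (I₂ : FractionalIdeal O⁰ K) ∧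
    (a : FractionalIdeal O⁰ K) * I₂ = I₁

/-- The partial zeta function of a set of invertible ideals. -/
noncomputable def zeta (X : Set (FractionalIdeal O⁰ K)ˣ) (s : ℂ) : ℂ :=
  ∑' I : {I : Ideal O // ∃ a ∈ X, (a : FractionalIdeal O⁰ K) = I},
    (Nat.card (O ⧸ I.1) : ℂ) ^ (-s)

variable (σ₂ : K →+* ℝ)

/-- The relation defining the ray class monoid. -/
def MRel (m : Ideal O) (a b : (FractionalIdeal O⁰ K)ˣ) : Prop :=
  ∃ (c : (FractionalIdeal O⁰ K)ˣ) (α β : Kˣ), Flat m c ∧ (α : K) ∈ loc K m ⊤ ∧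
    (β : K) ∈ loc K m ⊤ ∧ (α : K) - β ∈ loc K m m ∧
    SignType.sign (σ₂ α) = SignType.sign (σ₂ β) ∧
    a = toPrincipalIdeal O K α * c ∧ b = toPrincipalIdeal O K β * c

/-- `x` is the derivative at `0` of the continuation of the differenced zeta function. -/
def IsZDeriv (m : Ideal O) (a : (FractionalIdeal O⁰ K)ˣ) (x : ℝ) : Prop :=
  ∃ f : ℂ → ℂ, DifferentiableOn ℂ f {1}ᶜ ∧ deriv f 0 = x ∧ ∀ s : ℂ, 1 < s.re →
    f s = zeta {b | MRel σ₂ m b a} s -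
      zeta {b | ∃ ρ : Kˣ, (ρ : K) + 1 ∈ loc K m m ∧ 0 < σ₂ ρ ∧
        MRel σ₂ m b (toPrincipalIdeal O K ρ * a)} s

variable [Algebra K ℝ] [Algebra O (𝓞 K)]

/-- `H` is the ray class field and `Art` the Artin map. -/
def IsRCF (m : Ideal O) (H : IntermediateField K ℝ)
    (Art : (FractionalIdeal O⁰ K)ˣ → (H ≃ₐ[K] H)) : Prop :=
  FiniteDimensional K H ∧ IsAbelianGalois K H ∧
  (∀ p : Ideal (𝓞 K), p.IsMaximal → p ⊔ cond K m = ⊤ →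
    ((p.primesOver (𝓞 H)).ncard = Module.finrank K H ↔
      ∃ π : O, p.comap (algebraMap O (𝓞 K)) = Ideal.span {π} ∧ π - 1 ∈ m ∧
        0 < σ₂ (algebraMap O K π)) ∧
    Algebra.IsUnramifiedIn (𝓞 H) p ∧
    ∀ a : (FractionalIdeal O⁰ K)ˣ,
      (a : FractionalIdeal O⁰ K) = (p.comap (algebraMap O (𝓞 K)) : Ideal O) →
      ∀ P ∈ p.primesOver (𝓞 H), ∀ x : 𝓞 H, Art a • x - x ^ Nat.card (𝓞 K ⧸ p) ∈ P) ∧
  (∀ a b, InJ m a → InJ m b → Art (a * b) = Art a * Art b) ∧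
  (∀ g, ∃ a, InJ m a ∧ Art a = g) ∧
  (∀ a, InJ m a → (Art a = 1 ↔
    ∃ α : Kˣ, a = toPrincipalIdeal O K α ∧ (α : K) - 1 ∈ loc K m m ∧ 0 < σ₂ α))

/-- The assertion of the monoid Stark conjecture for `(K, O, m)`. -/
def MSC (m : Ideal O) : Prop :=
  ∃ (H : IntermediateField K ℝ) (Art : (FractionalIdeal O⁰ K)ˣ → (H ≃ₐ[K] H)),
    IsRCF σ₂ m H Art ∧
    ∃ ε : (FractionalIdeal O⁰ K)ˣ → (𝓞 H)ˣ, ∀ a, Flat m a →
      (∃ x : ℝ, IsZDeriv σ₂ m a x ∧ (((ε a : 𝓞 H) : H) : ℝ) = Real.exp (-x)) ∧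
      (∀ b, InJ m b → Art b (((ε a : 𝓞 H) : H)) = ((ε (a * b) : 𝓞 H) : H)) ∧
      (∀ τ : H →+* ℂ, (∀ x : K, τ (algebraMap K H x) = σ₂ x) → ‖τ ((ε a : 𝓞 H) : H)‖ = 1) ∧
      IsAbelianGalois K
        ↥(H ⊔ IntermediateField.adjoin K {Real.sqrt (((ε a : 𝓞 H) : H) : ℝ)})

end Pool.Agent.Lib.MP_6bf7a3_nt
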