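import Pool.Agent.Lib.MP_6bf7a3_nt.Approx

open NumberField FractionalIdeal
open scoped nonZeroDivisors

namespace Pool.Agent.Lib.MP_6bf7a3_nt

variable {K : Type} [Field K] {O : Type} [CommRing O] [Algebra O K] [IsFractionRing O K]
  {A : Type} [CommRing A] [IsDomain A] [Algebra A K] [IsFractionRing A K] [Algebra O A]
  [IsScalarTower O A K]

variable (O A K) in
omit [IsDomain A] [IsFractionRing A K] in
include K in
theorem alg_inj : Function.Injective (algebraMap O A) := by
  apply Function.Injective.of_comp (f := algebraMap A K)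
  rw [← RingHom.coe_comp, ← IsScalarTower.algebraMap_eq]
  exact IsFractionRing.injective O K

variable (O A K) in
omit [IsFractionRing A K] in
include K in
theorem nzd_le : O⁰ ≤ Submonoid.comap (algebraMap O A) A⁰ :=
  nonZeroDivisors_le_comap_nonZeroDivisors_of_injective _ (alg_inj K O A)

theorem locmap_eq (x : K) :
    IsLocalization.map (S := K) K (algebraMap O A) (nzd_le K O A) x = x := by
  have : IsLocalization.map (S := K) K (algebraMap O A) (nzd_le K O A) = RingHom.id K := by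
    apply IsLocalization.map_unique
    intro y
    rw [RingHom.id_apply, ← IsScalarTower.algebraMap_apply]
  rw [this, RingHom.id_apply]

variable (A) in
/-- Extension of invertible ideals. -/
noncomputable def ext : (FractionalIdeal O⁰ K)ˣ →* (FractionalIdeal A⁰ K)ˣ :=
  Units.map (extendedHom' K (nzd_le K O A) :
    FractionalIdeal O⁰ K →+* FractionalIdeal A⁰ K).toMonoidHom

theorem coe_ext (a : (FractionalIdeal O⁰ K)ˣ) :
    (ext A a : FractionalIdeal A⁰ K) = (a : FractionalIdeal O⁰ K).extended K (nzd_le K O A) := rfl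

theorem mem_ext {a : (FractionalIdeal O⁰ K)ˣ} {x : K} :
    x ∈ (ext A a : FractionalIdeal A⁰ K) ↔
      x ∈ Submodule.span A ((a : FractionalIdeal O⁰ K) : Set K) := by
  rw [coe_ext, mem_extended_iff]
  simp only [locmap_eq, Set.image_id']

theorem mem_ext_of_mem {a : (FractionalIdeal O⁰ K)ˣ} {x : K}
    (h : x ∈ (a : FractionalIdeal O⁰ K)) : x ∈ (ext A a : FractionalIdeal A⁰ K) :=
  mem_ext.2 (Submodule.subset_span h)

theorem ext_pr (α : Kˣ) : ext A (pr O α) = pr A α := by
  ext1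
  rw [coe_ext, coe_toPrincipalIdeal, coe_toPrincipalIdeal, extended_spanSingleton, locmap_eq]

theorem ext_coe {a : (FractionalIdeal O⁰ K)ˣ} {I : Ideal O} (h : (a : FractionalIdeal O⁰ K) = I) :
    (ext A a : FractionalIdeal A⁰ K) = (I.map (algebraMap O A) : Ideal A) := by
  rw [coe_ext, h, extended_coeIdeal_eq_map]

theorem ext_induction {a : (FractionalIdeal O⁰ K)ˣ} {P : K → Prop}
    (h1 : ∀ x ∈ (a : FractionalIdeal O⁰ K), ∀ r : A, P (algebraMap A K r * x)) (h0 : P 0)
    (h2 : ∀ x y, P x → P y → P (x + y)) {x : K} (hx : x ∈ (ext A a : FractionalIdeal A⁰ K)) :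
    P x := by
  have key : ∀ r : A, P (algebraMap A K r * x) := by
    refine Submodule.span_induction (p := fun x _ => ∀ r : A, P (algebraMap A K r * x))
      (fun y hy r => h1 y hy r) (fun r => by simpa using h0) (fun y z _ _ hy hz r => ?_)
      (fun c y _ hy r => ?_) (mem_ext.1 hx)
    · rw [mul_add]; exact h2 _ _ (hy r) (hz r)
    · rw [Algebra.smul_def, ← mul_assoc, ← map_mul]; exact hy _
  simpa using key 1

variable {f : Ideal A}

omit [IsDomain A] [IsFractionRing A K] [IsFractionRing O K] in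
theorem loc_top_ext {x : K} (h : x ∈ loc K (f.comap (algebraMap O A)) ⊤) : x ∈ loc K f ⊤ := by
  obtain ⟨s, hs, y, -, e⟩ := mem_loc.1 h
  refine mem_loc.2 ⟨algebraMap O A s, by simpa using hs, algebraMap O A y, trivial, ?_⟩
  rw [← IsScalarTower.algebraMap_apply, ← IsScalarTower.algebraMap_apply, e]

theorem Flat.ext {a : (FractionalIdeal O⁰ K)ˣ} (h : Flat (f.comap (algebraMap O A)) a) :
    Flat f (ext A a) := fun _ hx =>
  ext_induction (P := fun x => x ∈ loc K f ⊤)
    (fun x hx r => loc_mul (loc_alg_top r) (loc_top_ext (h x hx))) loc_zero (fun _ _ => loc_add) hx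

theorem Cp.ext {a : (FractionalIdeal O⁰ K)ˣ} (h : Cp (f.comap (algebraMap O A)) a) :
    Cp f (ext A a) := ⟨h.1.ext, by rw [← map_inv]; exact h.2.ext⟩

variable (hf : ∀ x ∈ f, ∃ z : O, algebraMap O A z = x)
include hf

omit [IsDomain A] [IsFractionRing A K] [IsFractionRing O K] in
theorem loc_self_con {x : K} (h : x ∈ loc K f f) :
    x ∈ loc K (f.comap (algebraMap O A)) (f.comap (algebraMap O A)) := by
  obtain ⟨s, hs, y, hy, e⟩ := mem_loc.1 h
  obtain ⟨s', hs'⟩ := hf _ hs
  obtain ⟨y', hy'⟩ := hf _ hy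
  refine mem_loc.2 ⟨s' + 1, ?_, y', ?_, ?_⟩
  · simpa [hs'] using hs
  · simpa [hy'] using hy
  · rw [IsScalarTower.algebraMap_apply O A K, IsScalarTower.algebraMap_apply O A K y', hy', ← e,
      map_add, hs']
    simp

omit [IsDomain A] [IsFractionRing O K] in
theorem exists_of_loc {x : A} (h : algebraMap A K x ∈ loc K (f.comap (algebraMap O A)) ⊤) :
    ∃ z : O, algebraMap O A z = x := by
  obtain ⟨s, hs, y, -, e⟩ := mem_loc.1 h
  rw [IsScalarTower.algebraMap_apply O A K, IsScalarTower.algebraMap_apply O A K y,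
    ← map_mul] at e
  have e2 := IsFractionRing.injective A K e
  obtain ⟨w, hw⟩ := hf _ (f.mul_mem_right x hs)
  refine ⟨y - w, ?_⟩
  rw [map_sub, hw, ← e2, map_sub, map_one]; ring

theorem le_one_of_ext {d : (FractionalIdeal O⁰ K)ˣ} (h : Flat (f.comap (algebraMap O A)) d)
    (h1 : (ext A d : FractionalIdeal A⁰ K) ≤ 1) : (d : FractionalIdeal O⁰ K) ≤ 1 := by
  intro x hx
  obtain ⟨y, hy⟩ := (mem_one_iff _).1 (h1 (mem_ext_of_mem hx))
  obtain ⟨z, hz⟩ := exists_of_loc hf (K := K) (x := y) (by rw [hy]; exact h x hx)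
  exact (mem_one_iff _).2 ⟨z, by rw [IsScalarTower.algebraMap_apply O A K, hz, hy]⟩

theorem eq_one_of_ext {d : (FractionalIdeal O⁰ K)ˣ} (h : Cp (f.comap (algebraMap O A)) d)
    (h1 : ext A d = 1) : d = 1 := by
  have e1 := le_one_of_ext hf h.1 (by rw [h1]; rfl)
  have e2 := le_one_of_ext hf h.2 (by rw [map_inv, h1]; rfl)
  ext1
  refine le_antisymm e1 ?_
  calc ((1 : (FractionalIdeal O⁰ K)ˣ) : FractionalIdeal O⁰ K)
      = d * ((d⁻¹ : (FractionalIdeal O⁰ K)ˣ) : _) := by rw [← Units.val_mul, mul_inv_cancel]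
    _ ≤ d * 1 := mul_le_mul_right e2 _
    _ = d := mul_one _

omit [IsDomain A] [IsFractionRing A K] [IsFractionRing O K] in
theorem f_mul_loc {y : A} (hy : y ∈ f) {x : K} (hx : x ∈ loc K f ⊤) :
    algebraMap A K y * x ∈ loc K (f.comap (algebraMap O A)) ⊤ :=
  loc_top (loc_self_con hf (loc_mul' (loc_alg hy) hx))

omit [IsFractionRing A K] in
theorem exists_con (hf0 : f ≠ ⊥) (B : FractionalIdeal A⁰ K) :
    ∃ d : FractionalIdeal O⁰ K, ∀ x, x ∈ d ↔ x ∈ B ∧ x ∈ loc K (f.comap (algebraMap O A)) ⊤ := by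
  let D : Submodule O K :=
    { carrier := {x | x ∈ B ∧ x ∈ loc K (f.comap (algebraMap O A)) ⊤}
      add_mem' := fun hx hy => ⟨add_mem' hx.1 hy.1, loc_add hx.2 hy.2⟩
      zero_mem' := ⟨zero_mem _, loc_zero⟩
      smul_mem' := fun c x hx => by
        rw [Algebra.smul_def]
        refine ⟨?_, loc_mul (loc_alg_top c) hx.2⟩
        rw [IsScalarTower.algebraMap_apply O A K]
        exact alg_mul_mem _ hx.1 }
  obtain ⟨a, ha, hB⟩ := B.isFractional
  obtain ⟨y, hy, hy0⟩ := Submodule.exists_mem_ne_zero_of_ne_bot hf0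
  obtain ⟨z, hz⟩ := hf _ (f.mul_mem_right a hy)
  have hz0 : z ∈ O⁰ := by
    have : IsDomain O := (alg_inj K O A).isDomain _
    apply mem_nonZeroDivisors_of_ne_zero
    rintro rfl
    rw [map_zero] at hz
    exact mul_ne_zero hy0 (nonZeroDivisors.ne_zero ha) hz.symm
  refine ⟨⟨D, z, hz0, fun x hx => ?_⟩, fun x => Iff.rfl⟩
  obtain ⟨w, hw⟩ := hB x hx.1
  obtain ⟨v, hv⟩ := hf _ (f.mul_mem_right w hy)
  refine ⟨v, ?_⟩
  rw [Algebra.smul_def, IsScalarTower.algebraMap_apply O A K, IsScalarTower.algebraMap_apply O A K z,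
    hv, hz, map_mul, map_mul, hw, Algebra.smul_def, mul_assoc]

theorem exists_ext (hf0 : f ≠ ⊥) {B : (FractionalIdeal A⁰ K)ˣ} (hB : Cp f B) :
    ∃ d : (FractionalIdeal O⁰ K)ˣ, Cp (f.comap (algebraMap O A)) d ∧ ext A d = B ∧
      ∀ x, x ∈ (d : FractionalIdeal O⁰ K) ↔
        x ∈ (B : FractionalIdeal A⁰ K) ∧ x ∈ loc K (f.comap (algebraMap O A)) ⊤ := by
  obtain ⟨d, hd⟩ := exists_con hf hf0 (B : FractionalIdeal A⁰ K)
  obtain ⟨d', hd'⟩ := exists_con hf hf0 ((B⁻¹ : (FractionalIdeal A⁰ K)ˣ) : FractionalIdeal A⁰ K)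
  have halg : ∀ t : A, t - 1 ∈ f → algebraMap A K t ∈ loc K (f.comap (algebraMap O A)) ⊤ := by
    intro t ht
    obtain ⟨z, hz⟩ := hf _ ht
    have : algebraMap A K t = algebraMap O K (z + 1) := by
      rw [IsScalarTower.algebraMap_apply O A K, map_add, hz]; simp
    rw [this]; exact loc_alg_top _
  have hmul : d * d' = 1 := by
    apply le_antisymm
    · rw [mul_le]
      intro i hi j hj
      obtain ⟨z, hz⟩ := exists_of_mem_inv ((hd i).1 hi).1 ((hd' j).1 hj).1
      obtain ⟨w, hw⟩ := exists_of_loc hf (K := K) (x := z)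
        (by rw [hz]; exact loc_mul ((hd i).1 hi).2 ((hd' j).1 hj).2)
      exact (mem_one_iff _).2 ⟨w, by rw [IsScalarTower.algebraMap_apply O A K, hw, hz]⟩
    · rw [FractionalIdeal.one_le]
      obtain ⟨t, ht, ht2⟩ := exists_one_mem hB.2
      obtain ⟨t', ht', ht2'⟩ := exists_one_mem (a := B⁻¹) (m := f) (by rw [inv_inv]; exact hB.1)
      have hy := one_mul_mem ht ht'
      set y := t * t' - 1 with hy_def
      have h1 : algebraMap A K t * algebraMap A K t' ∈ d * d' :=
        mul_mem_mul ((hd _).2 ⟨ht2, halg t ht⟩) ((hd' _).2 ⟨ht2', halg t' ht'⟩)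
      have h2 : ∀ z ∈ (B : FractionalIdeal A⁰ K) * ((B⁻¹ : (FractionalIdeal A⁰ K)ˣ) : _),
          algebraMap A K y * algebraMap A K y * z ∈ d * d' := by
        intro z hz
        refine FractionalIdeal.mul_induction_on hz (fun i hi j hj => ?_) ?_
        · have : algebraMap A K y * algebraMap A K y * (i * j) =
              (algebraMap A K y * i) * (algebraMap A K y * j) := by ring
          rw [this]
          exact mul_mem_mul ((hd _).2 ⟨alg_mul_mem _ hi, f_mul_loc hf hy (hB.1 i hi)⟩)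
            ((hd' _).2 ⟨alg_mul_mem _ hj, f_mul_loc hf hy (hB.2 j hj)⟩)
        · intro x z hx hz
          rw [mul_add]; exact add_mem' hx hz
      obtain ⟨w, hw⟩ := hf _ hy
      have h3 := add_mem' (alg_mul_mem (1 - w) h1) (h2 1 (one_mem_mul_inv B))
      have e : algebraMap O K (1 - w) * (algebraMap A K t * algebraMap A K t') +
          algebraMap A K y * algebraMap A K y * 1 = 1 := by
        rw [IsScalarTower.algebraMap_apply O A K, map_sub, hw, hy_def]
        simp only [map_sub, map_one, map_mul]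
        ring
      rwa [e] at h3
  let u : (FractionalIdeal O⁰ K)ˣ := ⟨d, d', hmul, by rw [mul_comm, hmul]⟩
  have hle : ∀ (v : (FractionalIdeal O⁰ K)ˣ) (C : (FractionalIdeal A⁰ K)ˣ),
      (∀ x ∈ (v : FractionalIdeal O⁰ K), x ∈ (C : FractionalIdeal A⁰ K)) →
      (ext A v : FractionalIdeal A⁰ K) ≤ C := fun v C h x hx =>
    ext_induction (P := fun x => x ∈ (C : FractionalIdeal A⁰ K))
      (fun x hx r => alg_mul_mem r (h x hx)) (zero_mem _) (fun _ _ => add_mem') hx
  refine ⟨u, ⟨fun x hx => ((hd x).1 hx).2, fun x hx => ((hd' x).1 hx).2⟩, ?_, hd⟩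
  have e1 := hle u B fun x hx => ((hd x).1 hx).1
  have e2 := hle u⁻¹ B⁻¹ fun x hx => ((hd' x).1 hx).1
  ext1
  refine le_antisymm e1 ?_
  calc (B : FractionalIdeal A⁰ K) = B * (ext A u * ext A u⁻¹) := by
        rw [← Units.val_mul, ← map_mul, mul_inv_cancel, map_one, Units.val_one, mul_one]
    _ ≤ B * (ext A u * ((B⁻¹ : (FractionalIdeal A⁰ K)ˣ) : _)) :=
        mul_le_mul_right (mul_le_mul_right e2 _) _
    _ = ext A u := by
        rw [mul_left_comm, ← Units.val_mul, mul_inv_cancel, Units.val_one, mul_one]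

end Pool.Agent.Lib.MP_6bf7a3_nt
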