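import Pool.Agent.Lib.MP_6bf7a3_nt.Norm

open NumberField FractionalIdeal
open scoped nonZeroDivisors

namespace Pool.Agent.Lib.MP_6bf7a3_nt

theorem exists_transversal {X ι : Type} [Finite ι] (S : Set X) (r : X → X → Prop)
    (hrefl : ∀ x ∈ S, r x x) (hsymm : ∀ x y, r x y → r y x) (htrans : ∀ x y z, r x y → r y z → r x z)
    (key : X → ι → Prop) (h1 : ∀ x ∈ S, ∃ i, key x i)
    (h2 : ∀ x ∈ S, ∀ y ∈ S, ∀ i, key x i → key y i → r x y) :
    ∃ T : Finset X, (∀ t ∈ T, t ∈ S) ∧ (∀ t ∈ T, ∀ t' ∈ T, r t t' → t = t') ∧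
      ∀ x ∈ S, ∃ t ∈ T, r x t := by
  classical
  let st : Setoid S := ⟨fun x y => r x y, ⟨fun x => hrefl x x.2, fun h => hsymm _ _ h,
    fun h h' => htrans _ _ _ h h'⟩⟩
  have hfin : Finite (Quotient st) := by
    let g : {i : ι // ∃ x ∈ S, key x i} → Quotient st := fun i =>
      Quotient.mk st ⟨i.2.choose, i.2.choose_spec.1⟩
    refine Finite.of_surjective g fun q => ?_
    obtain ⟨x, rfl⟩ := Quotient.exists_rep q
    obtain ⟨i, hi⟩ := h1 x x.2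
    have hex : ∃ x ∈ S, key x i := ⟨x, x.2, hi⟩
    exact ⟨⟨i, hex⟩, Quotient.sound (h2 _ hex.choose_spec.1 _ x.2 i hex.choose_spec.2 hi)⟩
  have := Fintype.ofFinite (Quotient st)
  refine ⟨Finset.univ.image fun q : Quotient st => (q.out : X), ?_, ?_, ?_⟩
  · intro t ht
    obtain ⟨q, -, rfl⟩ := Finset.mem_image.1 ht
    exact q.out.2
  · intro t ht t' ht' h
    obtain ⟨q, -, rfl⟩ := Finset.mem_image.1 ht
    obtain ⟨q', -, rfl⟩ := Finset.mem_image.1 ht'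
    have : Quotient.mk st q.out = Quotient.mk st q'.out := Quotient.sound h
    rw [Quotient.out_eq, Quotient.out_eq] at this
    rw [this]
  · intro x hx
    refine ⟨_, Finset.mem_image.2 ⟨Quotient.mk st ⟨x, hx⟩, Finset.mem_univ _, rfl⟩, ?_⟩
    exact hsymm _ _ (Quotient.mk_out (s := st) ⟨x, hx⟩)

theorem finite_ideals_ge {O : Type} [CommRing O] [Ring.HasFiniteQuotients O] {n : Ideal O}
    (hn : n ≠ ⊥) : {p : Ideal O | n ≤ p}.Finite := by
  obtain ⟨x, hx, hx0⟩ := Submodule.exists_mem_ne_zero_of_ne_bot hn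
  exact (Ring.HasFiniteQuotients.finite_setOfPred_mem x hx0).subset fun p hp => hp hx

variable {K : Type} [Field K] {O : Type} [CommRing O] [Algebra O K] [IsFractionRing O K]
  {A : Type} [CommRing A] [IsDomain A] [Algebra A K] [IsFractionRing A K] [Algebra O A]
  [IsScalarTower O A K]

/-- Standing hypotheses on the two moduli. -/
structure Setup (m : Ideal O) (f : Ideal A) : Prop where
  hfm : ∀ x ∈ f, ∃ z ∈ m, algebraMap O A z = x
  hf0 : f ≠ ⊥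
  hm1 : m ≠ ⊤
  inj : Function.Injective (algebraMap O A)
  finO : Ring.HasFiniteQuotients O
  finA : Ring.HasFiniteQuotients A

namespace Setup

variable {m : Ideal O} {f : Ideal A} (S : Setup m f)
include S

omit [IsDomain A] in
theorem hf : ∀ x ∈ f, ∃ z : O, algebraMap O A z = x := fun x hx =>
  let ⟨z, _, h⟩ := S.hfm x hx; ⟨z, h⟩

omit [IsDomain A] in
theorem le : f.comap (algebraMap O A) ≤ m := by
  intro x hx
  obtain ⟨z, hz, e⟩ := S.hfm _ hx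
  rwa [← S.inj e]

omit [IsDomain A] in
theorem n1 : f.comap (algebraMap O A) ≠ ⊤ := fun h => S.hm1 (top_le_iff.1 (h ▸ S.le))

omit [IsDomain A] in
theorem f1 : f ≠ ⊤ := fun h => S.n1 (by rw [h, Ideal.comap_top])

omit [IsDomain A] in
theorem n0 : f.comap (algebraMap O A) ≠ ⊥ := by
  obtain ⟨x, hx, hx0⟩ := Submodule.exists_mem_ne_zero_of_ne_bot S.hf0
  obtain ⟨z, rfl⟩ := S.hf x hx
  intro h
  have : z ∈ f.comap (algebraMap O A) := hx
  rw [h, Ideal.mem_bot] at this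
  exact hx0 (by rw [this, map_zero])

omit [IsDomain A] in
theorem m0 : m ≠ ⊥ := fun h => S.n0 (le_bot_iff.1 (h ▸ S.le))

omit [IsDomain A] in
theorem nfin : {p : Ideal O | f.comap (algebraMap O A) ≤ p}.Finite :=
  have := S.finO; finite_ideals_ge S.n0

omit [IsDomain A] in
theorem mfin : {p : Ideal O | m ≤ p}.Finite := have := S.finO; finite_ideals_ge S.m0

omit [IsDomain A] in
theorem ffin : {p : Ideal A | f ≤ p}.Finite := have := S.finA; finite_ideals_ge S.hf0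

omit [IsDomain A] in
theorem finq : Finite (A ⧸ f) := have := S.finA; Ring.HasFiniteQuotients.finiteQuotient S.hf0

omit [IsDomain A] in
theorem finn : Finite (O ⧸ f.comap (algebraMap O A)) :=
  have := S.finO; Ring.HasFiniteQuotients.finiteQuotient S.n0

omit [IsDomain A] [IsFractionRing O K] [IsFractionRing A K] in
theorem loc_fm {x : K} (h : x ∈ loc K f f) : x ∈ loc K m m :=
  loc_mono S.le S.le (loc_self_con S.hf h)

theorem finite_ker : {d : (FractionalIdeal O⁰ K)ˣ | ext A d = 1}.Finite := by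
  have := S.finq
  let g : (FractionalIdeal O⁰ K)ˣ → Set (A ⧸ f) := fun d =>
    {x | ∃ y : A, Ideal.Quotient.mk f y = x ∧ algebraMap A K y ∈ (d : FractionalIdeal O⁰ K)}
  refine Set.Finite.of_finite_image (f := g) (Set.toFinite _) ?_
  have key : ∀ d d' : (FractionalIdeal O⁰ K)ˣ, ext A d = 1 → ext A d' = 1 → g d = g d' →
      (d : FractionalIdeal O⁰ K) ≤ d' := by
    intro d d' hd hd' hg x hx
    have h1 : x ∈ (ext A d : FractionalIdeal A⁰ K) := mem_ext_of_mem hx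
    rw [hd] at h1
    obtain ⟨y, rfl⟩ := (mem_one_iff A⁰).1 h1
    have h2 : Ideal.Quotient.mk f y ∈ g d := ⟨y, rfl, hx⟩
    rw [hg] at h2
    obtain ⟨y', e, hy'⟩ := h2
    rw [Ideal.Quotient.eq] at e
    have h3 : (1 : K) ∈ (ext A d' : FractionalIdeal A⁰ K) := by rw [hd']; exact one_mem_one _
    have h4 := ext_induction
      (P := fun x => algebraMap A K (y' - y) * x ∈ (d' : FractionalIdeal O⁰ K))
      (fun x hx r => by
        obtain ⟨z, hz⟩ := S.hf _ (f.mul_mem_right r e)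
        rw [← mul_assoc, ← map_mul, ← hz, ← IsScalarTower.algebraMap_apply]
        exact alg_mul_mem _ hx)
      (by rw [mul_zero]; exact zero_mem _)
      (fun x y hx hy => by rw [mul_add]; exact add_mem' hx hy) h3
    have := sub_mem' hy' h4
    simpa using this
  intro d hd d' hd' hg
  ext1
  exact le_antisymm (key d d' hd hd' hg) (key d' d hd' hd hg.symm)

end Setup

variable (σ₂ : K →+* ℝ)

/-- The fibre of extension over `B` inside the class of `a`. -/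
def fib (m : Ideal O) (f : Ideal A) (a : (FractionalIdeal O⁰ K)ˣ) (B : (FractionalIdeal A⁰ K)ˣ) :
    Set (FractionalIdeal O⁰ K)ˣ :=
  {b | MRel σ₂ m b a ∧ Flat (f.comap (algebraMap O A)) b ∧ ext A b = B}

/-- `T` is a system of representatives of the classes met by the class of `a`. -/
def Dec (m : Ideal O) (f : Ideal A) (a : (FractionalIdeal O⁰ K)ˣ)
    (T : Finset (FractionalIdeal A⁰ K)ˣ) : Prop :=
  (∀ B ∈ T, Flat f B) ∧ (∀ B ∈ T, ∀ B' ∈ T, MRel σ₂ f B B' → B = B') ∧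
    ∀ B', (fib σ₂ m f a B').Nonempty → ∃ B ∈ T, MRel σ₂ f B' B

variable {σ₂}

namespace Setup

variable {m : Ideal O} {f : Ideal A} (S : Setup m f)
include S

theorem fib_finite (a : (FractionalIdeal O⁰ K)ˣ) (B : (FractionalIdeal A⁰ K)ˣ) :
    (fib σ₂ m f a B).Finite := by
  rcases (fib σ₂ m f a B).eq_empty_or_nonempty with h | ⟨b₀, hb₀⟩
  · rw [h]; exact Set.finite_empty
  · refine ((S.finite_ker (K := K)).image (· * b₀)).subset fun b hb => ⟨b * b₀⁻¹, ?_, by simp⟩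
    show ext A (b * b₀⁻¹) = 1
    rw [map_mul, map_inv, hb.2.2, hb₀.2.2, mul_inv_cancel]

theorem mem_fib_mul {a b d : (FractionalIdeal O⁰ K)ˣ} {B : (FractionalIdeal A⁰ K)ˣ}
    (hd : Cp (f.comap (algebraMap O A)) d) (hb : b ∈ fib σ₂ m f a B) :
    b * d ∈ fib σ₂ m f (a * d) (B * ext A d) :=
  ⟨hb.1.mul_right (hd.1.mono S.le), hb.2.1.mul hd.1, by rw [map_mul, hb.2.2]⟩

theorem fib_mul {a d : (FractionalIdeal O⁰ K)ˣ} {B : (FractionalIdeal A⁰ K)ˣ}
    (hd : Cp (f.comap (algebraMap O A)) d) :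
    fib σ₂ m f (a * d) (B * ext A d) = (· * d) '' fib σ₂ m f a B := by
  ext b
  constructor
  · intro hb
    refine ⟨b * d⁻¹, ?_, by simp⟩
    simpa using S.mem_fib_mul hd.inv hb
  · rintro ⟨b, hb, rfl⟩
    exact S.mem_fib_mul hd hb

theorem ncard_fib_mul {a d : (FractionalIdeal O⁰ K)ˣ} {B : (FractionalIdeal A⁰ K)ˣ}
    (hd : Cp (f.comap (algebraMap O A)) d) :
    (fib σ₂ m f (a * d) (B * ext A d)).ncard = (fib σ₂ m f a B).ncard := by
  rw [S.fib_mul hd, Set.ncard_image_of_injective _ (mul_left_injective d)]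

theorem fib_struct {c b : (FractionalIdeal O⁰ K)ˣ} {α : Kˣ} {B : (FractionalIdeal A⁰ K)ˣ}
    (hc : Cp (f.comap (algebraMap O A)) c) (hb : b ∈ fib σ₂ m f (pr O α * c) B) :
    ∃ δ : Kˣ, b = pr O δ * c ∧ B = pr A δ * ext A c ∧ (δ : K) - α ∈ loc K m m ∧
      SignType.sign (σ₂ δ) = SignType.sign (σ₂ α) ∧
      (δ : K) ∈ loc K (f.comap (algebraMap O A)) ⊤ := by
  have hα := loc_of_flat_pr_mul (hc.2.mono S.le) hb.1.flat_right
  obtain ⟨δ, rfl, h1, h2⟩ := (mrel_iff (hc.mono S.le) hα).1 hb.1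
  exact ⟨δ, rfl, by rw [← hb.2.2, map_mul, ext_pr], h1, h2, loc_of_flat_pr_mul hc.2 hb.2.1⟩

theorem ncard_fib_le {a : (FractionalIdeal O⁰ K)ˣ} {B B' : (FractionalIdeal A⁰ K)ˣ}
    (h : MRel σ₂ f B B') : (fib σ₂ m f a B).ncard ≤ (fib σ₂ m f a B').ncard := by
  rcases (fib σ₂ m f a B).eq_empty_or_nonempty with h0 | ⟨b₀, hb₀⟩
  · rw [h0]; simp
  obtain ⟨α, c, C, hC, e, rfl⟩ := exists_decomp a S.n1 S.nfin
  have hc := cp_of_coe e hC
  have hα := loc_of_flat_pr_mul (hc.2.mono S.le) hb₀.1.flat_right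
  obtain ⟨δ, -, rfl, -, -, hδ⟩ := S.fib_struct hc hb₀
  obtain ⟨δ', rfl, h1, h2⟩ := (mrel_iff hc.ext (loc_top_ext hδ)).1 h.symm
  refine Set.ncard_le_ncard_of_injOn (fun b => pr O (δ' * δ⁻¹) * b) ?_
    (mul_right_injective _).injOn (S.fib_finite _ _)
  intro b hb
  obtain ⟨δ₁, rfl, e1, h3, h4, h5⟩ := S.fib_struct hc hb
  have e2 : pr A (δ₁ * δ⁻¹) = 1 := by
    rw [map_mul, map_inv, ← mul_right_cancel e1, mul_inv_cancel]
  have hv : ((δ₁ * δ⁻¹ : Kˣ) : K) ∈ loc K f ⊤ := flat_pr.1 (by rw [e2]; exact flat_one)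
  have e3 : pr O (δ' * δ⁻¹) * (pr O δ₁ * c) = pr O (δ' * (δ₁ * δ⁻¹)) * c := by
    rw [← mul_assoc, ← map_mul]; congr 2; ac_rfl
  have h6 : ((δ' * (δ₁ * δ⁻¹) : Kˣ) : K) - δ₁ ∈ loc K f f := by
    have : ((δ' * (δ₁ * δ⁻¹) : Kˣ) : K) - δ₁ = ((δ' : K) - δ) * ((δ₁ * δ⁻¹ : Kˣ) : K) := by
      simp only [Units.val_mul, Units.val_inv_eq_inv_val]; field_simp
    rw [this]; exact loc_mul' h1 hv
  refine ⟨?_, ?_, ?_⟩
  · rw [e3]
    refine (mrel_iff (hc.mono S.le) hα).2 ⟨_, rfl, ?_, ?_⟩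
    · simpa using loc_add (S.loc_fm h6) h3
    · rw [sign_mul_congr h2, ← h4]; congr 3; rw [mul_comm δ₁, mul_inv_cancel_left]
  · rw [e3]
    refine (flat_pr.2 ?_).mul hc.1
    simpa using loc_add (loc_top (loc_self_con S.hf h6)) h5
  · rw [map_mul, hb.2.2, ext_pr, ← mul_assoc, ← map_mul]; simp

theorem ncard_fib_rel {a : (FractionalIdeal O⁰ K)ˣ} {B B' : (FractionalIdeal A⁰ K)ˣ}
    (h : MRel σ₂ f B B') : (fib σ₂ m f a B).ncard = (fib σ₂ m f a B').ncard :=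
  le_antisymm (S.ncard_fib_le h) (S.ncard_fib_le h.symm)

theorem exists_dec (a : (FractionalIdeal O⁰ K)ˣ) : ∃ T, Dec σ₂ m f a T := by
  have := S.finq
  obtain ⟨α, c, C, hC, e, rfl⟩ := exists_decomp a S.n1 S.nfin
  have hc := cp_of_coe e hC
  suffices h : ∃ T : Finset (FractionalIdeal A⁰ K)ˣ,
      (∀ t ∈ T, t ∈ {B | (fib σ₂ m f (pr O α * c) B).Nonempty}) ∧
      (∀ t ∈ T, ∀ t' ∈ T, MRel σ₂ f t t' → t = t') ∧
      ∀ x ∈ {B | (fib σ₂ m f (pr O α * c) B).Nonempty}, ∃ t ∈ T, MRel σ₂ f x t by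
    obtain ⟨T, h1, h2, h3⟩ := h
    exact ⟨T, fun B hB => let ⟨b, hb⟩ := h1 B hB; hb.2.2 ▸ hb.2.1.ext, h2, h3⟩
  refine exists_transversal (ι := (A ⧸ f) × SignType)
    {B | (fib σ₂ m f (pr O α * c) B).Nonempty} (MRel σ₂ f)
    (fun B ⟨b, hb⟩ => MRel.refl (hb.2.2 ▸ hb.2.1.ext)) (fun _ _ => MRel.symm)
    (fun _ _ _ => MRel.trans S.f1 S.ffin)
    (fun B i => ∃ (δ : Kˣ) (y : A), B = pr A δ * ext A c ∧ Ideal.Quotient.mk f y = i.1 ∧
      (δ : K) - algebraMap A K y ∈ loc K f f ∧ SignType.sign (σ₂ δ) = i.2) ?_ ?_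
  · rintro B ⟨b, hb⟩
    obtain ⟨δ, -, rfl, -, -, hδ⟩ := S.fib_struct hc hb
    obtain ⟨s, hs, y, -, e⟩ := mem_loc.1 (loc_top_ext hδ)
    refine ⟨(Ideal.Quotient.mk f y, SignType.sign (σ₂ δ)), δ, y, rfl, rfl, ?_, rfl⟩
    have : (δ : K) - algebraMap A K y = algebraMap A K (1 - s) * δ := by
      rw [← e, map_sub, map_one]; ring
    rw [this]
    exact loc_mul' (loc_alg (by rw [← neg_sub]; exact f.neg_mem hs)) (loc_top_ext hδ)
  · rintro B - B' - i ⟨δ, y, rfl, h1, h2, h3⟩ ⟨δ', y', rfl, h1', h2', h3'⟩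
    have hδ' : (δ' : K) ∈ loc K f ⊤ := by
      simpa using loc_add (loc_top h2') (loc_alg_top y')
    refine (mrel_iff hc.ext hδ').2 ⟨δ, rfl, ?_, h3.trans h3'.symm⟩
    have h4 : algebraMap A K (y - y') ∈ loc K f f :=
      loc_alg (Ideal.Quotient.eq.1 (h1.trans h1'.symm))
    have := loc_add (loc_sub h2 h2') h4
    convert this using 1
    rw [map_sub]; ring

theorem dec_mul {a d : (FractionalIdeal O⁰ K)ˣ} {T : Finset (FractionalIdeal A⁰ K)ˣ}
    (hT : Dec σ₂ m f a T) (hd : Cp (f.comap (algebraMap O A)) d) :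
    Dec σ₂ m f (a * d) (T.map (mulRightEmbedding (ext A d))) := by
  obtain ⟨h1, h2, h3⟩ := hT
  refine ⟨?_, ?_, ?_⟩
  · intro B₀ hB₀
    obtain ⟨B, hB, rfl⟩ := Finset.mem_map.1 hB₀
    exact (h1 B hB).mul hd.ext.1
  · intro B₀ hB₀ B₁ hB₁ h
    obtain ⟨B, hB, rfl⟩ := Finset.mem_map.1 hB₀
    obtain ⟨B', hB', rfl⟩ := Finset.mem_map.1 hB₁
    rw [h2 B hB B' hB' ((mrel_mul_iff hd.ext).1 h)]
  · rintro B' ⟨b, hb⟩
    have := S.mem_fib_mul hd.inv hb
    rw [mul_inv_cancel_right] at this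
    obtain ⟨B, hB, h⟩ := h3 _ ⟨_, this⟩
    refine ⟨B * ext A d, Finset.mem_map.2 ⟨B, hB, rfl⟩, ?_⟩
    simpa using h.mul_right hd.ext.1

end Setup

end Pool.Agent.Lib.MP_6bf7a3_nt
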