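import Mathlib

open NumberField
open scoped nonZeroDivisors

namespace Pool.Agent.Lib.MP_6bf7a3_nt

section Tower

variable {K E L : Type} [Field K] [Field E] [Field L] [NumberField K] [NumberField E]
  [NumberField L] [Algebra K E] [Algebra K L] [Algebra E L] [IsScalarTower K E L]

theorem unram_down {p : Ideal (𝓞 K)} (h : Algebra.IsUnramifiedIn (𝓞 L) p) :
    Algebra.IsUnramifiedIn (𝓞 E) p := by
  intro P hP hPp
  obtain ⟨⟨Q, hQ, hQP⟩⟩ := P.nonempty_primesOver (S := 𝓞 L)
  have : Q.LiesOver p := Ideal.LiesOver.trans Q P p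
  have := h Q hQ this
  exact Algebra.IsUnramifiedAt.of_liesOver (𝓞 K) P Q

omit [NumberField K] [NumberField E] [NumberField L] in
theorem restrict_smul [Normal K E] (g : L ≃ₐ[K] L) (x : 𝓞 E) :
    algebraMap (𝓞 E) (𝓞 L) (AlgEquiv.restrictNormalHom E g • x) =
      g • algebraMap (𝓞 E) (𝓞 L) x := by
  apply RingOfIntegers.ext
  exact g.restrictNormal_commutes E x

omit [NumberField K] [NumberField E] [NumberField L] in
theorem frob_down [Normal K E] {p : Ideal (𝓞 K)} {g : L ≃ₐ[K] L} {q : ℕ}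
    (h : ∀ P ∈ p.primesOver (𝓞 L), ∀ x : 𝓞 L, g • x - x ^ q ∈ P) :
    ∀ P ∈ p.primesOver (𝓞 E), ∀ x : 𝓞 E, AlgEquiv.restrictNormalHom E g • x - x ^ q ∈ P := by
  rintro P ⟨hP, hPp⟩ x
  obtain ⟨⟨Q, hQ, hQP⟩⟩ := P.nonempty_primesOver (S := 𝓞 L)
  have : Q.LiesOver p := Ideal.LiesOver.trans Q P p
  have h2 := h Q ⟨hQ, this⟩ (algebraMap _ _ x)
  rw [hQP.over, Ideal.under_def, Ideal.mem_comap, map_sub, map_pow, restrict_smul]
  exact h2

end Tower

theorem card_le_of_pow {F : Type} [Field F] [Finite F] {q : ℕ} (hq : 1 < q)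
    (h : ∀ x : F, x ^ q = x) : Nat.card F ≤ q := by
  classical
  have := Fintype.ofFinite F
  have h1 := Polynomial.card_le_degree_of_subset_roots
    (p := (Polynomial.X ^ q - Polynomial.X : Polynomial F)) (Z := Finset.univ) (by
      intro x _
      rw [Polynomial.mem_roots (FiniteField.X_pow_card_sub_X_ne_zero F hq)]
      simp [h x])
  rwa [FiniteField.X_pow_card_sub_X_natDegree_eq F hq, Finset.card_univ,
    ← Nat.card_eq_fintype_card] at h1

theorem split_iff {K E : Type} [Field K] [Field E] [NumberField K] [NumberField E] [Algebra K E]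
    [IsGalois K E] {p : Ideal (𝓞 K)} (hp : p.IsMaximal) (hu : Algebra.IsUnramifiedIn (𝓞 E) p)
    {g : E ≃ₐ[K] E}
    (h : ∀ P ∈ p.primesOver (𝓞 E), ∀ x : 𝓞 E, g • x - x ^ Nat.card (𝓞 K ⧸ p) ∈ P) :
    (p.primesOver (𝓞 E)).ncard = Module.finrank K E ↔ g = 1 := by
  obtain ⟨⟨P, hP, hPp⟩⟩ := p.nonempty_primesOver (S := 𝓞 E)
  have hPm : P.IsMaximal := Ideal.IsMaximal.of_liesOver_isMaximal P p
  have h1 := Ideal.ncard_primesOver_mul_card_inertia_mul_finrank (G := E ≃ₐ[K] E) p P
  have h2 : Nat.card (P.inertia (E ≃ₐ[K] E)) = 1 := by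
    rw [Ideal.card_inertia_eq_ramificationIdxIn p P,
      Ideal.ramificationIdxIn_eq_ramificationIdx p P (E ≃ₐ[K] E)]
    exact hu.ramificationIdx_eq_one hPp
  rw [h2, mul_one, IsGalois.card_aut_eq_finrank] at h1
  have h3 := Ideal.cardQuot_pow_inertiaDeg p P
  rw [Submodule.cardQuot_apply, Submodule.cardQuot_apply] at h3
  have hp0 : p ≠ ⊥ := Ring.ne_bot_of_isMaximal_of_not_isField hp (RingOfIntegers.not_isField K)
  have hP0 : P ≠ ⊥ := Ring.ne_bot_of_isMaximal_of_not_isField hPm (RingOfIntegers.not_isField E)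
  have : Finite (𝓞 K ⧸ p) := Ring.HasFiniteQuotients.finiteQuotient hp0
  have : Finite (𝓞 E ⧸ P) := Ring.HasFiniteQuotients.finiteQuotient hP0
  have : Nontrivial (𝓞 K ⧸ p) := Ideal.Quotient.nontrivial_iff.2 hp.ne_top
  have hq : 1 < Nat.card (𝓞 K ⧸ p) := Finite.one_lt_card
  let : Field (𝓞 E ⧸ P) := Ideal.Quotient.field P
  have hpos : 0 < Module.finrank K E := Module.finrank_pos
  have hf := Ideal.inertiaDeg_pos (R := 𝓞 K) P
  constructor
  · intro hn
    rw [hn] at h1
    have hf1 : P.inertiaDeg (𝓞 K) = 1 := by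
      have := mul_left_cancel₀ hpos.ne' (h1.trans (mul_one _).symm)
      exact this
    rw [hf1, pow_one] at h3
    have : g ∈ P.inertia (E ≃ₐ[K] E) := by
      intro x
      have h4 := h P ⟨hP, hPp⟩ x
      have h5 : x ^ Nat.card (𝓞 K ⧸ p) - x ∈ P := by
        have := Fintype.ofFinite (𝓞 E ⧸ P)
        rw [← Ideal.Quotient.eq, map_pow, h3, Nat.card_eq_fintype_card, FiniteField.pow_card]
      simpa using P.add_mem h4 h5
    rwa [Subgroup.eq_bot_of_card_eq _ h2, Subgroup.mem_bot] at this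
  · rintro rfl
    have h4 : Nat.card (𝓞 E ⧸ P) ≤ Nat.card (𝓞 K ⧸ p) := by
      refine card_le_of_pow hq fun x => ?_
      obtain ⟨x, rfl⟩ := Ideal.Quotient.mk_surjective x
      have := h P ⟨hP, hPp⟩ x
      rw [one_smul, ← Ideal.Quotient.eq, map_pow] at this
      exact this.symm
    rw [← h3] at h4
    have h5 : P.inertiaDeg (𝓞 K) ≤ 1 := by
      rw [← Nat.pow_le_pow_iff_right hq, pow_one]; exact h4
    rw [le_antisymm h5 hf, mul_one] at h1
    exact h1

section Abelian

variable {K L : Type} [Field K] [Field L] [Algebra K L]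

theorem ab_mono {M N : IntermediateField K L} (h : M ≤ N) (hN : IsAbelianGalois K N) :
    IsAbelianGalois K M :=
  IsAbelianGalois.of_algHom (IntermediateField.inclusion h)

theorem comm_on {M N : IntermediateField K L} (h : M ≤ N) (hM : IsAbelianGalois K M)
    (g g' : N ≃ₐ[K] N) (x : N) (hx : (x : L) ∈ M) : g (g' x) = g' (g x) := by
  let := (IntermediateField.inclusion h).toRingHom.toAlgebra
  have : IsScalarTower K M N := IsScalarTower.of_algebraMap_eq fun _ => rfl
  have e : x = algebraMap M N ⟨x, hx⟩ := rfl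
  have h1 := hM.is_comm.comm (g.restrictNormal M) (g'.restrictNormal M)
  have h2 := congrArg (fun φ : M ≃ₐ[K] M => algebraMap M N (φ ⟨x, hx⟩)) h1
  simp only [AlgEquiv.mul_apply, AlgEquiv.restrictNormal_commutes] at h2
  exact h2

theorem ab_sup [CharZero K] {M N : IntermediateField K L} (hM : IsAbelianGalois K M)
    (hN : IsAbelianGalois K N) : IsAbelianGalois K ↥(M ⊔ N) := by
  have hnorm : Normal K ↥(M ⊔ N) := IntermediateField.normal_sup K L M N
  have hgal : IsGalois K ↥(M ⊔ N) := {}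
  refine { is_comm := ⟨fun g g' => ?_⟩ }
  ext ⟨x, hx⟩
  congr 1
  rw [AlgEquiv.mul_apply, AlgEquiv.mul_apply]
  have key : ∀ (x : L) (hx : x ∈ IntermediateField.adjoin K ((M : Set L) ∪ N))
      (hx' : x ∈ M ⊔ N), g (g' ⟨x, hx'⟩) = g' (g ⟨x, hx'⟩) := by
    have hadj : ∀ {x : L}, x ∈ IntermediateField.adjoin K ((M : Set L) ∪ N) → x ∈ M ⊔ N := by
      intro x hx; rwa [IntermediateField.sup_def]
    intro x hx
    induction hx using IntermediateField.adjoin_induction with
    | mem x hx =>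
      intro hx'
      rcases hx with hx | hx
      · exact comm_on le_sup_left hM g g' _ hx
      · exact comm_on le_sup_right hN g g' _ hx
    | algebraMap x =>
      intro hx'
      have : (⟨algebraMap K L x, hx'⟩ : ↥(M ⊔ N)) = algebraMap K _ x := rfl
      simp only [this, AlgEquiv.commutes]
    | add x y hx hy ihx ihy =>
      intro hx'
      have : (⟨x + y, hx'⟩ : ↥(M ⊔ N)) = ⟨x, hadj hx⟩ + ⟨y, hadj hy⟩ := rfl
      simp only [this, map_add, ihx, ihy]
    | inv x hx ihx =>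
      intro hx'
      have : (⟨x⁻¹, hx'⟩ : ↥(M ⊔ N)) = (⟨x, hadj hx⟩ : ↥(M ⊔ N))⁻¹ := rfl
      simp only [this, map_inv₀, ihx]
    | mul x y hx hy ihx ihy =>
      intro hx'
      have : (⟨x * y, hx'⟩ : ↥(M ⊔ N)) = ⟨x, hadj hx⟩ * ⟨y, hadj hy⟩ := rfl
      simp only [this, map_mul, ihx, ihy]
  exact key x (by rwa [← IntermediateField.sup_def]) hx

theorem exists_ab_of_finset [CharZero K] {ι : Type} (T : Finset ι) (M : IntermediateField K L)
    (hM : IsAbelianGalois K M) (x : ι → L)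
    (h : ∀ i ∈ T, IsAbelianGalois K ↥(M ⊔ IntermediateField.adjoin K {x i})) :
    ∃ N : IntermediateField K L, IsAbelianGalois K N ∧ M ≤ N ∧ ∀ i ∈ T, x i ∈ N := by
  classical
  induction T using Finset.induction_on with
  | empty => exact ⟨M, hM, le_rfl, by simp⟩
  | insert i T _ ih =>
    obtain ⟨N, h1, h2, h3⟩ := ih fun j hj => h j (Finset.mem_insert_of_mem hj)
    refine ⟨N ⊔ (M ⊔ IntermediateField.adjoin K {x i}),
      ab_sup h1 (h i (Finset.mem_insert_self _ _)), h2.trans le_sup_left, fun j hj => ?_⟩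
    rcases Finset.mem_insert.1 hj with rfl | hj
    · exact (le_sup_right.trans le_sup_right : IntermediateField.adjoin K {x j} ≤ _)
        (IntermediateField.mem_adjoin_simple_self K _)
    · exact (le_sup_left : N ≤ _) (h3 j hj)

end Abelian

end Pool.Agent.Lib.MP_6bf7a3_nt
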