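import Pool.Agent.Lib.MP_6bf7a3_nt.Subfield
import Pool.Agent.Lib.helper22.PIT

open NumberField Filter Topology Ideal
open scoped nonZeroDivisors

namespace Pool.Agent.Lib.MP_6bf7a3_nt

open Pool.Agent.Lib.helper22.PIT

variable {K E : Type} [Field K] [Field E] [NumberField K] [NumberField E] [Algebra K E]

variable (K E) in
theorem finite_ramified : {p : Ideal (𝓞 K) | ¬ Algebra.IsUnramifiedIn (𝓞 E) p}.Finite := by
  have h0 : differentIdeal (𝓞 K) (𝓞 E) ≠ ⊥ := differentIdeal_ne_bot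
  obtain ⟨x, hx, hx0⟩ := Submodule.exists_mem_ne_zero_of_ne_bot h0
  refine ((Ring.HasFiniteQuotients.finite_setOfPred_mem x hx0).image
    (fun P : Ideal (𝓞 E) => P.under (𝓞 K))).subset fun p hp => ?_
  by_contra h
  refine hp fun P hP hPp => ?_
  rw [← not_dvd_differentIdeal_iff]
  exact fun hd => h ⟨P, Ideal.le_of_dvd hd hx, hPp.over.symm⟩

theorem bauer_aux (B : Finset (Ideal (𝓞 K)))
    (h : ∀ p : Ideal (𝓞 K), p.IsMaximal → p ∉ B → ∃ P : Bool → Ideal (𝓞 E), P true ≠ P false ∧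
      ∀ i, (P i).IsPrime ∧ (P i).under (𝓞 K) = p ∧ absNorm (P i) = absNorm p) : False := by
  classical
  choose! P hP1 hP2 using h
  set c : ℝ := ∑ p ∈ B, Real.log (absNorm p) with hc
  have hc0 : 0 ≤ c := Finset.sum_nonneg fun _ _ => Real.log_natCast_nonneg _
  have h1 : ∀ d : ℕ, 2 * ∑ x ∈ (ppN K d).filter (fun x => x.1 ∉ B), Real.log (absNorm x.1) ≤
      LamK E d := by
    intro d
    have hm : ∀ x ∈ (ppN K d).filter (fun x => x.1 ∉ B), x.1.IsMaximal ∧ x.1 ∉ B := by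
      intro x hx
      rw [Finset.mem_filter, mem_ppN] at hx
      exact ⟨hx.1.1.isMaximal hx.1.2.1, hx.2⟩
    have e : 2 * ∑ x ∈ (ppN K d).filter (fun x => x.1 ∉ B), Real.log (absNorm x.1) =
        ∑ y ∈ ((ppN K d).filter (fun x => x.1 ∉ B)) ×ˢ (Finset.univ : Finset Bool),
          Real.log (absNorm (P y.1.1 y.2)) := by
      rw [Finset.sum_product, Finset.mul_sum]
      refine Finset.sum_congr rfl fun x hx => ?_
      simp only [(hP2 _ (hm x hx).1 (hm x hx).2 _).2.2, Finset.sum_const, Finset.card_univ,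
        Fintype.card_bool, nsmul_eq_mul, Nat.cast_ofNat]
    rw [e, LamK, ← Finset.sum_image (f := fun y : Ideal (𝓞 E) × ℕ => Real.log (absNorm y.1))
      (g := fun y : (Ideal (𝓞 K) × ℕ) × Bool => (P y.1.1 y.2, y.1.2))]
    · refine Finset.sum_le_sum_of_subset_of_nonneg ?_ fun _ _ _ => Real.log_natCast_nonneg _
      intro y hy
      obtain ⟨⟨x, i⟩, hx, rfl⟩ := Finset.mem_image.1 hy
      have hx1 := (Finset.mem_product.1 hx).1
      obtain ⟨g1, g2, g3⟩ := hP2 _ (hm x hx1).1 (hm x hx1).2 i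
      rw [Finset.mem_filter, mem_ppN] at hx1
      refine (mem_ppN E).2 ⟨g1, ?_, hx1.1.2.2.1, by rw [g3]; exact hx1.1.2.2.2⟩
      rw [Ne, ← absNorm_eq_zero_iff, g3, absNorm_eq_zero_iff]
      exact hx1.1.2.1
    · rintro ⟨⟨p, k⟩, i⟩ hx ⟨⟨p', k'⟩, i'⟩ hx' hxx
      have hx1 := hm _ (Finset.mem_product.1 hx).1
      have hx1' := hm _ (Finset.mem_product.1 hx').1
      obtain ⟨e1, e2⟩ := Prod.mk.inj hxx
      simp only at e1 e2 hx1 hx1'
      have e3 : p = p' := by rw [← (hP2 _ hx1.1 hx1.2 i).2.1, e1, (hP2 _ hx1'.1 hx1'.2 i').2.1]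
      subst e3 e2
      have := hP1 _ hx1.1 hx1.2
      cases i <;> cases i' <;> simp_all
  have h2 : ∀ n : ℕ, ∑ d ∈ Finset.Icc 1 n, ∑ x ∈ (ppN K d).filter (fun x => ¬ x.1 ∉ B),
      Real.log (absNorm x.1) ≤ c * Nat.log 2 n := by
    intro n
    rw [← Finset.sum_biUnion]
    · have e : c * Nat.log 2 n = ∑ x ∈ B ×ˢ Finset.Icc 1 (Nat.log 2 n), Real.log (absNorm x.1) := by
        rw [Finset.sum_product, hc, Finset.sum_mul]
        simp [mul_comm]
      rw [e]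
      refine Finset.sum_le_sum_of_subset_of_nonneg ?_ fun _ _ _ => Real.log_natCast_nonneg _
      intro x hx
      obtain ⟨d, hd, hx⟩ := Finset.mem_biUnion.1 hx
      rw [Finset.mem_filter, mem_ppN, not_not] at hx
      refine Finset.mem_product.2 ⟨hx.2, Finset.mem_Icc.2 ⟨hx.1.2.2.1, ?_⟩⟩
      refine Nat.le_log_of_pow_le one_lt_two (le_trans ?_ (Finset.mem_Icc.1 hd).2)
      rw [← hx.1.2.2.2]
      exact Nat.pow_le_pow_left (two_le_absNorm hx.1.1 hx.1.2.1) _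
    · intro d _ d' _ hdd
      refine Finset.disjoint_left.2 fun x hx hx' => hdd ?_
      rw [Finset.mem_filter, mem_ppN] at hx hx'
      rw [← hx.1.2.2.2, hx'.1.2.2.2]
  have key : ∀ n : ℕ, 2 * ((∑ k ∈ Finset.Icc 1 n, LamK K k) / n) ≤
      (∑ k ∈ Finset.Icc 1 n, LamK E k) / n + 2 * c / Real.log 2 * (Real.log n / n) := by
    intro n
    have h3 : (Nat.log 2 n : ℝ) ≤ Real.log n / Real.log 2 := by
      simpa [Real.logb] using Real.natLog_le_logb n 2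
    have h4 : ∑ k ∈ Finset.Icc 1 n, LamK K k = ∑ k ∈ Finset.Icc 1 n,
        (∑ x ∈ (ppN K k).filter (fun x => x.1 ∉ B), Real.log (absNorm x.1) +
        ∑ x ∈ (ppN K k).filter (fun x => ¬ x.1 ∉ B), Real.log (absNorm x.1)) :=
      Finset.sum_congr rfl fun k _ => (Finset.sum_filter_add_sum_filter_not _ _ _).symm
    have h5 := Finset.sum_le_sum fun d (_ : d ∈ Finset.Icc 1 n) => h1 d
    rw [← Finset.mul_sum] at h5
    rw [← mul_div_assoc, ← mul_div_assoc, ← add_div]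
    refine div_le_div_of_nonneg_right ?_ (Nat.cast_nonneg _)
    rw [h4, Finset.sum_add_distrib]
    have h6 := (h2 n).trans (mul_le_mul_of_nonneg_left h3 hc0)
    have e : 2 * c / Real.log 2 * Real.log n = 2 * (c * (Real.log n / Real.log 2)) := by ring
    linarith
  have tK := (prime_ideal_theorem K).comp tendsto_natCast_atTop_atTop
  have tE := (prime_ideal_theorem E).comp tendsto_natCast_atTop_atTop
  have tL := (Real.isLittleO_log_id_atTop.tendsto_div_nhds_zero).comp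
    (tendsto_natCast_atTop_atTop (R := ℝ))
  simp only [Function.comp_def, Nat.floor_natCast, id] at tK tE tL
  have := le_of_tendsto_of_tendsto' (tK.const_mul 2) (tE.add (tL.const_mul _)) key
  norm_num at this

theorem absNorm_eq_of_pow {p : Ideal (𝓞 K)} (hp : p.IsMaximal) {P : Ideal (𝓞 E)}
    (hP : P ∈ p.primesOver (𝓞 E)) (h : ∀ x : 𝓞 E, x - x ^ Nat.card (𝓞 K ⧸ p) ∈ P) :
    absNorm P = absNorm p := by
  obtain ⟨hP, hPp⟩ := hP
  have hPm : P.IsMaximal := Ideal.IsMaximal.of_liesOver_isMaximal P p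
  have hp0 : p ≠ ⊥ := Ring.ne_bot_of_isMaximal_of_not_isField hp (RingOfIntegers.not_isField K)
  have hP0 : P ≠ ⊥ := Ring.ne_bot_of_isMaximal_of_not_isField hPm (RingOfIntegers.not_isField E)
  have : Finite (𝓞 E ⧸ P) := Ring.HasFiniteQuotients.finiteQuotient hP0
  have hq : 1 < absNorm p := two_le_absNorm hp.isPrime hp0
  let : Field (𝓞 E ⧸ P) := Ideal.Quotient.field P
  have h3 := Ideal.absNorm_pow_inertiaDeg p P
  have h4 : absNorm P ≤ absNorm p := by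
    refine card_le_of_pow (F := 𝓞 E ⧸ P) hq fun x => ?_
    obtain ⟨x, rfl⟩ := Ideal.Quotient.mk_surjective x
    have := h x
    rw [← Ideal.Quotient.eq, map_pow] at this
    exact this.symm
  refine le_antisymm h4 ?_
  rw [← h3]
  exact Nat.le_self_pow (Ideal.inertiaDeg_pos (R := 𝓞 K) P).ne' _

/-- If almost all Frobenius elements are trivial then the extension is trivial. -/
theorem bauer [IsGalois K E] {B : Set (Ideal (𝓞 K))} (hB : B.Finite)
    (h : ∀ p : Ideal (𝓞 K), p.IsMaximal → p ∉ B → ∀ P ∈ p.primesOver (𝓞 E), ∀ x : 𝓞 E,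
      x - x ^ Nat.card (𝓞 K ⧸ p) ∈ P) : Module.finrank K E = 1 := by
  by_contra hne
  have h2 : 1 < Module.finrank K E := lt_of_le_of_ne Module.finrank_pos (Ne.symm hne)
  refine bauer_aux (E := E) (hB.union (finite_ramified K E)).toFinset fun p hp hpB => ?_
  rw [Set.Finite.mem_toFinset, Set.mem_union, not_or, Set.mem_ofPred_eq, not_not] at hpB
  have h3 := (split_iff hp hpB.2 (g := 1) (by simpa using h p hp hpB.1)).2 rfl
  rw [← h3] at h2
  obtain ⟨P, hP, Q, hQ, hPQ⟩ := (Set.one_lt_ncard (Set.finite_of_ncard_pos (by omega))).1 h2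
  refine ⟨fun i => if i then P else Q, by simpa using hPQ, fun i => ?_⟩
  cases i
  · exact ⟨hQ.1, hQ.2.over.symm, absNorm_eq_of_pow hp hQ (h p hp hpB.1 Q hQ)⟩
  · exact ⟨hP.1, hP.2.over.symm, absNorm_eq_of_pow hp hP (h p hp hpB.1 P hP)⟩

variable (E) in
theorem exists_frob_all [IsAbelianGalois K E] {p : Ideal (𝓞 K)} (hp : p.IsMaximal) :
    ∃ g : E ≃ₐ[K] E, ∀ P ∈ p.primesOver (𝓞 E), ∀ x : 𝓞 E,
      g • x - x ^ Nat.card (𝓞 K ⧸ p) ∈ P := by
  obtain ⟨⟨P, hP, hPp⟩⟩ := p.nonempty_primesOver (S := 𝓞 E)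
  have hPm : P.IsMaximal := Ideal.IsMaximal.of_liesOver_isMaximal P p
  have hP0 : P ≠ ⊥ := Ring.ne_bot_of_isMaximal_of_not_isField hPm (RingOfIntegers.not_isField E)
  have : Finite (𝓞 E ⧸ P) := Ring.HasFiniteQuotients.finiteQuotient hP0
  obtain ⟨σ, h1, h2⟩ := IsArithFrobAt.exists_primesOver_isConj (𝓞 E) (E ≃ₐ[K] E) p
    ⟨⟨P, hP, hPp⟩, this⟩
  refine ⟨σ ⟨P, hP, hPp⟩, fun Q hQ x => ?_⟩
  obtain ⟨τ, hτ⟩ := isConj_iff.1 (h2 ⟨Q, hQ⟩ ⟨P, hP, hPp⟩)
  rw [(inferInstance : IsAbelianGalois K E).is_comm.comm τ, mul_inv_cancel_right] at hτ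
  have := h1 ⟨Q, hQ⟩ x
  rw [hτ, ← hQ.2.over] at this
  exact this

theorem inertia_eq_bot [IsGalois K E] {p : Ideal (𝓞 K)} (hp : p.IsMaximal)
    (hu : Algebra.IsUnramifiedIn (𝓞 E) p) {P : Ideal (𝓞 E)} (hP : P ∈ p.primesOver (𝓞 E))
    {g : E ≃ₐ[K] E} (hg : ∀ x : 𝓞 E, g • x - x ∈ P) : g = 1 := by
  obtain ⟨hP, hPp⟩ := hP
  have hPm : P.IsMaximal := Ideal.IsMaximal.of_liesOver_isMaximal P p
  have h2 : Nat.card (P.inertia (E ≃ₐ[K] E)) = 1 := by
    rw [Ideal.card_inertia_eq_ramificationIdxIn p P,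
      Ideal.ramificationIdxIn_eq_ramificationIdx p P (E ≃ₐ[K] E)]
    exact hu.ramificationIdx_eq_one hPp
  have : g ∈ P.inertia (E ≃ₐ[K] E) := hg
  rwa [Subgroup.eq_bot_of_card_eq _ h2, Subgroup.mem_bot] at this

theorem frob_unique [IsGalois K E] {p : Ideal (𝓞 K)} (hp : p.IsMaximal)
    (hu : Algebra.IsUnramifiedIn (𝓞 E) p) {g g' : E ≃ₐ[K] E} {q : ℕ}
    (h : ∀ P ∈ p.primesOver (𝓞 E), ∀ x : 𝓞 E, g • x - x ^ q ∈ P)
    (h' : ∀ P ∈ p.primesOver (𝓞 E), ∀ x : 𝓞 E, g' • x - x ^ q ∈ P) : g = g' := by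
  obtain ⟨⟨P, hP⟩⟩ := p.nonempty_primesOver (S := 𝓞 E)
  rw [← mul_inv_eq_one]
  refine inertia_eq_bot hp hu hP fun x => ?_
  simpa [mul_smul] using P.sub_mem (h P hP (g'⁻¹ • x)) (h' P hP (g'⁻¹ • x))

theorem frob_pow_inertiaDeg [IsGalois K E] {p : Ideal (𝓞 K)} (hp : p.IsMaximal)
    (hu : Algebra.IsUnramifiedIn (𝓞 E) p) {g : E ≃ₐ[K] E} {P : Ideal (𝓞 E)}
    (hP : P ∈ p.primesOver (𝓞 E)) (h : ∀ x : 𝓞 E, g • x - x ^ Nat.card (𝓞 K ⧸ p) ∈ P) :
    g ^ P.inertiaDeg (𝓞 K) = 1 := by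
  have key : ∀ (k : ℕ) (x : 𝓞 E), g ^ k • x - x ^ (Nat.card (𝓞 K ⧸ p) ^ k) ∈ P := by
    intro k
    induction k with
    | zero => simp
    | succ k ih =>
      intro x
      have h1 := h (g ^ k • x)
      have h2 := ih x
      rw [← Ideal.Quotient.eq, map_pow] at h1 h2 ⊢
      rw [pow_succ', mul_smul, h1, h2, pow_succ, pow_mul]
  refine inertia_eq_bot hp hu hP fun x => ?_
  obtain ⟨hP, hPp⟩ := hP
  have hPm : P.IsMaximal := Ideal.IsMaximal.of_liesOver_isMaximal P p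
  have hP0 : P ≠ ⊥ := Ring.ne_bot_of_isMaximal_of_not_isField hPm (RingOfIntegers.not_isField E)
  have : Finite (𝓞 E ⧸ P) := Ring.HasFiniteQuotients.finiteQuotient hP0
  let : Field (𝓞 E ⧸ P) := Ideal.Quotient.field P
  have h3 := Ideal.cardQuot_pow_inertiaDeg p P
  rw [Submodule.cardQuot_apply, Submodule.cardQuot_apply] at h3
  have h4 := key (P.inertiaDeg (𝓞 K)) x
  have := Fintype.ofFinite (𝓞 E ⧸ P)
  rw [← Ideal.Quotient.eq, map_pow, h3, Nat.card_eq_fintype_card, FiniteField.pow_card] at h4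
  rwa [← Ideal.Quotient.eq]

end Pool.Agent.Lib.MP_6bf7a3_nt
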