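import Pool.Agent.Lib.MP_6bf7a3_nt.Main

open NumberField FractionalIdeal
open scoped nonZeroDivisors

namespace Pool.Agent.Lib.MP_6bf7a3_nt

variable {K : Type} [Field K] [NumberField K] {σ₁ σ₂ : K →+* ℝ}

omit [NumberField K] in
theorem emb_ne (hσ : σ₂ ≠ σ₁) : Complex.ofRealHom.comp σ₁ ≠ Complex.ofRealHom.comp σ₂ := by
  intro h
  refine hσ (RingHom.ext fun x => ?_)
  have := RingHom.congr_fun h x
  simpa using this.symm

theorem emb_univ (hK : Module.finrank ℚ K = 2) (hσ : σ₂ ≠ σ₁) [DecidableEq (K →+* ℂ)] :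
    (Finset.univ : Finset (K →+* ℂ)) =
      {Complex.ofRealHom.comp σ₁, Complex.ofRealHom.comp σ₂} := by
  symm
  apply Finset.eq_univ_of_card
  rw [Finset.card_pair (emb_ne hσ), Embeddings.card, hK]

theorem emb_cases (hK : Module.finrank ℚ K = 2) (hσ : σ₂ ≠ σ₁) (φ : K →+* ℂ) :
    φ = Complex.ofRealHom.comp σ₁ ∨ φ = Complex.ofRealHom.comp σ₂ := by
  classical
  have := Finset.mem_univ φ
  rwa [emb_univ hK hσ, Finset.mem_insert, Finset.mem_singleton] at this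

theorem norm_eq_mul (hK : Module.finrank ℚ K = 2) (hσ : σ₂ ≠ σ₁) (x : K) :
    ((Algebra.norm ℚ x : ℚ) : ℝ) = σ₁ x * σ₂ x := by
  classical
  have h := Algebra.norm_eq_prod_embeddings ℚ ℂ x
  rw [← Fintype.prod_equiv (RingHom.equivRatAlgHom K ℂ) (fun φ => φ x) _ (fun _ => rfl),
    emb_univ hK hσ, Finset.prod_pair (emb_ne hσ)] at h
  apply Complex.ofReal_injective
  simpa using h

theorem absNorm_pr (hK : Module.finrank ℚ K = 2) (hσ : σ₂ ≠ σ₁) (α : Kˣ) :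
    ((absNorm ((pr (𝓞 K) α : (FractionalIdeal (𝓞 K)⁰ K)ˣ) : FractionalIdeal (𝓞 K)⁰ K) : ℚ) : ℝ) =
      |σ₁ α * σ₂ α| := by
  rw [coe_toPrincipalIdeal, absNorm_span_singleton, ← norm_eq_mul hK hσ, Rat.cast_abs]

theorem pr_unit (u : (𝓞 K)ˣ) :
    pr (𝓞 K) (Units.map (algebraMap (𝓞 K) K).toMonoidHom u) = 1 := by
  ext1
  rw [coe_toPrincipalIdeal, Units.val_one]
  change spanSingleton (𝓞 K)⁰ (algebraMap (𝓞 K) K u) = 1
  rw [← coeIdeal_span_singleton, Ideal.span_singleton_eq_top.2 u.isUnit, coeIdeal_top]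

theorem exists_unit_gt (hσ : σ₂ ≠ σ₁) {m : Ideal (𝓞 K)} (hm0 : m ≠ ⊥) :
    ∃ η : Kˣ, pr (𝓞 K) η = 1 ∧ (η : K) - 1 ∈ loc K m m ∧ 1 < σ₂ η := by
  obtain ⟨u, hu⟩ := Units.dirichletUnitTheorem.exists_unit K
    (InfinitePlace.mk (Complex.ofRealHom.comp σ₁))
  have hne : InfinitePlace.mk (Complex.ofRealHom.comp σ₂) ≠
      InfinitePlace.mk (Complex.ofRealHom.comp σ₁) := by
    intro h
    rcases InfinitePlace.mk_eq_iff.1 h with h | h
    · exact emb_ne hσ h.symm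
    · refine emb_ne hσ (h.symm.trans (RingHom.ext fun x => ?_))
      simp [ComplexEmbedding.conjugate_coe_eq]
  have h1 := hu _ hne
  rw [InfinitePlace.apply] at h1
  simp only [RingHom.comp_apply, Complex.ofRealHom_eq_coe, Complex.norm_real,
    Real.norm_eq_abs] at h1
  have h0 : σ₂ (algebraMap (𝓞 K) K u) ≠ 0 := by simp
  have h2 : |σ₂ (algebraMap (𝓞 K) K u)| < 1 := (Real.log_neg_iff (abs_pos.2 h0)).1 h1
  have : Finite (𝓞 K ⧸ m) := Ring.HasFiniteQuotients.finiteQuotient hm0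
  set N := Nat.card (𝓞 K ⧸ m)ˣ with hN
  have hN0 : 0 < N := Nat.card_pos
  let v : (𝓞 K)ˣ := (u⁻¹ ^ 2) ^ N
  refine ⟨_, pr_unit v, ?_, ?_⟩
  · have h3 : Units.map (Ideal.Quotient.mk m).toMonoidHom v = 1 := by
      simp only [v]
      rw [map_pow, hN, pow_card_eq_one']
    have h4 : (v : 𝓞 K) - 1 ∈ m := by
      rw [← Ideal.Quotient.eq, map_one]
      exact congrArg Units.val h3
    simpa using loc_alg (K := K) (m := m) h4
  · have h5 : σ₂ ((Units.map (algebraMap (𝓞 K) K).toMonoidHom v : Kˣ) : K) =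
        ((σ₂ (algebraMap (𝓞 K) K u))⁻¹ ^ 2) ^ N := by
      simp [v]
    rw [h5]
    refine one_lt_pow₀ ?_ hN0.ne'
    rw [inv_pow, one_lt_inv₀ (by positivity), sq_lt_one_iff_abs_lt_one]
    exact h2

theorem exists_gen (hK : Module.finrank ℚ K = 2) (hσ : σ₂ ≠ σ₁) {m : Ideal (𝓞 K)} (hm0 : m ≠ ⊥) :
    ∃ η : Kˣ, pr (𝓞 K) η = 1 ∧ (η : K) - 1 ∈ loc K m m ∧ 1 < σ₂ η ∧
      ∀ u : Kˣ, pr (𝓞 K) u = 1 → (u : K) - 1 ∈ loc K m m → 0 < σ₂ u → ∃ k : ℤ, u = η ^ k := by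
  obtain ⟨η₀, h1, h2, h3⟩ := exists_unit_gt hσ hm0
  let T : Set Kˣ := {u | pr (𝓞 K) u = 1 ∧ (u : K) - 1 ∈ loc K m m ∧ 1 < σ₂ u ∧ σ₂ u ≤ σ₂ η₀}
  have hT : T.Finite := by
    refine Set.Finite.of_finite_image (f := Units.val)
      ((Embeddings.finite_of_norm_le K ℂ (σ₂ η₀)).subset ?_) Units.val_injective.injOn
    rintro _ ⟨u, ⟨g1, -, g3, g4⟩, rfl⟩
    refine ⟨?_, fun φ => ?_⟩
    · have := self_mem_pr (O := 𝓞 K) u
      rw [g1, Units.val_one, mem_one_iff] at this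
      obtain ⟨y, hy⟩ := this
      rw [← hy]; exact y.isIntegral_coe
    · have h4 := absNorm_pr hK hσ u
      rw [g1, Units.val_one, absNorm_one, Rat.cast_one, abs_mul, abs_of_pos (one_pos.trans g3)] at h4
      rcases emb_cases hK hσ φ with rfl | rfl
      · simp only [RingHom.comp_apply, Complex.ofRealHom_eq_coe, Complex.norm_real,
          Real.norm_eq_abs]
        nlinarith [abs_nonneg (σ₁ u)]
      · simp only [RingHom.comp_apply, Complex.ofRealHom_eq_coe, Complex.norm_real,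
          Real.norm_eq_abs]
        rwa [abs_of_pos (one_pos.trans g3)]
  obtain ⟨η, ⟨g1, g2, g3, g4⟩, hmin⟩ := Set.exists_min_image T (fun u => σ₂ u) hT
    ⟨η₀, h1, h2, h3, le_rfl⟩
  have hz : ∀ k : ℤ, ((η ^ k : Kˣ) : K) - 1 ∈ loc K m m := by
    intro k
    induction k using Int.induction_on with
    | zero => simpa using loc_zero
    | succ k ih => rw [zpow_add_one]; exact loc_one_mul ih g2
    | pred k ih => rw [zpow_sub_one]; exact loc_one_mul ih (loc_one_inv g2)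
  refine ⟨η, g1, g2, g3, fun u f1 f2 f3 => ?_⟩
  obtain ⟨k, hk1, hk2⟩ := exists_mem_Ico_zpow f3 g3
  refine ⟨k, ?_⟩
  have hp : 0 < σ₂ η ^ k := zpow_pos (one_pos.trans g3) k
  have e : σ₂ ((u * η ^ (-k) : Kˣ) : K) = σ₂ u / σ₂ η ^ k := by
    simp [div_eq_mul_inv]
  have e1 : 1 ≤ σ₂ ((u * η ^ (-k) : Kˣ) : K) := by rw [e, one_le_div hp]; exact hk1
  have e2 : σ₂ ((u * η ^ (-k) : Kˣ) : K) < σ₂ η := by
    rw [e, div_lt_iff₀ hp, mul_comm, ← zpow_add_one₀ (one_pos.trans g3).ne']; exact hk2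
  rcases e1.eq_or_lt with e1 | e1
  · have : ((u * η ^ (-k) : Kˣ) : K) = 1 := σ₂.injective (by rw [← e1, map_one])
    rw [Units.val_eq_one, zpow_neg, mul_inv_eq_one] at this
    exact this
  · exact absurd (hmin _ ⟨by rw [map_mul, map_zpow, f1, g1]; simp, loc_one_mul f2 (hz _), e1,
      e2.le.trans g4⟩) (not_le.2 e2)

theorem exists_basis (hK : Module.finrank ℚ K = 2) (hσ : σ₂ ≠ σ₁)
    (L : (FractionalIdeal (𝓞 K)⁰ K)ˣ) :
    ∃ w : Module.Basis (Fin 2) ℚ K,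
      (∀ x, x ∈ (L : FractionalIdeal (𝓞 K)⁰ K) ↔ ∃ n : Fin 2 → ℤ, x = ∑ i, (n i : K) * w i) ∧
      ∀ y : Fin 2 → ℝ, ∑ i, y i * σ₁ (w i) = 0 → ∑ i, y i * σ₂ (w i) = 0 → y = 0 := by
  let b := basisOfFractionalIdeal K L
  have hc : Fintype.card (Module.Free.ChooseBasisIndex ℤ (L : FractionalIdeal (𝓞 K)⁰ K)) = 2 := by
    rw [← Module.finrank_eq_card_basis b, hK]
  let w := b.reindex (Fintype.equivFinOfCardEq hc)
  refine ⟨w, fun x => ?_, fun y h1 h2 => ?_⟩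
  · have h := mem_span_basisOfFractionalIdeal K (I := L) (x := x)
    rw [← b.range_reindex (Fintype.equivFinOfCardEq hc), Submodule.mem_span_range_iff_exists_fun] at h
    refine h.symm.trans ?_
    simp only [zsmul_eq_mul, eq_comm]
    rfl
  · by_contra hy
    rw [Fin.sum_univ_two] at h1 h2
    have hdet : σ₁ (w 0) * σ₂ (w 1) = σ₁ (w 1) * σ₂ (w 0) := by
      by_cases h0 : y 0 = 0
      · have h1' : y 1 ≠ 0 := fun h => hy (by ext i; fin_cases i <;> simp [h0, h])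
        rw [h0, zero_mul, zero_add, mul_eq_zero] at h1
        exact absurd (h1.resolve_left h1') (by simpa using w.ne_zero 1)
      · apply mul_left_cancel₀ h0
        linear_combination σ₂ (w 1) * h1 - σ₁ (w 1) * h2
    refine hσ (RingHom.ext fun x => ?_)
    have h3 := w.sum_repr (x * w 1)
    rw [Fin.sum_univ_two] at h3
    have h4 := congrArg σ₁ h3
    have h5 := congrArg σ₂ h3
    simp only [map_add, map_mul, Rat.smul_def, map_ratCast] at h4 h5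
    have n1 : σ₁ (w 1) ≠ 0 := by simpa using w.ne_zero 1
    have n2 : σ₂ (w 1) ≠ 0 := by simpa using w.ne_zero 1
    apply mul_right_cancel₀ (mul_ne_zero n1 n2)
    linear_combination σ₂ (w 1) * h4 - σ₁ (w 1) * h5 - (w.repr (x * w 1) 0 : ℝ) * hdet

end Pool.Agent.Lib.MP_6bf7a3_nt
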