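import Pool.Agent.Lib.MP_6bf7a3_nt.H5Bauer
import Pool.Agent.Lib.MP_6bf7a3_nt.H5Quad

open NumberField FractionalIdeal Filter Topology
open scoped nonZeroDivisors

namespace Pool.Agent.Lib.MP_6bf7a3_nt

section Abstract

variable {K E : Type} [Field K] [Field E] [NumberField K] [NumberField E] [Algebra K E]
  [IsGalois K E]

theorem exists_norm_neg (τ : E →+* ℝ) {N : ℕ} (hN : 0 < N) :
    ∃ μ : 𝓞 E, τ (algebraMap K E (Algebra.norm K (((1 + N * μ : 𝓞 E)) : E))) < 0 := by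
  classical
  obtain ⟨θ₀, hθ₀⟩ := Field.exists_primitive_element K E
  have halg : IsAlgebraic ℤ θ₀ := (IsFractionRing.isAlgebraic_iff ℤ ℚ E).mpr (.of_finite ℚ θ₀)
  obtain ⟨k, hk, hθ⟩ := halg.exists_integral_multiple
  let θ : 𝓞 E := ⟨k • θ₀, hθ⟩
  let r : (E ≃ₐ[K] E) → ℝ := fun g => τ (g θ)
  have hr : Function.Injective r := by
    intro g g' h
    have h1 : g (k • θ₀) = g' (k • θ₀) := τ.injective h
    rw [map_zsmul, map_zsmul] at h1
    have h2 : g θ₀ = g' θ₀ := smul_right_injective E hk h1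
    apply AlgEquiv.coe_toAlgHom_injective
    exact (Field.primitive_element_iff_algHom_eq_of_eval' K E (fun x => IsGalois.splits K x) θ₀).1
      hθ₀ h2
  obtain ⟨g₀, -, hg₀⟩ := Finset.exists_min_image Finset.univ r Finset.univ_nonempty
  have h1 : ∀ᶠ u in 𝓝[>] (r g₀), ∀ g, g ≠ g₀ → u < r g := by
    refine eventually_all.2 fun g => ?_
    by_cases hg : g = g₀
    · simp [hg]
    · have : r g₀ < r g := lt_of_le_of_ne (hg₀ g (Finset.mem_univ _)) fun h => hg (hr h).symm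
      filter_upwards [nhdsWithin_le_nhds (Iio_mem_nhds this)] with u hu _ using hu
  obtain ⟨u, hu1, hu2⟩ := (h1.and self_mem_nhdsWithin).exists
  obtain ⟨q, hq1, hq2⟩ := exists_rat_btwn (show r g₀ < u from hu2)
  have hden : (0 : ℝ) < q.den := Nat.cast_pos.2 q.den_pos
  obtain ⟨M, hM⟩ := exists_nat_gt (1 / (q.den * (q - r g₀)))
  have hpos : 0 < q.den * (q - r g₀) := mul_pos hden (sub_pos.2 hq1)
  rw [div_lt_iff₀ hpos] at hM
  have hN1 : (1 : ℝ) ≤ N := by exact_mod_cast hN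
  have hM0 : (0 : ℝ) ≤ M := Nat.cast_nonneg _
  refine ⟨M * (q.den * θ - q.num), ?_⟩
  have e : ∀ g : E ≃ₐ[K] E, τ (g ((1 + N * (M * (q.den * θ - q.num)) : 𝓞 E) : E)) =
      1 + N * (M * (q.den * (r g - q))) := by
    intro g
    have : (q.num : ℝ) = q.den * q := by
      rw [mul_comm, Rat.cast_def, div_mul_cancel₀ _ hden.ne']
    simp only [r, map_add, map_one, map_mul, map_natCast, map_sub, map_intCast, this]
    ring
  rw [Algebra.norm_eq_prod_automorphisms, map_prod, ← Finset.mul_prod_erase _ _ (Finset.mem_univ g₀)]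
  refine mul_neg_of_neg_of_pos ?_ (Finset.prod_pos fun g hg => ?_)
  · rw [e]; nlinarith [mul_nonneg hM0 hpos.le]
  · rw [e]
    have := sub_pos.2 (hq2.trans (hu1 g (Finset.ne_of_mem_erase hg)))
    positivity

theorem exists_norm_one {N : ℕ} (hN : 0 < N) (μ : 𝓞 E) :
    ∃ ν : 𝓞 K, Algebra.intNorm (𝓞 K) (𝓞 E) (1 + N * μ) = 1 + N * ν := by
  set β := Algebra.intNorm (𝓞 K) (𝓞 E) (1 + N * μ) with hβ
  have h1 : algebraMap (𝓞 K) (𝓞 E) β = ∏ g : E ≃ₐ[K] E, (1 + N * g • μ) := by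
    apply RingOfIntegers.ext
    change algebraMap K E (algebraMap (𝓞 K) K β) = _
    rw [hβ, Algebra.algebraMap_intNorm (L := E), Algebra.norm_eq_prod_automorphisms]
    simp only [map_add, map_one, map_mul, map_natCast, map_prod]
    rfl
  have h2 : algebraMap (𝓞 K) (𝓞 E) β - 1 ∈ Ideal.span {(N : 𝓞 E)} := by
    rw [← Ideal.Quotient.eq, h1, map_prod, map_one]
    refine Finset.prod_eq_one fun g _ => ?_
    rw [map_add, map_one, add_eq_left, Ideal.Quotient.eq_zero_iff_mem]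
    exact Ideal.mul_mem_right _ _ (Ideal.mem_span_singleton_self _)
  obtain ⟨w, hw⟩ := Ideal.mem_span_singleton'.1 h2
  have hN' : (N : K) ≠ 0 := Nat.cast_ne_zero.2 hN.ne'
  have hN'' : (N : E) ≠ 0 := Nat.cast_ne_zero.2 hN.ne'
  have h3 : algebraMap K E (((β : K) - 1) / N) = w := by
    have := congrArg (algebraMap (𝓞 E) E) hw
    simp only [map_mul, map_natCast, map_sub, map_one] at this
    rw [map_div₀, map_natCast, div_eq_iff hN'', map_sub, map_one]
    exact this.symm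
  have h4 : IsIntegral ℤ (((β : K) - 1) / N) := by
    rw [← isIntegral_algebraMap_iff (algebraMap K E).injective, h3]
    exact w.isIntegral_coe
  refine ⟨⟨_, h4⟩, ?_⟩
  apply RingOfIntegers.ext
  simp only [map_add, map_one, map_mul, map_natCast, RingOfIntegers.map_mk]
  field_simp
  ring

theorem art_relNorm {n : Ideal (𝓞 K)} {Φ : (FractionalIdeal (𝓞 K)⁰ K)ˣ → (E ≃ₐ[K] E)}
    (hmul : ∀ a b, Cp n a → Cp n b → Φ (a * b) = Φ a * Φ b)
    (hfr : ∀ p : Ideal (𝓞 K), p.IsMaximal → p ⊔ n = ⊤ → Algebra.IsUnramifiedIn (𝓞 E) p ∧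
      ∀ a : (FractionalIdeal (𝓞 K)⁰ K)ˣ, (a : FractionalIdeal (𝓞 K)⁰ K) = p →
        ∀ P ∈ p.primesOver (𝓞 E), ∀ x : 𝓞 E, Φ a • x - x ^ Nat.card (𝓞 K ⧸ p) ∈ P)
    (I : Ideal (𝓞 E)) : Ideal.relNorm (𝓞 K) I ⊔ n = ⊤ → ∀ a : (FractionalIdeal (𝓞 K)⁰ K)ˣ,
      (a : FractionalIdeal (𝓞 K)⁰ K) = Ideal.relNorm (𝓞 K) I → Φ a = 1 := by
  have hone : Φ 1 = 1 := by
    have := hmul 1 1 cp_one cp_one
    rw [mul_one] at this
    exact left_eq_mul.1 this
  have hpow : ∀ a, Cp n a → ∀ k : ℕ, Cp n (a ^ k) ∧ Φ (a ^ k) = Φ a ^ k := by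
    intro a ha k
    induction k with
    | zero => simpa using ⟨cp_one, hone⟩
    | succ k ih => rw [pow_succ, pow_succ, hmul _ _ ih.1 ha, ih.2]; exact ⟨ih.1.mul ha, rfl⟩
  induction I using UniqueFactorizationMonoid.induction_on_prime with
  | h₁ =>
    intro _ a ha
    simp at ha
  | h₂ I hI =>
    intro _ a ha
    rw [Ideal.isUnit_iff.1 hI, ← Ideal.one_eq_top, map_one, Ideal.one_eq_top, coeIdeal_top] at ha
    rw [Units.val_eq_one.1 ha, hone]
  | h₃ J P hJ hP ih =>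
    intro hc a ha
    have hPp : P.IsPrime := Ideal.isPrime_of_prime hP
    have hPm : P.IsMaximal := hPp.isMaximal hP.ne_zero
    set p := P.under (𝓞 K) with hp_def
    have hp : p.IsMaximal := Ideal.IsMaximal.under _ P
    have hp0 : p ≠ ⊥ := Ring.ne_bot_of_isMaximal_of_not_isField hp (RingOfIntegers.not_isField K)
    rw [map_mul, Ideal.relNorm_eq_pow_of_isMaximal P p] at hc ha
    have hf := (Ideal.inertiaDeg_pos (R := 𝓞 K) P).ne'
    have hc1 : p ⊔ n = ⊤ :=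
      top_le_iff.1 (hc.ge.trans (sup_le_sup_right (Ideal.mul_le_left.trans (Ideal.pow_le_self hf)) _))
    have hc2 : Ideal.relNorm (𝓞 K) J ⊔ n = ⊤ :=
      top_le_iff.1 (hc.ge.trans (sup_le_sup_right Ideal.mul_le_right _))
    have hJ0 : Ideal.relNorm (𝓞 K) J ≠ ⊥ := by rwa [Ne, Ideal.relNorm_eq_bot_iff]
    let b : (FractionalIdeal (𝓞 K)⁰ K)ˣ := Units.mk0 _ (coeIdeal_ne_zero.2 hp0)
    let c : (FractionalIdeal (𝓞 K)⁰ K)ˣ := Units.mk0 _ (coeIdeal_ne_zero.2 hJ0)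
    have hb : Cp n b := cp_of_coe rfl hc1
    have e : a = b ^ P.inertiaDeg (𝓞 K) * c := by
      ext1; rw [ha, coeIdeal_mul, coeIdeal_pow]; simp [b, c]
    obtain ⟨hu, hF⟩ := hfr p hp hc1
    rw [e, hmul _ _ (hpow b hb _).1 (cp_of_coe rfl hc2), ih hc2 c rfl, mul_one, (hpow b hb _).2]
    exact frob_pow_inertiaDeg hp hu ⟨hPp, inferInstance⟩ (hF b rfl P ⟨hPp, inferInstance⟩)

end Abstract

variable {K : Type} [Field K] [NumberField K] [Algebra K ℝ] {σ₂ : K →+* ℝ}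

omit [NumberField K] in
theorem exists_res {H L : IntermediateField K ℝ} (hle : H ≤ L) [FiniteDimensional K L]
    [IsAbelianGalois K L] :
    ∃ res : (L ≃ₐ[K] L) →* (H ≃ₐ[K] H), Function.Surjective res ∧
      (∀ g (x : H), ((res g x : H) : ℝ) = g (IntermediateField.inclusion hle x)) ∧
      (∀ x : L, (∀ g, res g = 1 → g x = x) → (x : ℝ) ∈ H) ∧
      (∀ (p : Ideal (𝓞 K)) (g : L ≃ₐ[K] L) (q : ℕ),
        (∀ P ∈ p.primesOver (𝓞 L), ∀ x : 𝓞 L, g • x - x ^ q ∈ P) →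
        ∀ P ∈ p.primesOver (𝓞 H), ∀ x : 𝓞 H, res g • x - x ^ q ∈ P) := by
  let := (IntermediateField.inclusion hle).toRingHom.toAlgebra
  have : IsScalarTower K H L := IsScalarTower.of_algebraMap_eq fun _ => rfl
  have hab : IsAbelianGalois K H := ab_mono hle inferInstance
  have : IsGalois H L := IsGalois.tower_top_of_isGalois K H L
  have : FiniteDimensional H L := Module.Finite.of_restrictScalars_finite K H L
  have hcomm : ∀ (g : L ≃ₐ[K] L) (x : H), algebraMap H L (AlgEquiv.restrictNormalHom H g x) =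
      g (algebraMap H L x) := fun g x => g.restrictNormal_commutes H x
  refine ⟨AlgEquiv.restrictNormalHom H, AlgEquiv.restrictNormalHom_surjective L,
    fun g x => congrArg (fun y : L => (y : ℝ)) (hcomm g x), fun x hx => ?_,
    fun p g q => frob_down⟩
  obtain ⟨y, rfl⟩ := (IsGalois.mem_range_algebraMap_iff_fixed (F := H) x).2 fun f =>
    hx (f.restrictScalars K) (by
      ext y
      have := hcomm (f.restrictScalars K) y
      rw [AlgEquiv.restrictScalars_apply, AlgEquiv.commutes] at this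
      exact congrArg (fun y : L => (y : ℝ)) this)
  exact y.2

theorem IsRCF.frob {m : Ideal (𝓞 K)} {H : IntermediateField K ℝ}
    {Art : (FractionalIdeal (𝓞 K)⁰ K)ˣ → (H ≃ₐ[K] H)} (h : IsRCF σ₂ m H Art)
    (p : Ideal (𝓞 K)) (hp : p.IsMaximal) (hpm : p ⊔ m = ⊤) : Algebra.IsUnramifiedIn (𝓞 H) p ∧
      ∀ a : (FractionalIdeal (𝓞 K)⁰ K)ˣ, (a : FractionalIdeal (𝓞 K)⁰ K) = p →
        ∀ P ∈ p.primesOver (𝓞 H), ∀ x : 𝓞 H, Art a • x - x ^ Nat.card (𝓞 K ⧸ p) ∈ P :=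
  (h.2.2.1 p hp (by rwa [cond_self])).2

theorem rcf_le {f n : Ideal (𝓞 K)} (hf0 : f ≠ ⊥) (hfn : f ≤ n) (hn1 : n ≠ ⊤)
    {H H' : IntermediateField K ℝ} {Art : (FractionalIdeal (𝓞 K)⁰ K)ˣ → (H ≃ₐ[K] H)}
    {Art' : (FractionalIdeal (𝓞 K)⁰ K)ˣ → (H' ≃ₐ[K] H')} (h : IsRCF σ₂ f H Art)
    (h' : IsRCF σ₂ n H' Art') :
    ∃ hle : H' ≤ H, ∀ b, Cp f b → ∀ x : H',
      ((Art b (IntermediateField.inclusion hle x) : H) : ℝ) = Art' b x := by
  have hf1 : f ≠ ⊤ := fun e => hn1 (top_le_iff.1 (e ▸ hfn))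
  have hA := h.isArt hf1
  have hA' := h'.isArt hn1
  have := h.1
  have := h'.1
  have := h.2.1
  have := h'.2.1
  have : IsAbelianGalois K ↥(H ⊔ H') := ab_sup h.2.1 h'.2.1
  have : NumberField H := NumberField.of_module_finite K H
  have : NumberField H' := NumberField.of_module_finite K H'
  have : NumberField ↥(H ⊔ H') := NumberField.of_module_finite K _
  obtain ⟨r₁, s₁, c₁, x₁, f₁⟩ := exists_res (le_sup_left : H ≤ H ⊔ H')
  obtain ⟨r₂, -, c₂, -, f₂⟩ := exists_res (le_sup_right : H' ≤ H ⊔ H')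
  let Γ : Subgroup (↥(H ⊔ H') ≃ₐ[K] ↥(H ⊔ H')) :=
    { carrier := {g | ∃ b, Cp f b ∧ r₁ g = Art b ∧ r₂ g = Art' b}
      one_mem' := ⟨1, cp_one, by rw [map_one, hA.one], by rw [map_one, hA'.one]⟩
      mul_mem' := by
        rintro g g' ⟨b, h1, h2, h3⟩ ⟨b', h1', h2', h3'⟩
        exact ⟨b * b', h1.mul h1', by rw [map_mul, h2, h2', hA.mul _ _ h1 h1'],
          by rw [map_mul, h3, h3', hA'.mul _ _ (h1.mono hfn) (h1'.mono hfn)]⟩
      inv_mem' := by
        rintro g ⟨b, h1, h2, h3⟩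
        exact ⟨b⁻¹, h1.inv, by rw [map_inv, h2, hA.inv h1],
          by rw [map_inv, h3, hA'.inv (h1.mono hfn)]⟩ }
  have hΓ : ∀ g, g ∈ Γ := by
    obtain ⟨E, hle, res, hfin, -, hker, -, -, -, hfrob, -⟩ := exists_subfield (H ⊔ H') Γ
    have : IsAbelianGalois K E := ab_mono hle inferInstance
    have : NumberField E := NumberField.of_module_finite K E
    have h1 : Module.finrank K E = 1 := by
      refine bauer (finite_ideals_ge hf0) fun p hp hpf => ?_
      have hp0 : p ≠ ⊥ := Ring.ne_bot_of_isMaximal_of_not_isField hp (RingOfIntegers.not_isField K)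
      have hc : p ⊔ f = ⊤ := hp.out.2 _ (left_lt_sup.2 hpf)
      have hc' : p ⊔ n = ⊤ := top_le_iff.1 (hc.ge.trans (sup_le_sup_left hfn _))
      obtain ⟨g, hg⟩ := exists_frob_all ↥(H ⊔ H') hp
      let b : (FractionalIdeal (𝓞 K)⁰ K)ˣ := Units.mk0 _ (coeIdeal_ne_zero.2 hp0)
      have hgΓ : g ∈ Γ := ⟨b, cp_of_coe rfl hc,
        frob_unique hp (h.frob p hp hc).1 (f₁ p g _ hg) ((h.frob p hp hc).2 b rfl),
        frob_unique hp (h'.frob p hp hc').1 (f₂ p g _ hg) ((h'.frob p hp hc').2 b rfl)⟩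
      have := hfrob p g _ hg
      rw [(hker g).2 hgΓ] at this
      simpa using this
    intro g
    rw [← hker]
    rw [← IsGalois.card_aut_eq_finrank, Nat.card_eq_one_iff_unique] at h1
    exact h1.1.elim _ _
  have key : ∀ g b, Cp f b → r₁ g = Art b → r₂ g = Art' b := by
    intro g b hb hg
    obtain ⟨b', h1, h2, h3⟩ := hΓ g
    have h4 : Art (b * b'⁻¹) = 1 := by
      rw [hA.mul _ _ hb h1.inv, hA.inv h1, ← hg, ← h2, mul_inv_cancel]
    obtain ⟨α, e, g1, g2⟩ := (hA.ker _ (hb.mul h1.inv)).1 h4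
    have h5 := (hA'.ker _ ((hb.mul h1.inv).mono hfn)).2 ⟨α, e, loc_mono hfn hfn g1, g2⟩
    rw [hA'.mul _ _ (hb.mono hfn) (h1.inv.mono hfn), hA'.inv (h1.mono hfn), mul_inv_eq_one] at h5
    rw [h3, h5]
  have hle : H' ≤ H := by
    intro x hx
    refine x₁ (IntermediateField.inclusion le_sup_right ⟨x, hx⟩) fun g hg => ?_
    apply Subtype.ext
    rw [← c₂, key g 1 cp_one (by rw [hg, hA.one]), hA'.one]
    rfl
  refine ⟨hle, fun b hb x => ?_⟩
  obtain ⟨g, hg⟩ := s₁ (Art b)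
  rw [← key g b hb hg, c₂, ← hg, c₁]
  rfl

theorem art_conj {n : Ideal (𝓞 K)} (hn0 : n ≠ ⊥) (hn1 : n ≠ ⊤) {H : IntermediateField K ℝ}
    {Art : (FractionalIdeal (𝓞 K)⁰ K)ˣ → (H ≃ₐ[K] H)} (h : IsRCF σ₂ n H Art) {ρ : Kˣ}
    (h1 : (ρ : K) + 1 ∈ loc K n n) (h2 : 0 < σ₂ ρ) (τ : H →+* ℂ)
    (hτ : ∀ x : K, τ (algebraMap K H x) = σ₂ x) :
    Art (pr (𝓞 K) ρ) = 1 ∨ ∀ x, τ (Art (pr (𝓞 K) ρ) x) = star (τ x) := by
  have hA := h.isArt hn1
  have := h.1
  have := h.2.1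
  obtain ⟨c, hc⟩ := ComplexEmbedding.exists_comp_symm_eq_of_comp_eq (k := K) τ
    (ComplexEmbedding.conjugate τ) (by ext x; simp [hτ])
  have hc1 : ComplexEmbedding.IsConj τ c := ComplexEmbedding.isConj_symm.1 hc.symm
  obtain ⟨E, hle, res, hfin, -, hker, hres, -, hunr, hfrob, -⟩ :=
    exists_subfield H (Subgroup.zpowers c)
  have : IsAbelianGalois K E := ab_mono hle inferInstance
  have : NumberField E := NumberField.of_module_finite K E
  have hreal : ComplexEmbedding.IsReal (τ.comp (IntermediateField.inclusion hle).toRingHom) := by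
    ext x
    have h3 := hres c x
    rw [(hker c).2 (Subgroup.mem_zpowers c)] at h3
    have h4 : c (IntermediateField.inclusion hle x) = IntermediateField.inclusion hle x :=
      Subtype.ext h3.symm
    have := hc1.eq (IntermediateField.inclusion hle x)
    rw [h4] at this
    exact this.symm
  have : Finite (𝓞 K ⧸ n) := Ring.HasFiniteQuotients.finiteQuotient hn0
  have hN : 0 < Nat.card (𝓞 K ⧸ n) := Nat.card_pos
  have hNn : ((Nat.card (𝓞 K ⧸ n) : ℕ) : 𝓞 K) ∈ n := by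
    rw [← Ideal.Quotient.eq_zero_iff_mem, map_natCast, ← nsmul_one]
    exact card_nsmul_eq_zero'
  obtain ⟨μ, hμ⟩ := exists_norm_neg (K := K) hreal.embedding hN
  obtain ⟨ν, hν⟩ := exists_norm_one (K := K) hN μ
  set β := Algebra.intNorm (𝓞 K) (𝓞 E) (1 + Nat.card (𝓞 K ⧸ n) * μ) with hβ
  have hβ1 : β - 1 ∈ n := by rw [hν, add_sub_cancel_left]; exact n.mul_mem_right _ hNn
  have hβ2 : σ₂ (algebraMap (𝓞 K) K β) < 0 := by
    rw [← Algebra.algebraMap_intNorm (A := 𝓞 K), ← hβ] at hμ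
    have : (hreal.embedding (algebraMap K E (algebraMap (𝓞 K) K β)) : ℂ) =
        σ₂ (algebraMap (𝓞 K) K β) := by
      rw [ComplexEmbedding.IsReal.coe_embedding_apply, ← hτ]; rfl
    rwa [Complex.ofReal_injective this] at hμ
  have hβ0 : algebraMap (𝓞 K) K β ≠ 0 := by rintro e; simp [e] at hβ2
  let b : Kˣ := Units.mk0 _ hβ0
  have hb : (b : K) - 1 ∈ loc K n n := by simpa [b] using loc_alg (K := K) (m := n) hβ1
  have h3 : res (Art (pr (𝓞 K) b)) = 1 := by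
    refine art_relNorm (n := n) (Φ := fun a => res (Art a))
      (fun a a' ha ha' => by rw [hA.mul _ _ ha ha', map_mul])
      (fun p hp hpn => ⟨hunr p (h.frob p hp hpn).1,
        fun a ha => hfrob p _ _ ((h.frob p hp hpn).2 a ha)⟩)
      (Ideal.span {1 + Nat.card (𝓞 K ⧸ n) * μ}) ?_ _ ?_
    · rw [Ideal.relNorm_singleton]
      exact sup_of_exists_one (Ideal.mem_span_singleton_self _) hβ1
    · rw [Ideal.relNorm_singleton, coe_toPrincipalIdeal, coeIdeal_span_singleton]; rfl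
  have h4 : ((-ρ : Kˣ) : K) - 1 ∈ loc K n n := by
    have := loc_neg h1
    rwa [neg_add, ← sub_eq_add_neg] at this
  have hneg : pr (𝓞 K) (-ρ) = pr (𝓞 K) ρ := by
    have := pr_unit (K := K) (-1)
    rw [← neg_one_mul, map_mul]
    rw [show Units.map (algebraMap (𝓞 K) K).toMonoidHom (-1) = -1 from Units.ext (by simp)] at this
    rw [this, one_mul]
  have h5 : Art (pr (𝓞 K) (-ρ * b⁻¹)) = 1 := by
    refine (hA.ker _ (cp_pr_of_one (loc_one_mul h4 (loc_one_inv hb)))).2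
      ⟨_, rfl, loc_one_mul h4 (loc_one_inv hb), ?_⟩
    have := mul_pos_of_neg_of_neg (neg_lt_zero.2 h2) (inv_lt_zero.2 hβ2)
    simpa [b] using this
  rw [map_mul, map_inv, hA.mul _ _ (cp_pr_of_one h4) (cp_pr_of_one hb).inv,
    hA.inv (cp_pr_of_one hb), mul_inv_eq_one, hneg] at h5
  rw [h5]
  obtain ⟨k, hk⟩ := (hker _).1 h3
  have hcc : c ^ (2 : ℤ) = 1 := by
    ext x; rw [zpow_two, AlgEquiv.mul_apply, ComplexEmbedding.isConj_apply_apply hc1]; rfl
  rcases Int.even_or_odd' k with ⟨j, rfl | rfl⟩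
  · left; rw [← hk]; simp only [zpow_mul, hcc, one_zpow]
  · right
    intro x
    rw [← hk]
    simp only [zpow_add, zpow_mul, hcc, one_zpow, one_mul, zpow_one]
    exact hc1.eq x

end Pool.Agent.Lib.MP_6bf7a3_nt
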