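import Pool.Agent.Lib.MP_6bf7a3_nt.H5Vanish
import Pool.Agent.Lib.helper5.Lat2
import Pool.Agent.Lib.helper5.Mel2

open NumberField FractionalIdeal Filter
open scoped nonZeroDivisors Topology

namespace Pool.Agent.Lib.MP_6bf7a3_nt

open Pool.Agent.Lib.helper5 Mel

theorem hasSum_telescope {U : ℤ → ℝ} {A B : ℝ} {N : ℕ} (h1 : ∀ k : ℤ, (N : ℤ) ≤ k → U k = A)
    (h2 : ∀ k : ℤ, k ≤ -(N : ℤ) → U k = B) : HasSum (fun k : ℤ => U (k + 1) - U k) (A - B) := by
  have h3 : HasSum (fun k : ℤ => U (k + 1) - U k)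
      (∑ k ∈ (Finset.range (2 * N)).image (fun j : ℕ => (j : ℤ) - N), (U (k + 1) - U k)) := by
    refine hasSum_sum_of_ne_finset_zero fun k hk => ?_
    by_cases h : (N : ℤ) ≤ k
    · rw [h1 k h, h1 _ (by omega), sub_self]
    · have : k + 1 ≤ -(N : ℤ) := by
        by_contra h'
        exact hk (Finset.mem_image.2 ⟨(k + N).toNat, Finset.mem_range.2 (by omega), by omega⟩)
      rw [h2 _ this, h2 _ (by omega), sub_self]
  rw [Finset.sum_image (fun x _ y _ h => by simpa using h)] at h3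
  have h4 := Finset.sum_range_sub (fun j : ℕ => U ((j : ℤ) - N)) (2 * N)
  rw [h1 (((2 * N : ℕ) : ℤ) - N) (by omega), h2 (((0 : ℕ) : ℤ) - N) (by omega)] at h4
  have h5 : ∑ x ∈ Finset.range (2 * N), (U ((x : ℤ) - N + 1) - U ((x : ℤ) - N)) = A - B := by
    rw [← h4]
    refine Finset.sum_congr rfl fun j _ => ?_
    congr 2
    push_cast; ring
  rwa [h5] at h3

/-- A smooth ramp. -/
noncomputable def ramp (x : ℝ) : ℝ := x * Real.smoothTransition x

theorem ramp_zero {x : ℝ} (h : x ≤ 0) : ramp x = 0 := by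
  rw [ramp, Real.smoothTransition.zero_of_nonpos h, mul_zero]

theorem ramp_one {x : ℝ} (h : 1 ≤ x) : ramp x = x := by
  rw [ramp, Real.smoothTransition.one_of_one_le h, mul_one]

theorem contDiff_ramp : ContDiff ℝ (⊤ : ℕ∞) ramp := contDiff_id.mul Real.smoothTransition.contDiff

/-- An even smooth bump adapted to a geometric progression. -/
noncomputable def kap (l u : ℝ) : ℝ := 1 - (ramp (Real.log u / l) - ramp (Real.log u / l - 1))

theorem kap_one {l u : ℝ} (h : Real.log u / l ≤ 0) : kap l u = 1 := by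
  rw [kap, ramp_zero h, ramp_zero (by linarith)]; simp

theorem kap_zero {l u : ℝ} (h : 2 ≤ Real.log u / l) : kap l u = 0 := by
  rw [kap, ramp_one (by linarith), ramp_one (by linarith)]; simp

theorem contDiff_kap {l : ℝ} (hl : 0 < l) : ContDiff ℝ (⊤ : ℕ∞) (kap l) := by
  refine contDiff_iff_contDiffAt.2 fun u => ?_
  by_cases hu : u = 0
  · subst hu
    refine (contDiffAt_const (c := (1 : ℝ))).congr_of_eventuallyEq ?_
    filter_upwards [Metric.ball_mem_nhds (0 : ℝ) one_pos] with v hv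
    rw [mem_ball_zero_iff, Real.norm_eq_abs] at hv
    refine kap_one (div_nonpos_of_nonpos_of_nonneg ?_ hl.le)
    rw [← Real.log_abs]
    exact Real.log_nonpos (abs_nonneg _) hv.le
  · have h1 : ContDiffAt ℝ (⊤ : ℕ∞) (fun u => Real.log u / l) u :=
      (Real.contDiffAt_log.2 hu).div_const l
    exact contDiffAt_const.sub ((contDiff_ramp.contDiffAt.comp u h1).sub
      (contDiff_ramp.contDiffAt.comp u (h1.sub contDiffAt_const)))

theorem hasSum_kap {l : ℝ} {a b : ℤ → ℝ} {x y : ℝ} (ha : ∀ k, Real.log (a k) / l = x - k)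
    (hb : ∀ k, Real.log (b k) / l = y + k) (h : x + y ≤ 0) :
    HasSum (fun k : ℤ => kap l (a k) * kap l (b k)) (1 - (x + y)) := by
  obtain ⟨N, hN⟩ := exists_nat_gt (|x| + |y| + 2)
  have hx := abs_le.1 (le_refl |x|)
  have hy := abs_le.1 (le_refl |y|)
  have h1 := hasSum_telescope (U := fun k => k + ramp (x - k) - ramp (y + k - 1)) (A := 1 - y)
    (B := x) (N := N) (fun k hk => by
      have : (N : ℝ) ≤ k := by exact_mod_cast hk
      rw [ramp_zero (by linarith [abs_nonneg y]), ramp_one (by linarith [abs_nonneg x])]; ring)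
    (fun k hk => by
      have : (k : ℝ) ≤ -N := by exact_mod_cast hk
      rw [ramp_one (by linarith [abs_nonneg y]), ramp_zero (by linarith [abs_nonneg x])]; ring)
  rw [show 1 - (x + y) = 1 - y - x by ring]
  refine h1.congr_fun fun k => ?_
  have e1 : x - ((k + 1 : ℤ) : ℝ) = x - k - 1 := by push_cast; ring
  have e2 : y + ((k + 1 : ℤ) : ℝ) - 1 = y + k := by push_cast; ring
  rw [e1, e2]
  rcases le_total (x - k) 0 with h0 | h0
  · rw [kap_one (by rwa [ha]), kap, hb, ramp_zero h0, ramp_zero (x := x - k - 1) (by linarith)]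
    push_cast; ring
  · rw [kap_one (u := b k) (by rw [hb]; linarith), kap, ha, ramp_zero (x := y + k) (by linarith),
      ramp_zero (x := y + k - 1) (by linarith)]
    push_cast; ring

variable {K : Type} [Field K] [NumberField K] {σ₁ σ₂ : K →+* ℝ}

theorem hasSum_fiber' (hK : Module.finrank ℚ K = 2) (hσ : σ₂ ≠ σ₁) {m : Ideal (𝓞 K)}
    {η : Kˣ} (g1 : pr (𝓞 K) η = 1) (g2 : (η : K) - 1 ∈ loc K m m) (g3 : 1 < σ₂ η)
    (g4 : ∀ u : Kˣ, pr (𝓞 K) u = 1 → (u : K) - 1 ∈ loc K m m → 0 < σ₂ u → ∃ k : ℤ, u = η ^ k)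
    {c : (FractionalIdeal (𝓞 K)⁰ K)ˣ} {ι : Type} (x : ι → K) (hx : Function.Injective x)
    (hx2 : ∀ α : K, α ∈ Set.range x ↔ α - 1 ∈ loc K m m ∧
      α ∈ ((c⁻¹ : (FractionalIdeal (𝓞 K)⁰ K)ˣ) : FractionalIdeal (𝓞 K)⁰ K))
    (e : ℝ) (F : K → ℝ) (V : ℝ → ℝ) (hF : ∀ α, e * σ₂ α ≤ 0 → F α = 0)
    (hV : ∀ α : Kˣ, 0 < e * σ₂ α → HasSum (fun k : ℤ => F ((η ^ k * α : Kˣ) : K))
      (V (|σ₁ α * σ₂ α| * ((absNorm (c : FractionalIdeal (𝓞 K)⁰ K) : ℚ) : ℝ))))
    {a : ℝ} (h : HasSum (fun n => F (x n)) a) :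
    HasSum (fun I : {I : Ideal (𝓞 K) // ∃ b ∈ rayS σ₂ m e c, (b : FractionalIdeal (𝓞 K)⁰ K) = I} =>
      V (Nat.card (𝓞 K ⧸ I.1))) a := by
  set Y := {I : Ideal (𝓞 K) // ∃ b ∈ rayS σ₂ m e c, (b : FractionalIdeal (𝓞 K)⁰ K) = I}
  have hη0 : 0 < σ₂ η := one_pos.trans g3
  have hz : ∀ k : ℤ, ((η ^ k : Kˣ) : K) - 1 ∈ loc K m m := by
    intro k
    induction k using Int.induction_on with
    | zero => simpa using loc_zero
    | succ k ih => rw [zpow_add_one]; exact loc_one_mul ih g2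
    | pred k ih => rw [zpow_sub_one]; exact loc_one_mul ih (loc_one_inv g2)
  have hrep : ∀ I : Y, ∃ α : Kˣ, (α : K) - 1 ∈ loc K m m ∧ 0 < e * σ₂ α ∧
      ((pr (𝓞 K) α * c : (FractionalIdeal (𝓞 K)⁰ K)ˣ) : FractionalIdeal (𝓞 K)⁰ K) = I.1 := by
    rintro ⟨I, _, ⟨α, h1, h2, rfl⟩, h3⟩
    exact ⟨α, h1, h2, h3⟩
  choose α hα1 hα2 hα3 using hrep
  have hpr : ∀ (k : ℤ) (β : Kˣ), pr (𝓞 K) (η ^ k * β) = pr (𝓞 K) β := by
    intro k β; rw [map_mul, map_zpow, g1, one_zpow, one_mul]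
  have hG : ∀ p : Y × ℤ, ∃ n, x n = ((η ^ p.2 * α p.1 : Kˣ) : K) := fun p =>
    (hx2 _).2 ⟨loc_one_mul (hz _) (hα1 _), mem_inv_iff.2 ⟨p.1.1, by rw [hpr, hα3]⟩⟩
  choose G hG using hG
  have hinj : Function.Injective G := by
    rintro ⟨I, k⟩ ⟨I', k'⟩ hp
    have h1 : η ^ k * α I = η ^ k' * α I' := Units.val_injective (by
      rw [← hG (I, k), ← hG (I', k'), hp])
    have h2 : I = I' := by
      apply Subtype.ext
      apply coeIdeal_injective (K := K)
      have := hα3 I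
      rw [← hpr k, h1, hpr, hα3] at this
      exact this.symm
    subst h2
    have h3 := congrArg (fun u : Kˣ => σ₂ u) (mul_right_cancel h1)
    simp only [Units.val_zpow_eq_zpow_val, map_zpow₀] at h3
    rw [zpow_right_injective₀ hη0 g3.ne' h3]
  have hout : ∀ n ∉ Set.range G, F (x n) = 0 := by
    intro n hn
    rcases le_or_gt (e * σ₂ (x n)) 0 with h0 | h0
    · exact hF _ h0
    · exfalso
      have hn0 : x n ≠ 0 := by rintro h; simp [h] at h0
      let β : Kˣ := Units.mk0 _ hn0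
      obtain ⟨b1, b2⟩ := (hx2 (x n)).1 ⟨n, rfl⟩
      obtain ⟨I, hI⟩ := (mem_inv_iff (α := β)).1 b2
      let J : Y := ⟨I, _, ⟨β, b1, h0, rfl⟩, hI⟩
      have h1 : pr (𝓞 K) β * c = pr (𝓞 K) (α J) * c := Units.ext (hI.trans (hα3 J).symm)
      obtain ⟨k, hk⟩ := g4 (β * (α J)⁻¹)
        (by rw [map_mul, map_inv, mul_right_cancel h1, mul_inv_cancel])
        (loc_one_mul b1 (loc_one_inv (hα1 J))) (by
          have h2 := hα2 J
          have h3 : σ₂ ((β * (α J)⁻¹ : Kˣ) : K) = (e * σ₂ (x n)) / (e * σ₂ (α J)) := by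
            have he : e ≠ 0 := by rintro rfl; simp at h0
            rw [mul_div_mul_left _ _ he]; simp [β, div_eq_mul_inv]
          rw [h3]; exact div_pos h0 h2)
      refine hn ⟨(J, k), hx ?_⟩
      rw [hG, ← hk, inv_mul_cancel_right]; rfl
  have h1 := (hinj.hasSum_iff hout).2 h
  refine h1.prod_fiberwise fun I => ?_
  rw [card_eq_norm hK hσ (hα3 I)]
  exact (hV (α I) (hα2 I)).congr_fun fun k => by rw [Function.comp_apply, hG]

theorem good_of_bound {A₁ A₂ : (Fin 2 → ℝ) →ₗ[ℝ] ℝ} (hA : LinearMap.ker (A₁.prod A₂) = ⊥)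
    {φ : ℝ → ℝ → ℝ} (hφ : ContDiff ℝ (⊤ : ℕ∞) fun p : ℝ × ℝ => φ p.1 p.2) {B : ℝ} (hB : 0 ≤ B)
    (h : ∀ u v, φ u v ≠ 0 → |u| ≤ B ∧ |v| ≤ B) :
    ∃ R, 0 ≤ R ∧ Lat.Good R fun y => φ (A₁ y) (A₂ y) := by
  obtain ⟨C, -, hC⟩ := (A₁.prod A₂).exists_antilipschitzWith hA
  have h1 : ContDiff ℝ (⊤ : ℕ∞) A₁ := A₁.toContinuousLinearMap.contDiff
  have h2 : ContDiff ℝ (⊤ : ℕ∞) A₂ := A₂.toContinuousLinearMap.contDiff
  refine ⟨C * B, by positivity, hφ.comp (h1.prodMk h2), fun y hy => ?_⟩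
  by_contra hne
  have f8 := hC.le_mul_norm (map_zero _) y
  refine absurd (f8.trans (mul_le_mul_of_nonneg_left ?_ C.2)) (not_le.2 hy)
  change ‖(A₁ y, A₂ y)‖ ≤ _
  rw [Prod.norm_mk, Real.norm_eq_abs, Real.norm_eq_abs]
  exact max_le (h _ _ hne).1 (h _ _ hne).2

theorem absNorm_pos' (c : (FractionalIdeal (𝓞 K)⁰ K)ˣ) :
    (0 : ℝ) < ((absNorm (c : FractionalIdeal (𝓞 K)⁰ K) : ℚ) : ℝ) := by
  have h1 := absNorm_nonneg (c : FractionalIdeal (𝓞 K)⁰ K)
  have h2 : absNorm (c : FractionalIdeal (𝓞 K)⁰ K) ≠ 0 := by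
    rw [Ne, absNorm_eq_zero_iff]; exact c.ne_zero
  exact Rat.cast_pos.2 (lt_of_le_of_ne h1 h2.symm)

theorem summable_card (X : Set (FractionalIdeal (𝓞 K)⁰ K)ˣ) (σ : ℝ) (hs : 1 < σ) :
    Summable fun I : {I : Ideal (𝓞 K) // ∃ b ∈ X, (b : FractionalIdeal (𝓞 K)⁰ K) = I} =>
      (Nat.card (𝓞 K ⧸ I.1) : ℝ) ^ (-σ) := by
  rw [← Complex.summable_ofReal]
  refine ((summable_dedekind K (s := σ) (by simpa using hs)).subtype _).congr fun I => ?_
  rw [Complex.ofReal_cpow (Nat.cast_nonneg _)]; simp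

theorem rayS_one (m : Ideal (𝓞 K)) (c : (FractionalIdeal (𝓞 K)⁰ K)ˣ) :
    rayS σ₂ m 1 c = rayClass σ₂ m c := by
  ext b; simp [rayS, rayClass]

theorem pr_neg (α : Kˣ) : pr (𝓞 K) (-α) = pr (𝓞 K) α := by
  have := pr_unit (K := K) (-1)
  rw [← neg_one_mul, map_mul]
  rw [show Units.map (algebraMap (𝓞 K) K).toMonoidHom (-1) = -1 from Units.ext (by simp)] at this
  rw [this, one_mul]

theorem rayS_neg {m : Ideal (𝓞 K)} (c : (FractionalIdeal (𝓞 K)⁰ K)ˣ) {ρ : Kˣ}
    (h1 : (ρ : K) + 1 ∈ loc K m m) (h2 : 0 < σ₂ ρ) :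
    rayS σ₂ m (-1) c = rayClass σ₂ m (c * pr (𝓞 K) ρ) := by
  have h3 : ((-ρ : Kˣ) : K) - 1 ∈ loc K m m := by
    have := loc_neg h1
    rwa [neg_add, ← sub_eq_add_neg] at this
  ext b
  constructor
  · rintro ⟨α, f1, f2, rfl⟩
    refine ⟨α * (-ρ)⁻¹, loc_one_mul f1 (loc_one_inv h3), ?_, ?_⟩
    · have := mul_pos f2 (inv_pos.2 h2)
      simpa using this
    · rw [map_mul, map_inv, pr_neg, mul_comm c, mul_assoc, inv_mul_cancel_left]
  · rintro ⟨α, f1, f2, rfl⟩
    refine ⟨α * -ρ, loc_one_mul f1 h3, by simpa using mul_pos f2 h2, ?_⟩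
    rw [map_mul, pr_neg, mul_assoc, mul_comm c]

/-- Analytic continuation of the zeta function of a ray class. -/
theorem exists_cont (hK : Module.finrank ℚ K = 2) (hσ : σ₂ ≠ σ₁) {m : Ideal (𝓞 K)}
    (hm0 : m ≠ ⊥) {c : (FractionalIdeal (𝓞 K)⁰ K)ˣ} (hc : Cp m c) :
    ∃ f : ℂ → ℂ, DifferentiableOn ℂ f {1}ᶜ ∧ ∀ s : ℂ, 1 < s.re →
      f s = zeta (rayClass σ₂ m c) s := by
  obtain ⟨η, g1, g2, g3, g4⟩ := exists_gen hK hσ hm0
  obtain ⟨x, z, A₁, A₂, hx, hx2, hA, hxA⟩ := exists_param hK hσ hm0 hc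
  have hν := absNorm_pos' c
  set ν : ℝ := ((absNorm (c : FractionalIdeal (𝓞 K)⁰ K) : ℚ) : ℝ) with hν_def
  have hη := absNorm_pr hK hσ η
  rw [g1, Units.val_one, absNorm_one, Rat.cast_one] at hη
  refine patch fun p => ?_
  obtain ⟨δ, hδ, hδ1, hd, hp⟩ := exists_bump p
  obtain ⟨R, hR, hG⟩ := good_of_bound hA (φ := fun u v => bump δ (ν * (u * v)) * Wt (σ₂ η) v)
    (((contDiff_bump δ).comp (by fun_prop)).mul ((contDiff_Wt _).comp contDiff_snd))
    (B := 2 + 2 * σ₂ η / ν) (by positivity) (fun u v hne => by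
      obtain ⟨f1, f2⟩ := mul_ne_zero_iff.1 hne
      have f3 : |ν * (u * v)| < 2 := not_le.1 fun h => f1 (bump_top hδ hδ1 h)
      have f4 : 1 < σ₂ η * v := not_le.1 fun h => f2 (Wt_eq_zero g3 (Or.inl h))
      have f5 : v < 2 := not_le.1 fun h => f2 (Wt_eq_zero g3 (Or.inr h))
      have f6 : 0 < v := by nlinarith
      have f7 : |u| ≤ 2 * σ₂ η / ν := by
        rw [abs_mul, abs_mul, abs_of_pos hν, abs_of_pos f6] at f3
        rw [le_div_iff₀ hν]
        nlinarith [mul_nonneg (abs_nonneg u) hν.le]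
      have f9 : 0 ≤ 2 * σ₂ η / ν := by positivity
      rw [abs_of_pos f6]
      exact ⟨by linarith, by linarith⟩)
  obtain ⟨B, hB, hB2⟩ := Mel.exists_ext (test_bump hδ hδ1) (one_le_card (X := rayS σ₂ m 1 c))
    (summable_card _) (a := ∫ y, bump δ (ν * (A₁ y * A₂ y)) * Wt (σ₂ η) (A₂ y)) fun j => by
      obtain ⟨C, hC⟩ := hG.main_term hR j
      refine ⟨C, fun t ht ht1 => ?_⟩
      have h1 := hasSum_fiber' hK hσ g1 g2 g3 g4 x hx hx2 1
        (fun α => bump δ (ν * (t * σ₁ α * (t * σ₂ α))) * Wt (σ₂ η) (t * σ₂ α))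
        (fun r => bump δ (t ^ 2 * r)) (fun α h => by
          have h2 : t * σ₂ α ≤ 0 := mul_nonpos_of_nonneg_of_nonpos ht.le (by simpa using h)
          rw [Wt_eq_zero g3 (Or.inl (by nlinarith)), mul_zero])
        (fun α h => by
          have h2 := (hasSum_Wt g3 (mul_pos ht (show 0 < σ₂ α by simpa using h))).mul_left
            (bump δ (t ^ 2 * (|σ₁ α * σ₂ α| * ν)))
          rw [mul_one] at h2
          refine h2.congr_fun fun k => ?_
          simp only [Units.val_mul, Units.val_zpow_eq_zpow_val, map_mul, map_zpow₀]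
          rw [← bump_abs]
          congr 2
          · rw [show ν * (t * (σ₁ η ^ k * σ₁ α) * (t * (σ₂ η ^ k * σ₂ α))) =
              (σ₁ η * σ₂ η) ^ k * (t ^ 2 * ((σ₁ α * σ₂ α) * ν)) by rw [mul_zpow]; ring,
              abs_mul, abs_zpow, ← hη, one_zpow, one_mul, abs_mul, abs_mul _ ν, abs_of_pos hν,
              abs_of_nonneg (sq_nonneg t)]
          · ring)
        ((hG.summable ht z).hasSum.congr_fun fun n => by
          simp only [map_smul, smul_eq_mul, hxA n])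
      have h4 := hC t ht ht1 z
      rw [Fintype.card_fin] at h4
      rw [S2, h1.tsum_eq]
      exact h4
  refine ⟨_, B, hd, hB, hp, fun s hs => ?_⟩
  rw [← hB2 s hs, ← rayS_one, zeta]
  simp only [Complex.ofReal_natCast]

/-- The zeta function of a ray class without sign condition has a double zero at the origin. -/
theorem deriv_add_eq_zero (hK : Module.finrank ℚ K = 2) (hσ : σ₂ ≠ σ₁) {m : Ideal (𝓞 K)}
    (hm0 : m ≠ ⊥) (hm1 : m ≠ ⊤) {c : (FractionalIdeal (𝓞 K)⁰ K)ˣ} (hc : Cp m c) {ρ : Kˣ}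
    (r1 : (ρ : K) + 1 ∈ loc K m m) (r2 : 0 < σ₂ ρ) {f : ℂ → ℂ} (hf : DifferentiableOn ℂ f {1}ᶜ)
    (hfs : ∀ s : ℂ, 1 < s.re →
      f s = zeta (rayClass σ₂ m c) s + zeta (rayClass σ₂ m (c * pr (𝓞 K) ρ)) s) :
    deriv f 0 = 0 := by
  classical
  obtain ⟨η, g1, g2, g3, g4⟩ := exists_gen hK hσ hm0
  obtain ⟨x, z, A₁, A₂, hx, hx2, hA, hxA⟩ := exists_param hK hσ hm0 hc
  have hν := absNorm_pos' c
  set ν : ℝ := ((absNorm (c : FractionalIdeal (𝓞 K)⁰ K) : ℚ) : ℝ) with hν_def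
  have hη := absNorm_pr hK hσ η
  rw [g1, Units.val_one, absNorm_one, Rat.cast_one] at hη
  set l := Real.log (σ₂ η) with hl_def
  have hl : 0 < l := Real.log_pos g3
  have hl1 : Real.log (σ₁ η) = -l := by
    have := congrArg Real.log hη
    rw [Real.log_one, Real.log_abs, Real.log_mul (by simp) (by simp)] at this
    linarith
  have hkap : ∀ u, kap l u ≠ 0 → |u| ≤ Real.exp (2 * l) := by
    intro u hu
    by_contra h
    refine hu (kap_zero ?_)
    rw [le_div_iff₀ hl, ← Real.log_abs, Real.le_log_iff_exp_le ((Real.exp_pos _).trans (not_le.1 h))]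
    exact (not_le.1 h).le
  obtain ⟨R, hR, hG⟩ := good_of_bound hA
    (φ := fun u v => psi (ν * (u * v)) * (kap l (ν * u / 2) * kap l v))
    ((contDiff_psi.comp (by fun_prop)).mul (((contDiff_kap hl).comp (by fun_prop)).mul
      ((contDiff_kap hl).comp contDiff_snd)))
    (B := Real.exp (2 * l) + 2 * Real.exp (2 * l) / ν) (by positivity) (fun u v hne => by
      obtain ⟨f1, f2⟩ := mul_ne_zero_iff.1 (mul_ne_zero_iff.1 hne).2
      have f3 := hkap _ f1
      have f4 := hkap _ f2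
      have f5 : |u| ≤ 2 * Real.exp (2 * l) / ν := by
        rw [abs_div, abs_mul, abs_of_pos hν, abs_two] at f3
        rw [le_div_iff₀ hν]; linarith
      have f6 : 0 ≤ 2 * Real.exp (2 * l) / ν := by positivity
      exact ⟨by linarith [Real.exp_pos (2 * l)], by linarith⟩)
  let Y := fun e : ℝ =>
    {I : Ideal (𝓞 K) // ∃ b ∈ rayS σ₂ m e c, (b : FractionalIdeal (𝓞 K)⁰ K) = I}
  let N : Y 1 ⊕ Y (-1) → ℝ :=
    Sum.elim (fun I => Nat.card (𝓞 K ⧸ I.1)) (fun I => Nat.card (𝓞 K ⧸ I.1))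
  have hx0 : ∀ n, σ₂ (x n) ≠ 0 := by
    intro n h
    have h1 := ((hx2 (x n)).1 ⟨n, rfl⟩).1
    rw [(map_eq_zero σ₂).1 h, zero_sub] at h1
    have h2 : (1 : 𝓞 K) ∈ m := mem_of_loc (K := K) (by simpa using loc_neg h1)
    exact hm1 ((Ideal.eq_top_iff_one m).2 h2)
  obtain ⟨B, hB, hB2⟩ := Mel.exists_ext (N := N) (test_logb hl)
    (by rintro (I | I) <;> exact one_le_card I)
    (fun σ hs => Summable.sum _ (summable_card _ σ hs) (summable_card _ σ hs))
    (a := ∫ y, psi (ν * (A₁ y * A₂ y)) * (kap l (ν * A₁ y / 2) * kap l (A₂ y))) fun j => by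
      obtain ⟨C, hC⟩ := hG.main_term hR j
      refine ⟨C, fun t ht ht1 => ?_⟩
      let F : K → ℝ := fun α => psi (ν * (t * σ₁ α * (t * σ₂ α))) *
        (kap l (ν * (t * σ₁ α) / 2) * kap l (t * σ₂ α))
      have hF : HasSum (fun n => F (x n)) _ := (hG.summable ht z).hasSum.congr_fun fun n => by
        simp only [F, map_smul, smul_eq_mul, hxA n]
      have hV : ∀ α : Kˣ, HasSum (fun k : ℤ => F ((η ^ k * α : Kˣ) : K))
          (logb l (t ^ 2 * (|σ₁ α * σ₂ α| * ν))) := by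
        intro α
        have a1 : σ₁ α ≠ 0 := by simp
        have a2 : σ₂ α ≠ 0 := by simp
        have e1 : ∀ k : ℤ, psi (ν * (t * σ₁ ((η ^ k * α : Kˣ) : K) *
            (t * σ₂ ((η ^ k * α : Kˣ) : K)))) = psi (t ^ 2 * (|σ₁ α * σ₂ α| * ν)) := by
          intro k
          simp only [Units.val_mul, Units.val_zpow_eq_zpow_val, map_mul, map_zpow₀]
          rw [← psi_abs, show ν * (t * (σ₁ η ^ k * σ₁ α) * (t * (σ₂ η ^ k * σ₂ α))) =
            (σ₁ η * σ₂ η) ^ k * (t ^ 2 * ((σ₁ α * σ₂ α) * ν)) by rw [mul_zpow]; ring,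
            abs_mul, abs_zpow, ← hη, one_zpow, one_mul, abs_mul, abs_mul _ ν, abs_of_pos hν,
            abs_of_nonneg (sq_nonneg t)]
        simp only [F, e1, logb]
        rcases le_total 2 (t ^ 2 * (|σ₁ α * σ₂ α| * ν)) with h | h
        · rw [psi_zero (h.trans (le_abs_self _))]
          simp only [zero_mul]
          exact hasSum_zero
        · have e2 : Real.log (t ^ 2 * (|σ₁ α * σ₂ α| * ν) / 2) =
              Real.log (ν * (t * σ₁ α) / 2) + Real.log (t * σ₂ α) := by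
            rw [← Real.log_mul (by positivity) (by positivity), ← Real.log_abs (_ * (t * σ₂ α))]
            congr 1
            rw [show ν * (t * σ₁ α) / 2 * (t * σ₂ α) = (t ^ 2 * ν / 2) * (σ₁ α * σ₂ α) by ring,
              abs_mul (t ^ 2 * ν / 2), abs_of_pos (by positivity : 0 < t ^ 2 * ν / 2)]
            ring
          rw [e2, add_div]
          refine (hasSum_kap (fun k => ?_) (fun k => ?_) ?_).mul_left _
          · simp only [Units.val_mul, Units.val_zpow_eq_zpow_val, map_mul, map_zpow₀]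
            rw [show ν * (t * (σ₁ η ^ k * σ₁ α)) / 2 = σ₁ η ^ k * (ν * (t * σ₁ α) / 2) by ring,
              Real.log_mul (zpow_ne_zero _ (by simp)) (by positivity), Real.log_zpow, hl1]
            field_simp; ring
          · simp only [Units.val_mul, Units.val_zpow_eq_zpow_val, map_mul, map_zpow₀]
            rw [show t * (σ₂ η ^ k * σ₂ α) = σ₂ η ^ k * (t * σ₂ α) by ring,
              Real.log_mul (zpow_ne_zero _ (by simp)) (by positivity), Real.log_zpow, ← hl_def]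
            field_simp; ring
          · rw [← add_div, ← e2]
            exact div_nonpos_of_nonpos_of_nonneg (Real.log_nonpos (by positivity) (by linarith))
              hl.le
      have hpart : ∀ e : ℝ, HasSum (fun I : Y e => logb l (t ^ 2 * Nat.card (𝓞 K ⧸ I.1)))
          (∑' n, if 0 < e * σ₂ (x n) then F (x n) else 0) := by
        intro e
        refine hasSum_fiber' hK hσ g1 g2 g3 g4 x hx hx2 e
          (fun α => if 0 < e * σ₂ α then F α else 0) (fun r => logb l (t ^ 2 * r))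
          (fun α h => if_neg (not_lt.2 h)) (fun α h => (hV α).congr_fun fun k => if_pos ?_)
          (hF.summable.indicator {n | 0 < e * σ₂ (x n)}).hasSum
        simp only [Units.val_mul, Units.val_zpow_eq_zpow_val, map_mul, map_zpow₀]
        rw [mul_left_comm]
        exact mul_pos (zpow_pos (one_pos.trans g3) k) h
      have h3 : HasSum (fun y => logb l (t ^ 2 * N y)) _ := HasSum.sum (hpart 1) (hpart (-1))
      have h4 := hC t ht ht1 z
      rw [Fintype.card_fin, Lat.P, ← hF.tsum_eq] at h4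
      have h5 : ∀ e : ℝ, Summable fun n => if 0 < e * σ₂ (x n) then F (x n) else 0 := fun e =>
        hF.summable.indicator {n | 0 < e * σ₂ (x n)}
      rw [S2, h3.tsum_eq, ← Summable.tsum_add (h5 1) (h5 (-1))]
      refine le_of_eq_of_le ?_ h4
      congr 2
      refine tsum_congr fun n => ?_
      rcases (hx0 n).lt_or_gt with h | h
      · simp [h, h.not_gt]
      · simp [h, h.not_gt]
  obtain ⟨A, hA1, hA2, hA3⟩ := mellin_logb hl
  refine double_zero hf hA1 hB hA2 fun s hs => ?_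
  have h3 : HasSum (fun y => (N y : ℂ) ^ (-s)) _ :=
    HasSum.sum (((summable_dedekind K hs).subtype _).hasSum.congr_fun fun I => by simp [N])
      (((summable_dedekind K hs).subtype _).hasSum.congr_fun fun I => by simp [N])
  rw [← hB2 s hs, ← hA3 s hs, hfs s hs, h3.tsum_eq, ← rayS_one, ← rayS_neg c r1 r2]
  simp only [zeta, Function.comp_def]
  ring

end Pool.Agent.Lib.MP_6bf7a3_nt
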