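import Pool.Agent.Lib.MP_6bf7a3_nt.Defs

open NumberField
open scoped nonZeroDivisors

namespace Pool.Agent.Lib.MP_6bf7a3_nt

variable {K : Type} [Field K] {O : Type} [CommRing O] [Algebra O K] [IsFractionRing O K]
  (σ₂ : K →+* ℝ)

/-- The ray class of `a` modulo `m ∞₂`. -/
def rayClass (m : Ideal O) (a : (FractionalIdeal O⁰ K)ˣ) : Set (FractionalIdeal O⁰ K)ˣ :=
  {b | ∃ α : Kˣ, (α : K) - 1 ∈ loc K m m ∧ 0 < σ₂ α ∧ b = toPrincipalIdeal O K α * a}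

/-- `x` is the derivative at `0` of the continuation of the zeta function of a ray class. -/
def IsZetaDeriv (m : Ideal O) (a : (FractionalIdeal O⁰ K)ˣ) (x : ℝ) : Prop :=
  ∃ f : ℂ → ℂ, DifferentiableOn ℂ f {1}ᶜ ∧ deriv f 0 = x ∧ ∀ s : ℂ, 1 < s.re →
    f s = zeta (rayClass σ₂ m a) s

variable [Algebra K ℝ]

/-- The Stark-Tate conjecture for `K` and the modulus `m ∞₂`. -/
def StarkTate (m : Ideal (𝓞 K)) [IsFractionRing (𝓞 K) K] : Prop :=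
  ∃ (H : IntermediateField K ℝ) (Art : (FractionalIdeal (𝓞 K)⁰ K)ˣ → (H ≃ₐ[K] H)),
    IsRCF σ₂ m H Art ∧
    ∃ ε : (FractionalIdeal (𝓞 K)⁰ K)ˣ → (𝓞 H)ˣ, ∀ a, InJ m a →
      (∃ x : ℝ, IsZetaDeriv σ₂ m a x ∧ (((ε a : 𝓞 H) : H) : ℝ) = Real.exp (-2 * x)) ∧
      (∀ b, InJ m b → Art b (((ε a : 𝓞 H) : H)) = ((ε (a * b) : 𝓞 H) : H)) ∧
      (∀ τ : H →+* ℂ, (∀ x : K, τ (algebraMap K H x) = σ₂ x) → ‖τ ((ε a : 𝓞 H) : H)‖ = 1) ∧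
      IsAbelianGalois K
        ↥(H ⊔ IntermediateField.adjoin K {Real.sqrt (((ε a : 𝓞 H) : H) : ℝ)})

end Pool.Agent.Lib.MP_6bf7a3_nt
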