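import Pool.Agent.Lib.MP_6bf7a3_nt.H5Defs

open NumberField Polynomial
open scoped nonZeroDivisors

namespace Pool.Agent.Lib.MP_6bf7a3_nt

variable {K : Type} [Field K] (σ₂ : K →+* ℝ) [Algebra K ℝ]

/-- Tate's form of the abelian rank one Stark conjecture for `K` and the modulus `m ∞₂`. -/
def TateStark (m : Ideal (𝓞 K)) [IsFractionRing (𝓞 K) K] : Prop :=
  ∃ (H : IntermediateField K ℝ) (Art : (FractionalIdeal (𝓞 K)⁰ K)ˣ → (H ≃ₐ[K] H)),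
    IsRCF σ₂ m H Art ∧ ∃ ε : (𝓞 H)ˣ,
      (∀ a, InJ m a → ∃ x : ℝ, IsZetaDeriv σ₂ m a x ∧
        Real.log |((Art a ((ε : 𝓞 H) : H) : H) : ℝ)| = -2 * x) ∧
      IsAbelianGalois K (X ^ 2 - C ((ε : 𝓞 H) : H)).SplittingField

end Pool.Agent.Lib.MP_6bf7a3_nt
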