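import Pool.Agent.Lib.MP_6bf7a3_nt.H5Quad
import Pool.Agent.Lib.MP_6bf7a3_nt.H5Defs
import Pool.Agent.Lib.helper5.Lat
import Pool.Agent.Lib.helper5.Mel

open NumberField FractionalIdeal Filter
open scoped nonZeroDivisors Topology

namespace Pool.Agent.Lib.MP_6bf7a3_nt

open Pool.Agent.Lib.helper5 Mel

/-- A smooth multiplicative partition of unity. -/
noncomputable def Wt (e u : ℝ) : ℝ :=
  Real.smoothTransition (e * u - 1) - Real.smoothTransition (u - 1)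

theorem Wt_eq_zero {e u : ℝ} (he : 1 < e) (h : e * u ≤ 1 ∨ 2 ≤ u) : Wt e u = 0 := by
  rcases h with h | h
  · have : u ≤ 1 := by nlinarith
    rw [Wt, Real.smoothTransition.zero_of_nonpos (by linarith),
      Real.smoothTransition.zero_of_nonpos (by linarith), sub_zero]
  · rw [Wt, Real.smoothTransition.one_of_one_le (by nlinarith),
      Real.smoothTransition.one_of_one_le (by linarith), sub_self]

theorem contDiff_Wt (e : ℝ) : ContDiff ℝ (⊤ : ℕ∞) (Wt e) :=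
  (Real.smoothTransition.contDiff.comp ((contDiff_const.mul contDiff_id).sub contDiff_const)).sub
    (Real.smoothTransition.contDiff.comp (contDiff_id.sub contDiff_const))

theorem hasSum_Wt {e a : ℝ} (he : 1 < e) (ha : 0 < a) : HasSum (fun k : ℤ => Wt e (e ^ k * a)) 1 := by
  have he0 : 0 < e := one_pos.trans he
  obtain ⟨N, hN⟩ := pow_unbounded_of_one_lt (max (2 / a) a) he
  have h1 : ∀ k : ℤ, (N : ℤ) ≤ k → 2 ≤ e ^ k * a := by
    intro k hk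
    have := zpow_le_zpow_right₀ he.le hk
    rw [zpow_natCast] at this
    rw [← div_le_iff₀ ha]
    exact (le_max_left _ _).trans (hN.le.trans this)
  have h2 : ∀ k : ℤ, k ≤ -(N : ℤ) → e ^ k * a ≤ 1 := by
    intro k hk
    have := zpow_le_zpow_right₀ he.le hk
    rw [zpow_neg, zpow_natCast] at this
    refine (mul_le_mul_of_nonneg_right this ha.le).trans ?_
    rw [inv_mul_le_iff₀ (pow_pos he0 N), mul_one]
    exact (le_max_right _ _).trans hN.le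
  have h3 : HasSum (fun k : ℤ => Wt e (e ^ k * a))
      (∑ k ∈ (Finset.range (2 * N)).image (fun j : ℕ => (j : ℤ) - N), Wt e (e ^ k * a)) := by
    refine hasSum_sum_of_ne_finset_zero fun k hk => Wt_eq_zero he ?_
    by_cases h : (N : ℤ) ≤ k
    · exact Or.inr (h1 k h)
    · left
      rw [← mul_assoc, mul_comm e, ← zpow_add_one₀ he0.ne']
      refine h2 _ ?_
      by_contra h'
      exact hk (Finset.mem_image.2 ⟨(k + N).toNat, Finset.mem_range.2 (by omega), by omega⟩)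
  rw [Finset.sum_image (fun x _ y _ h => by simpa using h)] at h3
  have h4 := Finset.sum_range_sub
    (fun j : ℕ => Real.smoothTransition (e ^ ((j : ℤ) - N) * a - 1)) (2 * N)
  rw [Real.smoothTransition.one_of_one_le (by linarith [h1 (((2 * N : ℕ) : ℤ) - N) (by omega)]),
    Real.smoothTransition.zero_of_nonpos (by linarith [h2 (((0 : ℕ) : ℤ) - N) (by omega)]),
    sub_zero] at h4
  have h5 : ∑ x ∈ Finset.range (2 * N), Wt e (e ^ ((x : ℤ) - N) * a) = 1 := by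
    rw [← h4]
    refine Finset.sum_congr rfl fun j _ => ?_
    rw [Wt, ← mul_assoc, mul_comm e, ← zpow_add_one₀ he0.ne']
    congr 5
    push_cast; ring
  rwa [h5] at h3

variable {K : Type} [Field K] [NumberField K] {σ₁ σ₂ : K →+* ℝ}

/-- Ray classes with a prescribed sign. -/
def rayS (σ₂ : K →+* ℝ) (m : Ideal (𝓞 K)) (e : ℝ) (c : (FractionalIdeal (𝓞 K)⁰ K)ˣ) :
    Set (FractionalIdeal (𝓞 K)⁰ K)ˣ :=
  {b | ∃ α : Kˣ, (α : K) - 1 ∈ loc K m m ∧ 0 < e * σ₂ α ∧ b = pr (𝓞 K) α * c}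

theorem card_eq_norm (hK : Module.finrank ℚ K = 2) (hσ : σ₂ ≠ σ₁) {α : Kˣ}
    {c : (FractionalIdeal (𝓞 K)⁰ K)ˣ} {I : Ideal (𝓞 K)}
    (h : ((pr (𝓞 K) α * c : (FractionalIdeal (𝓞 K)⁰ K)ˣ) : FractionalIdeal (𝓞 K)⁰ K) = I) :
    (Nat.card (𝓞 K ⧸ I) : ℝ) =
      |σ₁ α * σ₂ α| * ((absNorm (c : FractionalIdeal (𝓞 K)⁰ K) : ℚ) : ℝ) := by
  rw [← absNorm_pr hK hσ, ← Rat.cast_mul, ← map_mul, ← Units.val_mul, h, coeIdeal_absNorm,
    Rat.cast_natCast, Ideal.absNorm_apply, Submodule.cardQuot_apply]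

theorem mem_inv_iff {α : Kˣ} {c : (FractionalIdeal (𝓞 K)⁰ K)ˣ} :
    (α : K) ∈ ((c⁻¹ : (FractionalIdeal (𝓞 K)⁰ K)ˣ) : FractionalIdeal (𝓞 K)⁰ K) ↔
      ∃ I : Ideal (𝓞 K),
        ((pr (𝓞 K) α * c : (FractionalIdeal (𝓞 K)⁰ K)ˣ) : FractionalIdeal (𝓞 K)⁰ K) = I := by
  constructor
  · intro h
    have hle : ((pr (𝓞 K) α * c : (FractionalIdeal (𝓞 K)⁰ K)ˣ) : FractionalIdeal (𝓞 K)⁰ K) ≤ 1 := by
      intro x hx'
      obtain ⟨y, hy, rfl⟩ := mem_pr_mul.1 hx'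
      obtain ⟨z, hz⟩ := exists_of_mem_inv hy h
      exact (mem_one_iff _).2 ⟨z, by rw [hz, mul_comm]⟩
    obtain ⟨I, hI⟩ := le_one_iff_exists_coeIdeal.1 hle
    exact ⟨I, hI.symm⟩
  · rintro ⟨I, hI⟩
    have h1 := self_mem_pr (O := 𝓞 K) α
    rw [← mul_inv_cancel_right (pr (𝓞 K) α) c, Units.val_mul, hI] at h1
    exact mem_of_mem_coe_mul h1

theorem hasSum_fiber (hK : Module.finrank ℚ K = 2) (hσ : σ₂ ≠ σ₁) {m : Ideal (𝓞 K)}
    {η : Kˣ} (g1 : pr (𝓞 K) η = 1) (g2 : (η : K) - 1 ∈ loc K m m) (g3 : 1 < σ₂ η)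
    (g4 : ∀ u : Kˣ, pr (𝓞 K) u = 1 → (u : K) - 1 ∈ loc K m m → 0 < σ₂ u → ∃ k : ℤ, u = η ^ k)
    {c : (FractionalIdeal (𝓞 K)⁰ K)ˣ} {ι : Type} (x : ι → K) (hx : Function.Injective x)
    (hx2 : ∀ α : K, α ∈ Set.range x ↔ α - 1 ∈ loc K m m ∧
      α ∈ ((c⁻¹ : (FractionalIdeal (𝓞 K)⁰ K)ˣ) : FractionalIdeal (𝓞 K)⁰ K))
    (e T : ℝ) (hT : 0 ≤ T) {a : ℝ}
    (h : HasSum (fun n => psi (T * ((absNorm (c : FractionalIdeal (𝓞 K)⁰ K) : ℚ) : ℝ) *
      (σ₁ (x n) * σ₂ (x n))) * Wt (σ₂ η) (e * σ₂ (x n))) a) :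
    HasSum (fun I : {I : Ideal (𝓞 K) // ∃ b ∈ rayS σ₂ m e c, (b : FractionalIdeal (𝓞 K)⁰ K) = I} =>
      psi (T * Nat.card (𝓞 K ⧸ I.1))) a := by
  set Y := {I : Ideal (𝓞 K) // ∃ b ∈ rayS σ₂ m e c, (b : FractionalIdeal (𝓞 K)⁰ K) = I}
  have hη0 : 0 < σ₂ η := one_pos.trans g3
  have hz : ∀ k : ℤ, ((η ^ k : Kˣ) : K) - 1 ∈ loc K m m := by
    intro k
    induction k using Int.induction_on with
    | zero => simpa using loc_zero
    | succ k ih => rw [zpow_add_one]; exact loc_one_mul ih g2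
    | pred k ih => rw [zpow_sub_one]; exact loc_one_mul ih (loc_one_inv g2)
  have hrep : ∀ I : Y, ∃ α : Kˣ, (α : K) - 1 ∈ loc K m m ∧ 0 < e * σ₂ α ∧
      ((pr (𝓞 K) α * c : (FractionalIdeal (𝓞 K)⁰ K)ˣ) : FractionalIdeal (𝓞 K)⁰ K) = I.1 := by
    rintro ⟨I, _, ⟨α, h1, h2, rfl⟩, h3⟩
    exact ⟨α, h1, h2, h3⟩
  choose α hα1 hα2 hα3 using hrep
  have hpr : ∀ (k : ℤ) (β : Kˣ), pr (𝓞 K) (η ^ k * β) = pr (𝓞 K) β := by
    intro k β; rw [map_mul, map_zpow, g1, one_zpow, one_mul]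
  have hG : ∀ p : Y × ℤ, ∃ n, x n = ((η ^ p.2 * α p.1 : Kˣ) : K) := fun p =>
    (hx2 _).2 ⟨loc_one_mul (hz _) (hα1 _), mem_inv_iff.2 ⟨p.1.1, by rw [hpr, hα3]⟩⟩
  choose G hG using hG
  have hinj : Function.Injective G := by
    rintro ⟨I, k⟩ ⟨I', k'⟩ hp
    have h1 : η ^ k * α I = η ^ k' * α I' := Units.val_injective (by
      rw [← hG (I, k), ← hG (I', k'), hp])
    have h2 : I = I' := by
      apply Subtype.ext
      apply coeIdeal_injective (K := K)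
      have := hα3 I
      rw [← hpr k, h1, hpr, hα3] at this
      exact this.symm
    subst h2
    have h3 := congrArg (fun u : Kˣ => σ₂ u) (mul_right_cancel h1)
    simp only [Units.val_zpow_eq_zpow_val, map_zpow₀] at h3
    rw [zpow_right_injective₀ hη0 g3.ne' h3]
  have hout : ∀ n ∉ Set.range G, psi (T * ((absNorm (c : FractionalIdeal (𝓞 K)⁰ K) : ℚ) : ℝ) *
      (σ₁ (x n) * σ₂ (x n))) * Wt (σ₂ η) (e * σ₂ (x n)) = 0 := by
    intro n hn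
    rcases le_or_gt (e * σ₂ (x n)) 0 with h0 | h0
    · rw [Wt_eq_zero g3 (Or.inl (by nlinarith)), mul_zero]
    · exfalso
      have hn0 : x n ≠ 0 := by rintro h; simp [h] at h0
      let β : Kˣ := Units.mk0 _ hn0
      obtain ⟨b1, b2⟩ := (hx2 (x n)).1 ⟨n, rfl⟩
      obtain ⟨I, hI⟩ := (mem_inv_iff (α := β)).1 b2
      let J : Y := ⟨I, _, ⟨β, b1, h0, rfl⟩, hI⟩
      have h1 : pr (𝓞 K) β * c = pr (𝓞 K) (α J) * c := Units.ext (hI.trans (hα3 J).symm)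
      obtain ⟨k, hk⟩ := g4 (β * (α J)⁻¹)
        (by rw [map_mul, map_inv, mul_right_cancel h1, mul_inv_cancel])
        (loc_one_mul b1 (loc_one_inv (hα1 J))) (by
          have h2 := hα2 J
          have h3 : σ₂ ((β * (α J)⁻¹ : Kˣ) : K) = (e * σ₂ (x n)) / (e * σ₂ (α J)) := by
            have he : e ≠ 0 := by rintro rfl; simp at h0
            rw [mul_div_mul_left _ _ he]; simp [β, div_eq_mul_inv]
          rw [h3]; exact div_pos h0 h2)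
      refine hn ⟨(J, k), hx ?_⟩
      rw [hG, ← hk, inv_mul_cancel_right]; rfl
  have h1 := (hinj.hasSum_iff hout).2 h
  refine h1.prod_fiberwise fun I => ?_
  have h2 := (hasSum_Wt g3 (hα2 I)).mul_left (psi (T * Nat.card (𝓞 K ⧸ I.1)))
  rw [mul_one] at h2
  refine h2.congr_fun fun k => ?_
  have h3 : ((pr (𝓞 K) (η ^ k * α I) * c : (FractionalIdeal (𝓞 K)⁰ K)ˣ) :
      FractionalIdeal (𝓞 K)⁰ K) = I.1 := by rw [hpr, hα3]
  have hν : (0 : ℝ) ≤ ((absNorm (c : FractionalIdeal (𝓞 K)⁰ K) : ℚ) : ℝ) := by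
    exact_mod_cast absNorm_nonneg _
  rw [Function.comp_apply, hG, card_eq_norm hK hσ h3, ← psi_abs, abs_mul, abs_mul, abs_of_nonneg hT,
    abs_of_nonneg hν]
  congr 2
  · ring
  · simp only [Units.val_mul, Units.val_zpow_eq_zpow_val, map_mul, map_zpow₀]; ring

theorem exists_param (hK : Module.finrank ℚ K = 2) (hσ : σ₂ ≠ σ₁) {m : Ideal (𝓞 K)}
    (hm0 : m ≠ ⊥) {c : (FractionalIdeal (𝓞 K)⁰ K)ˣ} (hc : Cp m c) :
    ∃ (x : (Fin 2 → ℤ) → K) (z : Fin 2 → ℝ) (A₁ A₂ : (Fin 2 → ℝ) →ₗ[ℝ] ℝ),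
      Function.Injective x ∧ (∀ α : K, α ∈ Set.range x ↔ α - 1 ∈ loc K m m ∧
        α ∈ ((c⁻¹ : (FractionalIdeal (𝓞 K)⁰ K)ˣ) : FractionalIdeal (𝓞 K)⁰ K)) ∧
      LinearMap.ker (A₁.prod A₂) = ⊥ ∧
      ∀ n, A₁ (z + fun i => (n i : ℝ)) = σ₁ (x n) ∧ A₂ (z + fun i => (n i : ℝ)) = σ₂ (x n) := by
  let M : (FractionalIdeal (𝓞 K)⁰ K)ˣ :=
    Units.mk0 (m : FractionalIdeal (𝓞 K)⁰ K) (coeIdeal_ne_zero.2 hm0)
  obtain ⟨w, hw1, hw2⟩ := exists_basis hK hσ (M * c⁻¹)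
  obtain ⟨t, ht, ht2⟩ := exists_one_mem (a := c⁻¹) (m := m) (by rw [inv_inv]; exact hc.1)
  let A : (K →+* ℝ) → (Fin 2 → ℝ) →ₗ[ℝ] ℝ := fun σ => Fintype.linearCombination ℝ fun i => σ (w i)
  have hA : ∀ σ y, A σ y = ∑ i, y i * σ (w i) := fun σ y => by
    simp [A, Fintype.linearCombination_apply]
  have hL : ∀ y : K, y ∈ ((M * c⁻¹ : (FractionalIdeal (𝓞 K)⁰ K)ˣ) : FractionalIdeal (𝓞 K)⁰ K) ↔
      y ∈ loc K m m ∧ y ∈ ((c⁻¹ : (FractionalIdeal (𝓞 K)⁰ K)ˣ) : FractionalIdeal (𝓞 K)⁰ K) := by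
    intro y
    constructor
    · intro hy
      refine ⟨?_, mem_of_mem_coe_mul hy⟩
      refine FractionalIdeal.mul_induction_on hy (fun i hi j hj => ?_) (fun _ _ => loc_add)
      obtain ⟨i', hi', rfl⟩ := (mem_coeIdeal _).1 hi
      exact loc_mul' (loc_alg hi') (hc.2 j hj)
    · rintro ⟨h1, h2⟩
      obtain ⟨s, hs, v, hv, e⟩ := mem_loc.1 h1
      have : y = algebraMap (𝓞 K) K (1 - s * t) * y +
          algebraMap (𝓞 K) K v * algebraMap (𝓞 K) K t := by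
        rw [← e, map_sub, map_one, map_mul]; ring
      rw [this]
      refine add_mem' (mul_mem_mul (mem_coeIdeal_of_mem _ ?_) h2)
        (mul_mem_mul (mem_coeIdeal_of_mem _ hv) ht2)
      rw [← neg_sub]; exact m.neg_mem (one_mul_mem hs ht)
  have ht3 : algebraMap (𝓞 K) K t - 1 ∈ loc K m m := by
    simpa using loc_alg (K := K) (m := m) ht
  refine ⟨fun n => algebraMap (𝓞 K) K t + ∑ i, (n i : K) * w i,
    fun i => (w.repr (algebraMap (𝓞 K) K t) i : ℝ), A σ₁, A σ₂, ?_, fun α => ?_, ?_, fun n => ?_⟩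
  · intro n n' h
    have h1 := add_left_cancel h
    have h2 := Fintype.linearIndependent_iff.1 w.linearIndependent (fun i => (n i : ℚ) - n' i)
      (by simp only [sub_smul, Finset.sum_sub_distrib, Rat.smul_def, Rat.cast_intCast, h1,
        sub_self])
    ext i
    exact_mod_cast sub_eq_zero.1 (h2 i)
  · constructor
    · rintro ⟨n, rfl⟩
      obtain ⟨h1, h2⟩ := (hL _).1 ((hw1 _).2 ⟨n, rfl⟩)
      refine ⟨?_, add_mem' ht2 h2⟩
      have := loc_add ht3 h1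
      rwa [sub_add_eq_add_sub] at this
    · rintro ⟨h1, h2⟩
      obtain ⟨n, hn⟩ := (hw1 _).1 ((hL (α - algebraMap (𝓞 K) K t)).2
        ⟨by simpa using loc_sub h1 ht3, sub_mem' h2 ht2⟩)
      exact ⟨n, by simp only [← hn]; ring⟩
  · rw [LinearMap.ker_eq_bot']
    intro y hy
    exact hw2 y (hA σ₁ y ▸ congrArg Prod.fst hy) (hA σ₂ y ▸ congrArg Prod.snd hy)
  · have key : ∀ σ : K →+* ℝ, A σ ((fun i => (w.repr (algebraMap (𝓞 K) K t) i : ℝ)) +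
        fun i => (n i : ℝ)) = σ (algebraMap (𝓞 K) K t + ∑ i, (n i : K) * w i) := by
      intro σ
      conv_rhs => rw [← w.sum_repr (algebraMap (𝓞 K) K t)]
      simp only [hA, Pi.add_apply, add_mul, Finset.sum_add_distrib, map_add, map_sum, map_mul,
        Rat.smul_def, map_ratCast, map_intCast]
    exact ⟨key σ₁, key σ₂⟩

theorem exists_good_test {A₁ A₂ : (Fin 2 → ℝ) →ₗ[ℝ] ℝ} (hA : LinearMap.ker (A₁.prod A₂) = ⊥)
    {ν e : ℝ} (hν : 0 < ν) (he : 1 < e) :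
    ∃ R, 0 ≤ R ∧ Lat.Good R fun y => psi (ν * (A₁ y * A₂ y)) * Wt e (A₂ y) := by
  obtain ⟨C, -, hC⟩ := (A₁.prod A₂).exists_antilipschitzWith hA
  have h1 : ContDiff ℝ (⊤ : ℕ∞) A₁ := A₁.toContinuousLinearMap.contDiff
  have h2 : ContDiff ℝ (⊤ : ℕ∞) A₂ := A₂.toContinuousLinearMap.contDiff
  refine ⟨C * (2 + 2 * e / ν), by positivity,
    (contDiff_psi.comp (contDiff_const.mul (h1.mul h2))).mul ((contDiff_Wt e).comp h2),
    fun y hy => ?_⟩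
  by_contra hne
  obtain ⟨f1, f2⟩ := mul_ne_zero_iff.1 hne
  have f3 : |ν * (A₁ y * A₂ y)| < 2 := not_le.1 fun h => f1 (psi_zero h)
  have f4 : 1 < e * A₂ y := not_le.1 fun h => f2 (Wt_eq_zero he (Or.inl h))
  have f5 : A₂ y < 2 := not_le.1 fun h => f2 (Wt_eq_zero he (Or.inr h))
  have f6 : 0 < A₂ y := by nlinarith
  have f7 : |A₁ y| ≤ 2 * e / ν := by
    rw [abs_mul, abs_mul, abs_of_pos hν, abs_of_pos f6] at f3
    rw [le_div_iff₀ hν]
    nlinarith [mul_nonneg (abs_nonneg (A₁ y)) hν.le]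
  have f8 := hC.le_mul_norm (map_zero _) y
  refine absurd (f8.trans (mul_le_mul_of_nonneg_left ?_ C.2)) (not_le.2 hy)
  have f9 : 0 ≤ 2 * e / ν := by positivity
  change ‖(A₁ y, A₂ y)‖ ≤ _
  rw [Prod.norm_mk, Real.norm_eq_abs, Real.norm_eq_abs, abs_of_pos f6]
  exact max_le (by linarith) (by linarith)

instance : Countable (Ideal (𝓞 K)) := by
  rw [← Set.countable_univ_iff, ← Set.preimage_univ (f := Ideal.absNorm),
    ← Set.iUnion_of_singleton, Set.preimage_iUnion]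
  exact Set.countable_iUnion fun n => (Ideal.finite_setOfPred_absNorm_eq n).countable

theorem one_le_card {X : Set (FractionalIdeal (𝓞 K)⁰ K)ˣ}
    (I : {I : Ideal (𝓞 K) // ∃ b ∈ X, (b : FractionalIdeal (𝓞 K)⁰ K) = I}) :
    (1 : ℝ) ≤ Nat.card (𝓞 K ⧸ I.1) := by
  obtain ⟨I, b, -, hb⟩ := I
  have : Finite (𝓞 K ⧸ I) := Ring.HasFiniteQuotients.finiteQuotient
    (coeIdeal_ne_zero.1 (hb ▸ b.ne_zero))
  exact_mod_cast (Nat.card_pos : 0 < Nat.card (𝓞 K ⧸ I))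

theorem vanish_rayS (hK : Module.finrank ℚ K = 2) (hσ : σ₂ ≠ σ₁) {m : Ideal (𝓞 K)}
    (hm0 : m ≠ ⊥) {c : (FractionalIdeal (𝓞 K)⁰ K)ˣ} (hc : Cp m c) {f : ℂ → ℂ}
    (hf : DifferentiableOn ℂ f {1}ᶜ)
    (hfs : ∀ s : ℂ, 1 < s.re → f s = zeta (rayS σ₂ m 1 c) s - zeta (rayS σ₂ m (-1) c) s) :
    f 0 = 0 := by
  obtain ⟨η, g1, g2, g3, g4⟩ := exists_gen hK hσ hm0
  obtain ⟨x, z, A₁, A₂, hx, hx2, hA, hxA⟩ := exists_param hK hσ hm0 hc
  set ν : ℝ := ((absNorm (c : FractionalIdeal (𝓞 K)⁰ K) : ℚ) : ℝ) with hν_def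
  have hν : 0 < ν := by
    have h1 := absNorm_nonneg (c : FractionalIdeal (𝓞 K)⁰ K)
    have h2 : absNorm (c : FractionalIdeal (𝓞 K)⁰ K) ≠ 0 := by
      rw [Ne, absNorm_eq_zero_iff]; exact c.ne_zero
    exact Rat.cast_pos.2 (lt_of_le_of_ne h1 h2.symm)
  obtain ⟨R, hR, hG⟩ := exists_good_test hA hν g3
  set g : (Fin 2 → ℝ) → ℝ := fun y => psi (ν * (A₁ y * A₂ y)) * Wt (σ₂ η) (A₂ y) with hg
  have hG' : Lat.Good R fun y => g (-y) :=
    ⟨hG.sm.comp contDiff_neg, fun y hy => hG.supp _ (by rwa [norm_neg])⟩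
  have hG'' : Lat.Good R fun y => g y - g (-y) :=
    ⟨hG.sm.sub hG'.sm, fun y hy => by rw [hG'.supp y hy, sub_zero]; exact hG.supp y hy⟩
  obtain ⟨C, -, hC⟩ := hG''.osc_small hR 1
  let Y := fun e : ℝ =>
    {I : Ideal (𝓞 K) // ∃ b ∈ rayS σ₂ m e c, (b : FractionalIdeal (𝓞 K)⁰ K) = I}
  let N : Y 1 ⊕ Y (-1) → ℝ :=
    Sum.elim (fun I => Nat.card (𝓞 K ⧸ I.1)) (fun I => Nat.card (𝓞 K ⧸ I.1))
  let cf : Y 1 ⊕ Y (-1) → ℝ := Sum.elim (fun _ => 1) (fun _ => -1)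
  have hsc : ∀ (e : ℝ) (s : ℂ), 1 < s.re →
      Summable fun I : Y e => (Nat.card (𝓞 K ⧸ I.1) : ℂ) ^ (-s) := fun e s hs =>
    (summable_dedekind K hs).subtype _
  have hsr : ∀ (e σ : ℝ), 1 < σ → Summable fun I : Y e => (Nat.card (𝓞 K ⧸ I.1) : ℝ) ^ (-σ) := by
    intro e σ hs
    rw [← Complex.summable_ofReal]
    refine (hsc e σ (by simpa using hs)).congr fun I => ?_
    rw [Complex.ofReal_cpow (Nat.cast_nonneg _)]; simp
  refine vanish cf N (by rintro (I | I) <;> simp [cf]) (by rintro (I | I) <;> exact one_le_card I)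
    (fun σ hs => Summable.sum _ (hsr 1 σ hs) (hsr (-1) σ hs)) (C := C * ‖z‖)
    (fun t ht ht1 => ?_) hf fun s hs => ?_
  · have hray : ∀ e : ℝ, rayS σ₂ m (t * e) c = rayS σ₂ m e c := by
      intro e; ext b; simp only [rayS, Set.mem_ofPred_eq, mul_assoc, mul_pos_iff_of_pos_left ht]
    have h1 := hasSum_fiber hK hσ g1 g2 g3 g4 x hx hx2 (t * 1) (t ^ 2) (sq_nonneg t)
      ((hG.summable ht z).hasSum.congr_fun fun n => by
        simp only [hg, map_smul, smul_eq_mul, hxA n]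
        congr 2 <;> ring)
    have h2 := hasSum_fiber hK hσ g1 g2 g3 g4 x hx hx2 (t * -1) (t ^ 2) (sq_nonneg t)
      ((hG'.summable ht z).hasSum.congr_fun fun n => by
        simp only [hg, map_neg, map_smul, smul_eq_mul, hxA n]
        congr 2 <;> ring)
    rw [hray] at h1 h2
    have h3 : HasSum (fun y => cf y * psi (t ^ 2 * N y)) _ :=
      HasSum.sum (h1.congr_fun fun I => by simp [cf, N]) (h2.neg.congr_fun fun I => by simp [cf, N])
    have h4 := hC t ht ht1 0 z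
    rw [zero_add, Lat.P_zero_of_odd (by intro y; simp), sub_zero, pow_one, Lat.P,
      (hG.summable ht z).tsum_sub (hG'.summable ht z)] at h4
    rw [S, h3.tsum_eq, ← sub_eq_add_neg]
    exact h4
  · have h3 : HasSum (fun y => (cf y : ℂ) * (N y : ℂ) ^ (-s)) _ :=
      HasSum.sum ((hsc 1 s hs).hasSum.congr_fun fun I => by simp [cf, N])
        ((hsc (-1) s hs).hasSum.neg.congr_fun fun I => by simp [cf, N])
    rw [hfs s hs, h3.tsum_eq, ← sub_eq_add_neg]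
    rfl

theorem vanish_ray (hK : Module.finrank ℚ K = 2) (hσ : σ₂ ≠ σ₁) {m : Ideal (𝓞 K)}
    (hm0 : m ≠ ⊥) {c : (FractionalIdeal (𝓞 K)⁰ K)ˣ} (hc : Cp m c) {ρ : Kˣ}
    (h1 : (ρ : K) + 1 ∈ loc K m m) (h2 : 0 < σ₂ ρ) {f : ℂ → ℂ} (hf : DifferentiableOn ℂ f {1}ᶜ)
    (hfs : ∀ s : ℂ, 1 < s.re →
      f s = zeta (rayClass σ₂ m c) s - zeta (rayClass σ₂ m (c * pr (𝓞 K) ρ)) s) :
    f 0 = 0 := by
  have h3 : ((-ρ : Kˣ) : K) - 1 ∈ loc K m m := by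
    have := loc_neg h1
    rwa [neg_add, ← sub_eq_add_neg] at this
  have hneg : ∀ α : Kˣ, pr (𝓞 K) (-α) = pr (𝓞 K) α := by
    intro α
    have := pr_unit (K := K) (-1)
    rw [← neg_one_mul, map_mul]
    rw [show Units.map (algebraMap (𝓞 K) K).toMonoidHom (-1) = -1 from Units.ext (by simp)] at this
    rw [this, one_mul]
  refine vanish_rayS hK hσ hm0 hc hf fun s hs => ?_
  rw [hfs s hs]
  congr 2
  · ext b; simp [rayS, rayClass]
  · ext b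
    constructor
    · rintro ⟨α, f1, f2, rfl⟩
      refine ⟨α * -ρ, loc_one_mul f1 h3, by simpa using mul_pos f2 h2, ?_⟩
      rw [map_mul, hneg, mul_assoc, mul_comm c]
    · rintro ⟨α, f1, f2, rfl⟩
      refine ⟨α * (-ρ)⁻¹, loc_one_mul f1 (loc_one_inv h3), ?_, ?_⟩
      · have := mul_pos f2 (inv_pos.2 h2)
        simpa using this
      · rw [map_mul, map_inv, hneg, mul_comm c, mul_assoc, inv_mul_cancel_left]

end Pool.Agent.Lib.MP_6bf7a3_nt
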