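import Pool.Agent.Lib.MP_6bf7a3_nt.H5Compat
import Pool.Agent.Lib.MP_6bf7a3_nt.H5Vanish

open NumberField FractionalIdeal Filter Topology
open scoped nonZeroDivisors

namespace Pool.Agent.Lib.MP_6bf7a3_nt

variable {K : Type} [Field K] [NumberField K] {σ₂ : K →+* ℝ}

theorem exists_gcd_decomp {f : Ideal (𝓞 K)} (hf0 : f ≠ ⊥) (hf1 : f ≠ ⊤)
    {a : (FractionalIdeal (𝓞 K)⁰ K)ˣ} (ha : Flat f a) :
    ∃ (d n : Ideal (𝓞 K)) (D a' : (FractionalIdeal (𝓞 K)⁰ K)ˣ), f = d * n ∧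
      (D : FractionalIdeal (𝓞 K)⁰ K) = d ∧ a = D * a' ∧ Cp n a' ∧ Flat f a' := by
  obtain ⟨α, c, C, hC, e, rfl⟩ := exists_decomp a hf1 (finite_ideals_ge hf0)
  have hc := cp_of_coe e hC
  obtain ⟨s, hs, y, -, h⟩ := mem_loc.1 (loc_of_flat_pr_mul hc.2 ha)
  have hs0 : algebraMap (𝓞 K) K s ≠ 0 := by
    intro h
    have : s = 0 := IsFractionRing.injective (𝓞 K) K (by rw [h, map_zero])
    rw [this, zero_sub, Ideal.neg_mem_iff, ← Ideal.eq_top_iff_one] at hs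
    exact hf1 hs
  let σ : Kˣ := Units.mk0 _ hs0
  have hσ : Cp f (pr (𝓞 K) σ) := cp_pr_of_one (by simpa [σ] using loc_alg (K := K) (m := f) hs)
  obtain ⟨n, hn⟩ : Ideal.span {y} ⊔ f ∣ f := Ideal.dvd_iff_le.2 le_sup_right
  obtain ⟨g, hg⟩ : Ideal.span {y} ⊔ f ∣ Ideal.span {y} := Ideal.dvd_iff_le.2 le_sup_left
  generalize hd : Ideal.span {y} ⊔ f = d at hn hg
  have hd0 : d ≠ ⊥ := by rintro rfl; exact hf0 (by simpa using hn)
  have hy0 : y ≠ 0 := by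
    rintro rfl
    exact mul_ne_zero hs0 α.ne_zero (by simpa using h)
  have hg0 : g ≠ ⊥ := by rintro rfl; exact hy0 (by simpa using hg)
  have hgn : g ⊔ n = ⊤ := by
    apply mul_left_cancel₀ hd0
    rw [Ideal.mul_sup, ← hn, ← hg, hd, Ideal.mul_top]
  have hfn : f ≤ n := by rw [hn]; exact Ideal.mul_le_right
  let D : (FractionalIdeal (𝓞 K)⁰ K)ˣ := Units.mk0 _ (coeIdeal_ne_zero.2 hd0)
  let G : (FractionalIdeal (𝓞 K)⁰ K)ˣ := Units.mk0 _ (coeIdeal_ne_zero.2 hg0)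
  have e1 : pr (𝓞 K) (σ * α) = D * G := by
    ext1
    rw [coe_toPrincipalIdeal, Units.val_mul, Units.val_mul, Units.val_mk0, Units.val_mk0,
      Units.val_mk0, h, ← coeIdeal_mul, ← hg, coeIdeal_span_singleton]
  refine ⟨d, n, D, G * ((pr (𝓞 K) σ)⁻¹ * c), hn, rfl, ?_,
    (cp_of_coe rfl hgn).mul ((hσ.inv.mul hc).mono hfn), (flat_of_coe rfl).mul (hσ.inv.mul hc).1⟩
  rw [← mul_assoc, ← e1, map_mul, mul_comm (pr (𝓞 K) σ), mul_assoc, mul_inv_cancel_left]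

theorem mrel_iff_ray {f d n : Ideal (𝓞 K)} (hf0 : f ≠ ⊥) (hf1 : f ≠ ⊤) (hf : f = d * n)
    {D a' : (FractionalIdeal (𝓞 K)⁰ K)ˣ} (hD : (D : FractionalIdeal (𝓞 K)⁰ K) = d)
    (h1 : Cp n a') (h2 : Flat f a') {b : (FractionalIdeal (𝓞 K)⁰ K)ˣ} :
    MRel σ₂ f (D * b) (D * a') ↔ b ∈ rayClass σ₂ n a' ∧ Flat f b := by
  have hfn : f ≤ n := by rw [hf]; exact Ideal.mul_le_right
  obtain ⟨α, c, C, hC, e, hα⟩ := exists_decomp (D * a') hf1 (finite_ideals_ge hf0)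
  have hc := cp_of_coe e hC
  have hα1 := loc_of_flat_pr_mul hc.2 (hα ▸ (flat_of_coe hD).mul h2)
  have hdn : ∀ y ∈ f, ∀ z ∈ ((D⁻¹ : (FractionalIdeal (𝓞 K)⁰ K)ˣ) : FractionalIdeal (𝓞 K)⁰ K),
      ∃ v ∈ n, algebraMap (𝓞 K) K v = algebraMap (𝓞 K) K y * z := by
    intro y hy z hz
    have h3 : algebraMap (𝓞 K) K y * z ∈ (D * n : FractionalIdeal (𝓞 K)⁰ K) * (D⁻¹ : _ˣ) := by
      refine mul_mem_mul ?_ hz
      rw [hD, ← coeIdeal_mul, ← hf]; exact mem_coeIdeal_of_mem _ hy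
    rw [mul_right_comm, ← Units.val_mul, mul_inv_cancel, Units.val_one, one_mul] at h3
    exact (mem_coeIdeal _).1 h3
  have hsinv : ∀ {s : 𝓞 K}, s - 1 ∈ f → (algebraMap (𝓞 K) K s)⁻¹ ∈ loc K f ⊤ ∧
      algebraMap (𝓞 K) K s ≠ 0 := by
    intro s hs
    have hs0 : algebraMap (𝓞 K) K s ≠ 0 := by
      intro h
      have : s = 0 := IsFractionRing.injective (𝓞 K) K (by rw [h, map_zero])
      rw [this, zero_sub, Ideal.neg_mem_iff, ← Ideal.eq_top_iff_one] at hs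
      exact hf1 hs
    exact ⟨mem_loc.2 ⟨s, hs, 1, trivial, by rw [mul_inv_cancel₀ hs0, map_one]⟩, hs0⟩
  have ea : a' = pr (𝓞 K) α * (D⁻¹ * c) := by
    rw [mul_left_comm, ← hα, inv_mul_cancel_left]
  rw [hα, mrel_iff hc hα1]
  constructor
  · rintro ⟨β, e1, g1, g2⟩
    have eb : b = pr (𝓞 K) β * (D⁻¹ * c) := by
      rw [mul_left_comm, ← e1, inv_mul_cancel_left]
    obtain ⟨s, hs, y, hy, e2⟩ := mem_loc.1 g1
    obtain ⟨s1, s0⟩ := hsinv hs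
    have key : ∀ z ∈ ((D⁻¹ * c : (FractionalIdeal (𝓞 K)⁰ K)ˣ) : FractionalIdeal (𝓞 K)⁰ K),
        ((β : K) - α) * z ∈ loc K f n := by
      intro z hz
      refine FractionalIdeal.mul_induction_on hz (fun i hi j hj => ?_) fun x x' hx hx' => ?_
      · obtain ⟨v, hv, e3⟩ := hdn y hy i hi
        have : ((β : K) - α) * (i * j) =
            (algebraMap (𝓞 K) K s)⁻¹ * (j * algebraMap (𝓞 K) K v) := by
          rw [e3, ← e2]; field_simp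
        rw [this]
        exact loc_mul s1 (loc_mul (hc.1 j hj) (loc_alg hv))
      · rw [mul_add]; exact loc_add hx hx'
    refine ⟨⟨β * α⁻¹, ?_, ?_, ?_⟩, fun x hx => ?_⟩
    · obtain ⟨t, ht, ht2⟩ := exists_one_mem h1.2
      rw [ea] at ht2
      obtain ⟨z, hz, e3⟩ := mem_pr_mul.1 ht2
      obtain ⟨s', hs', y', hy', e4⟩ := mem_loc.1 (loc_mono hfn le_rfl (key z hz))
      refine mem_loc.2 ⟨s' * t, one_mul_mem hs' ht, y', hy', ?_⟩
      rw [map_mul, e3, ← e4, Units.val_mul, Units.val_inv_eq_inv_val]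
      field_simp
    · have h3 := sign_mul_congr (γ := α⁻¹) g2
      rw [mul_inv_cancel, Units.val_one, map_one, sign_one, sign_eq_one_iff] at h3
      exact h3
    · rw [eb, ea, ← mul_assoc (toPrincipalIdeal (𝓞 K) K (β * α⁻¹)), ← map_mul,
        inv_mul_cancel_right]
    · rw [eb] at hx
      obtain ⟨z, hz, rfl⟩ := mem_pr_mul.1 hx
      have := loc_add (loc_top (key z hz)) (h2 _ (by rw [ea]; exact mem_pr_mul.2 ⟨z, hz, rfl⟩))
      rwa [← add_mul, sub_add_cancel] at this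
  · rintro ⟨⟨γ, g1, g2, rfl⟩, g3⟩
    refine ⟨γ * α, by rw [mul_left_comm, hα, map_mul, mul_assoc], ?_, ?_⟩
    · obtain ⟨t, ht, ht2⟩ := exists_one_mem hc.2
      obtain ⟨t1, t0⟩ := hsinv ht
      have key : ∀ z ∈ (D : FractionalIdeal (𝓞 K)⁰ K) * (a' : FractionalIdeal (𝓞 K)⁰ K),
          ((γ : K) - 1) * z ∈ loc K f f := by
        intro z hz
        refine FractionalIdeal.mul_induction_on hz (fun i hi j hj => ?_) fun x x' hx hx' => ?_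
        · rw [hD] at hi
          obtain ⟨i, hi', rfl⟩ := (mem_coeIdeal _).1 hi
          have h3 : ((γ : K) - 1) * j ∈ loc K f ⊤ := by
            rw [sub_mul, one_mul]
            exact loc_sub (g3 _ (mem_pr_mul.2 ⟨j, hj, rfl⟩)) (h2 j hj)
          obtain ⟨s, hs, y, -, e3⟩ := mem_loc.1 h3
          have h4 : y ∈ n := mem_of_loc (K := K) (by
            rw [← e3]; exact loc_mul (loc_alg_top s) (loc_mul' g1 (h1.1 j hj)))
          refine mem_loc.2 ⟨s, hs, i * y, hf ▸ Ideal.mul_mem_mul hi' h4, ?_⟩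
          rw [map_mul, ← e3]; ring
        · rw [mul_add]; exact loc_add hx hx'
      have h3 := key (α * algebraMap (𝓞 K) K t) (by
        rw [← Units.val_mul, hα]; exact mem_pr_mul.2 ⟨_, ht2, rfl⟩)
      have : ((γ * α : Kˣ) : K) - α = (algebraMap (𝓞 K) K t)⁻¹ *
          (((γ : K) - 1) * (α * algebraMap (𝓞 K) K t)) := by
        rw [Units.val_mul]; field_simp
      rw [this]; exact loc_mul t1 h3
    · rw [Units.val_mul, map_mul, sign_mul, sign_pos g2, one_mul]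

theorem zeta_mrel {f d n : Ideal (𝓞 K)} (hf0 : f ≠ ⊥) (hf1 : f ≠ ⊤) (hf : f = d * n)
    {D a' : (FractionalIdeal (𝓞 K)⁰ K)ˣ} (hD : (D : FractionalIdeal (𝓞 K)⁰ K) = d)
    (h1 : Cp n a') (h2 : Flat f a') (s : ℂ) :
    zeta {b | MRel σ₂ f b (D * a')} s =
      (Nat.card (𝓞 K ⧸ d) : ℂ) ^ (-s) * zeta (rayClass σ₂ n a') s := by
  have hd0 : d ≠ ⊥ := by rintro rfl; exact hf0 (by simpa using hf)
  have hfd : f ≤ d := by rw [hf]; exact Ideal.mul_le_left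
  let g : {I : Ideal (𝓞 K) // ∃ b ∈ rayClass σ₂ n a', (b : FractionalIdeal (𝓞 K)⁰ K) = I} →
      {I : Ideal (𝓞 K) // ∃ b ∈ {b | MRel σ₂ f b (D * a')}, (b : FractionalIdeal (𝓞 K)⁰ K) = I} :=
    fun I => ⟨d * I.1, by
      obtain ⟨b, hb, e⟩ := I.2
      exact ⟨D * b, (mrel_iff_ray hf0 hf1 hf hD h1 h2).2 ⟨hb, flat_of_coe e⟩,
        by rw [Units.val_mul, hD, e, coeIdeal_mul]⟩⟩
  have hg : Function.Bijective g := by
    refine ⟨fun I J h => Subtype.ext (mul_left_cancel₀ hd0 (congrArg Subtype.val h)), ?_⟩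
    rintro ⟨I, b, hb, e⟩
    have hb' : MRel σ₂ f (D * (D⁻¹ * b)) (D * a') := by rwa [mul_inv_cancel_left]
    obtain ⟨g1, g2⟩ := (mrel_iff_ray hf0 hf1 hf hD h1 h2).1 hb'
    have hle : ((D⁻¹ * b : (FractionalIdeal (𝓞 K)⁰ K)ˣ) : FractionalIdeal (𝓞 K)⁰ K) ≤ 1 := by
      intro z hz
      obtain ⟨s, hs, y, -, e2⟩ := mem_loc.1 (g2 z hz)
      have h3 : algebraMap (𝓞 K) K (s - 1) * z ∈ (b : FractionalIdeal (𝓞 K)⁰ K) := by
        rw [← mul_inv_cancel_left D b, Units.val_mul, hD]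
        exact mul_mem_mul (mem_coeIdeal_of_mem _ (hfd hs)) hz
      rw [e] at h3
      obtain ⟨w, -, e3⟩ := (mem_coeIdeal _).1 h3
      exact (mem_one_iff _).2 ⟨y - w, by rw [map_sub, e3, ← e2, map_sub, map_one]; ring⟩
    obtain ⟨J, hJ⟩ := le_one_iff_exists_coeIdeal.1 hle
    refine ⟨⟨J, _, g1, hJ.symm⟩, Subtype.ext (coeIdeal_injective (K := K) ?_)⟩
    change ((d * J : Ideal (𝓞 K)) : FractionalIdeal (𝓞 K)⁰ K) = I
    rw [coeIdeal_mul, hJ, ← hD, ← Units.val_mul, mul_inv_cancel_left, e]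
  rw [zeta, zeta, ← (Equiv.ofBijective g hg).tsum_eq, ← tsum_mul_left]
  refine tsum_congr fun I => ?_
  change ((Ideal.absNorm (d * I.1) : ℕ) : ℂ) ^ (-s) =
    ((Ideal.absNorm d : ℕ) : ℂ) ^ (-s) * ((Ideal.absNorm I.1 : ℕ) : ℂ) ^ (-s)
  rw [map_mul, Nat.cast_mul, Complex.natCast_mul_natCast_cpow]

theorem rayClass_mul_pr {n : Ideal (𝓞 K)} {α : Kˣ} (h1 : (α : K) - 1 ∈ loc K n n) (h2 : 0 < σ₂ α)
    (c : (FractionalIdeal (𝓞 K)⁰ K)ˣ) : rayClass σ₂ n (c * pr (𝓞 K) α) = rayClass σ₂ n c := by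
  ext b
  constructor
  · rintro ⟨β, g1, g2, rfl⟩
    exact ⟨β * α, loc_one_mul g1 h1, pos_mul g2 h2, by rw [map_mul, mul_assoc, mul_comm c]⟩
  · rintro ⟨β, g1, g2, rfl⟩
    exact ⟨β * α⁻¹, loc_one_mul g1 (loc_one_inv h1), pos_mul g2 (pos_inv h2),
      by rw [map_mul, map_inv, mul_comm c, mul_assoc, inv_mul_cancel_left]⟩

theorem isZDeriv_of {f d n : Ideal (𝓞 K)} (hf0 : f ≠ ⊥) (hf1 : f ≠ ⊤) (hf : f = d * n)
    {D a' : (FractionalIdeal (𝓞 K)⁰ K)ˣ} (hD : (D : FractionalIdeal (𝓞 K)⁰ K) = d)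
    (h1 : Cp n a') (h2 : Flat f a') {ρ : Kˣ} (r1 : (ρ : K) + 1 ∈ loc K f f) (r2 : 0 < σ₂ ρ)
    {F : ℂ → ℂ} (hF : DifferentiableOn ℂ F {1}ᶜ) (hF0 : F 0 = 0) {x : ℝ} (hx : deriv F 0 = x)
    (hs : ∀ s : ℂ, 1 < s.re →
      F s = zeta (rayClass σ₂ n a') s - zeta (rayClass σ₂ n (a' * pr (𝓞 K) ρ)) s) :
    IsZDeriv σ₂ f (D * a') x := by
  have hd0 : d ≠ ⊥ := by rintro rfl; exact hf0 (by simpa using hf)
  have hfn : f ≤ n := by rw [hf]; exact Ideal.mul_le_right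
  have : Finite (𝓞 K ⧸ d) := Ring.HasFiniteQuotients.finiteQuotient hd0
  have hN : (Nat.card (𝓞 K ⧸ d) : ℂ) ≠ 0 := Nat.cast_ne_zero.2 Nat.card_pos.ne'
  have hdiff : Differentiable ℂ fun s : ℂ => (Nat.card (𝓞 K ⧸ d) : ℂ) ^ (-s) :=
    differentiable_neg.const_cpow (Or.inl hN)
  have hρ := cp_pr_of_neg_one r1
  refine ⟨fun s => (Nat.card (𝓞 K ⧸ d) : ℂ) ^ (-s) * F s, hdiff.differentiableOn.mul hF, ?_,
    fun s hs' => ?_⟩
  · rw [deriv_fun_mul (hdiff 0) (hF.differentiableAt compl_one_mem_nhds), hF0, hx]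
    simp
  · rw [rclass_eq hf1 (finite_ideals_ge hf0) ((flat_of_coe hD).mul h2) r1 r2, mul_assoc,
      zeta_mrel hf0 hf1 hf hD h1 h2, zeta_mrel hf0 hf1 hf hD (h1.mul (hρ.mono hfn)) (h2.mul hρ.1),
      ← mul_sub, ← hs s hs']

variable [Algebra K ℝ]

theorem msc_of_starkTate (hK : Module.finrank ℚ K = 2) (hσ : σ₂ ≠ algebraMap K ℝ)
    {f : Ideal (𝓞 K)} (hf0 : f ≠ ⊥) (hf1 : f ≠ ⊤)
    (hST : ∀ n : Ideal (𝓞 K), n ∣ f → n ≠ ⊤ → StarkTate σ₂ n) : MSC σ₂ f := by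
  obtain ⟨H, Art, hR, -⟩ := hST f dvd_rfl hf1
  have hA := hR.isArt hf1
  have : Finite (𝓞 K ⧸ f) := Ring.HasFiniteQuotients.finiteQuotient hf0
  obtain ⟨w, hw, hw2⟩ := exists_neg (n := f) σ₂
  have hw0 : -algebraMap (𝓞 K) K w ≠ 0 := by
    rw [neg_ne_zero]; intro h0; rw [h0, map_zero] at hw2; exact lt_irrefl _ hw2
  let ρ : Kˣ := Units.mk0 _ hw0
  have r1 : (ρ : K) + 1 ∈ loc K f f := by
    have := loc_neg (loc_alg (K := K) (m := f) hw)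
    rwa [map_sub, map_one, neg_sub, sub_eq_neg_add] at this
  have r2 : 0 < σ₂ ρ := by simpa [ρ] using hw2
  have key : ∀ a, Flat f a → ∃ e : (𝓞 H)ˣ,
      (∀ b, Cp f b → ∃ y : ℝ, IsZDeriv σ₂ f (a * b) y ∧
        ((Art b ((e : 𝓞 H) : H) : H) : ℝ) = Real.exp (-y)) ∧
      (∀ τ : H →+* ℂ, (∀ x : K, τ (algebraMap K H x) = σ₂ x) → ‖τ ((e : 𝓞 H) : H)‖ = 1) ∧
      IsAbelianGalois K ↥(H ⊔ IntermediateField.adjoin K {Real.sqrt (((e : 𝓞 H) : H) : ℝ)}) := by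
    intro a ha
    obtain ⟨d, n, D, a', hf, hD, rfl, h1, h2⟩ := exists_gcd_decomp hf0 hf1 ha
    have hfn : f ≤ n := by rw [hf]; exact Ideal.mul_le_right
    have hn0 : n ≠ ⊥ := fun h => hf0 (le_bot_iff.1 (h ▸ hfn))
    have r1' := loc_mono hfn hfn r1
    by_cases htriv : ∃ α : Kˣ, pr (𝓞 K) ρ = pr (𝓞 K) α ∧ (α : K) - 1 ∈ loc K n n ∧ 0 < σ₂ α
    · obtain ⟨α, e, g1, g2⟩ := htriv
      refine ⟨1, fun b hb => ⟨0, ?_, by simp⟩, fun τ _ => by simp, ?_⟩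
      · rw [mul_assoc]
        refine isZDeriv_of hf0 hf1 hf hD (h1.mul (hb.mono hfn)) (h2.mul hb.1) r1 r2
          (F := fun _ => 0) (differentiableOn_const _) rfl (by simp) fun s _ => ?_
        rw [e, rayClass_mul_pr g1 g2, sub_self]
      · refine ab_mono (sup_le le_rfl ?_) hR.2.1
        rw [IntermediateField.adjoin_simple_le_iff]
        simp
    have hn1 : n ≠ ⊤ := by
      rintro rfl
      exact htriv ⟨ρ, rfl, mem_loc.2 ⟨0, trivial, 0, trivial, by simp⟩, r2⟩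
    obtain ⟨H', Art', hR', ε, hε⟩ := hST n (Ideal.dvd_iff_le.2 hfn) hn1
    simp only [inJ_iff hn1] at hε
    have hA' := hR'.isArt hn1
    have hρ := cp_pr_of_neg_one r1'
    obtain ⟨hle, hcomp⟩ := rcf_le hf0 hfn hn1 hR hR'
    obtain ⟨e, he⟩ := unit_descend (H := H) (ε a') (hle ((ε a' : 𝓞 H') : H').2)
    have he' : ((e : 𝓞 H) : H) = IntermediateField.inclusion hle ((ε a' : 𝓞 H') : H') :=
      Subtype.ext he
    have := hR'.1
    obtain ⟨τ, hτ⟩ : ∃ τ : H' →+* ℂ, ∀ x : K, τ (algebraMap K H' x) = σ₂ x :=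
      ⟨ComplexEmbedding.lift H' (Complex.ofRealHom.comp σ₂),
        fun x => ComplexEmbedding.lift_algebraMap_apply H' _ x⟩
    have hconj := (art_conj hn0 hn1 hR' r1' r2 τ hτ).resolve_left
      fun h => htriv ((hA'.ker _ hρ).1 h)
    refine ⟨e, fun b hb => ?_, fun τ' hτ' => ?_, ?_⟩
    · have hc := h1.mul (hb.mono hfn)
      obtain ⟨⟨x₁, ⟨F₁, d₁, e₁, z₁⟩, v₁⟩, g₁, n₁, -⟩ := hε _ hc
      obtain ⟨⟨x₂, ⟨F₂, d₂, e₂, z₂⟩, v₂⟩, -⟩ := hε _ (hc.mul hρ)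
      have h3 : ((ε (a' * b) : 𝓞 H') : H') * ((ε (a' * b * pr (𝓞 K) ρ) : 𝓞 H') : H') = 1 := by
        apply τ.injective
        rw [← g₁ _ hρ, map_mul, hconj, map_one, Complex.star_def, Complex.mul_conj', n₁ τ hτ]
        simp
      have h4 := congrArg (fun y : H' => (y : ℝ)) h3
      simp only [MulMemClass.coe_mul, OneMemClass.coe_one, v₁, v₂, ← Real.exp_add,
        Real.exp_eq_one_iff] at h4
      have hs : ∀ s : ℂ, 1 < s.re → F₁ s - F₂ s = zeta (rayClass σ₂ n (a' * b)) s -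
          zeta (rayClass σ₂ n (a' * b * pr (𝓞 K) ρ)) s := fun s hs => by rw [z₁ s hs, z₂ s hs]
      refine ⟨2 * x₁, ?_, ?_⟩
      · rw [mul_assoc]
        refine isZDeriv_of hf0 hf1 hf hD hc (h2.mul hb.1) r1 r2 (F := fun s => F₁ s - F₂ s)
          (d₁.sub d₂) (vanish_ray hK hσ hn0 hc r1' r2 (d₁.sub d₂) hs) ?_ hs
        rw [deriv_fun_sub (d₁.differentiableAt compl_one_mem_nhds)
          (d₂.differentiableAt compl_one_mem_nhds), e₁, e₂, ← Complex.ofReal_sub]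
        congr 1; linarith
      · rw [he', hcomp b hb, (hε _ h1).2.1 b (hb.mono hfn), v₁, neg_mul]
    · rw [he']
      exact (hε _ h1).2.2.1 (τ'.comp (IntermediateField.inclusion hle).toRingHom) fun x => hτ' x
    · refine ab_mono ?_ (ab_sup hR.2.1 (hε _ h1).2.2.2)
      rw [he]
      exact sup_le_sup_left le_sup_right _
  choose! ε hε using key
  refine ⟨H, Art, hR, ε, fun a ha => ⟨?_, fun b hb => ?_, (hε a ha).2.1, (hε a ha).2.2⟩⟩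
  · simpa [hA.one] using (hε a ha).1 1 cp_one
  · rw [inJ_iff hf1] at hb
    obtain ⟨y, g1, g2⟩ := (hε a ha).1 b hb
    obtain ⟨y', g1', g2'⟩ := (hε _ (ha.mul hb.1)).1 1 cp_one
    rw [mul_one] at g1'
    rw [hA.one] at g2'
    apply Subtype.ext
    rw [g2, g1.unique g1', ← g2']
    rfl

theorem msc_order_of_starkTate (hK : Module.finrank ℚ K = 2) (hσ : σ₂ ≠ algebraMap K ℝ)
    {O : Type} [CommRing O] [Algebra O K] [IsFractionRing O K] [Algebra O (𝓞 K)]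
    [IsScalarTower O (𝓞 K) K] {m : Ideal O} (hm0 : m ≠ ⊥) (hm1 : m ≠ ⊤)
    (hST : ∀ n : Ideal (𝓞 K), n ∣ cond K m → n ≠ ⊤ → StarkTate σ₂ n) : MSC σ₂ m :=
  have S := setup_cond (K := K) hm0 hm1
  main hm0 hm1 (msc_of_starkTate hK hσ S.hf0 S.f1 hST)

end Pool.Agent.Lib.MP_6bf7a3_nt
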