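import Pool.Agent.Lib.MP_6bf7a3_nt.H5Defs2
import Pool.Agent.Lib.MP_6bf7a3_nt.H5Main
import Pool.Agent.Lib.MP_6bf7a3_nt.H5Cont

open NumberField FractionalIdeal Filter Topology Polynomial
open scoped nonZeroDivisors

namespace Pool.Agent.Lib.MP_6bf7a3_nt

variable {K : Type} [Field K] [NumberField K] [Algebra K ℝ] {σ₂ : K →+* ℝ}

theorem exists_sign {H : IntermediateField K ℝ} {ε : H} (hε : ε ≠ 0)
    (hab : IsAbelianGalois K (X ^ 2 - C ε).SplittingField) :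
    ∃ e : H, (e = ε ∨ e = -ε) ∧ ∀ g : H ≃ₐ[K] H, 0 < ((g e : H) : ℝ) ∧
      IsAbelianGalois K ↥(H ⊔ IntermediateField.adjoin K {Real.sqrt ((g e : H) : ℝ)}) := by
  set L := (X ^ 2 - C ε).SplittingField
  obtain ⟨y, hy⟩ : ∃ y : L, y ^ 2 = algebraMap H L ε := by
    obtain ⟨y, hy⟩ := (SplittingField.splits (X ^ 2 - C ε)).exists_eval_eq_zero
      (by rw [degree_map, degree_X_pow_sub_C two_pos]; decide)
    exact ⟨y, sub_eq_zero.1 (by simpa using hy)⟩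
  let φ : L →+* ℂ := ComplexEmbedding.lift L (Complex.ofRealHom.comp H.val.toRingHom)
  have hφ : ∀ x : H, φ (algebraMap H L x) = ((x : ℝ) : ℂ) := fun x =>
    ComplexEmbedding.lift_algebraMap_apply L _ x
  have hφK : ∀ x : K, φ (algebraMap K L x) = ((algebraMap K ℝ x : ℝ) : ℂ) := fun x => by
    rw [IsScalarTower.algebraMap_apply K H L, hφ]; rfl
  obtain ⟨c, hc⟩ := ComplexEmbedding.exists_comp_symm_eq_of_comp_eq (k := K) φ
    (ComplexEmbedding.conjugate φ) (by ext x; simp [hφK])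
  have hc1 : ComplexEmbedding.IsConj φ c := ComplexEmbedding.isConj_symm.1 hc.symm
  have hcy : (c y) ^ 2 = y ^ 2 := by
    rw [← map_pow, hy]
    apply φ.injective
    rw [hc1.eq, hφ]; simp
  have hlift : ∀ g : H ≃ₐ[K] H, ∃ g' : L ≃ₐ[K] L, φ (g' y) ^ 2 = (((g ε : H) : ℝ) : ℂ) ∧
      star (φ (g' y)) = φ (g' (c y)) := fun g => ⟨g.liftNormal L, by
        rw [← map_pow, ← map_pow, hy, AlgEquiv.liftNormal_commutes, hφ], by
        rw [← hc1.eq, ← AlgEquiv.mul_apply, mul_comm', AlgEquiv.mul_apply]⟩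
  let _ : Algebra K ℂ := (Complex.ofRealHom.comp (algebraMap K ℝ)).toAlgebra
  let φ' : L →ₐ[K] ℂ := { φ with commutes' := hφK }
  let ψ : ℝ →ₐ[K] ℂ := { Complex.ofRealHom with commutes' := fun _ => rfl }
  have hI : IsIntegral K Complex.I :=
    IsIntegral.of_pow (n := 4) (by norm_num) (by rw [Complex.I_pow_four]; exact isIntegral_one)
  have hN : IsAbelianGalois K ↥(φ'.fieldRange ⊔ IntermediateField.adjoin K {Complex.I}) := by
    refine ab_sup (IsAbelianGalois.of_algHom φ'.equivFieldRange.symm.toAlgHom) ?_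
    have : IsCyclotomicExtension {4} K (IntermediateField.adjoin K {Complex.I}) := by
      change IsCyclotomicExtension {4} K (IntermediateField.adjoin K {Complex.I}).toSubalgebra
      rw [IntermediateField.adjoin_simple_toSubalgebra_of_isAlgebraic hI.isAlgebraic]
      exact Complex.isPrimitiveRoot_I.adjoin_isCyclotomicExtension K
    exact IsCyclotomicExtension.isAbelianGalois {4} K _
  have key : ∀ r : ℝ, (r : ℂ) ∈ φ'.fieldRange ⊔ IntermediateField.adjoin K {Complex.I} →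
      IsAbelianGalois K ↥(H ⊔ IntermediateField.adjoin K {r}) := by
    intro r hr
    have h1 : IsAbelianGalois K ((H ⊔ IntermediateField.adjoin K {r}).map ψ) := by
      refine ab_mono ?_ hN
      rw [IntermediateField.map_le_iff_le_comap]
      refine sup_le (fun x hx => ?_) (IntermediateField.adjoin_simple_le_iff.2 hr)
      exact (le_sup_left : φ'.fieldRange ≤ _) ⟨algebraMap H L ⟨x, hx⟩, hφ _⟩
    exact IsAbelianGalois.of_algHom (IntermediateField.equivMap _ ψ).toAlgHom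
  have hne : ∀ g : H ≃ₐ[K] H, ((g ε : H) : ℝ) ≠ 0 := fun g => by simpa using hε
  rcases sq_eq_sq_iff_eq_or_eq_neg.1 hcy with h | h
  · refine ⟨ε, Or.inl rfl, fun g => ?_⟩
    obtain ⟨g', h1, h2⟩ := hlift g
    rw [h] at h2
    have h3 : 0 ≤ ((g ε : H) : ℝ) := by
      rw [sq] at h1
      nth_rw 2 [← h2] at h1
      rw [Complex.star_def, Complex.mul_conj] at h1
      rw [← Complex.ofReal_injective h1]; exact Complex.normSq_nonneg _
    refine ⟨lt_of_le_of_ne h3 (hne g).symm, key _ ?_⟩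
    refine (le_sup_left : φ'.fieldRange ≤ _) ?_
    have h4 : ((Real.sqrt ((g ε : H) : ℝ) : ℝ) : ℂ) ^ 2 = φ (g' y) ^ 2 := by
      rw [h1, ← Complex.ofReal_pow, Real.sq_sqrt h3]
    rcases sq_eq_sq_iff_eq_or_eq_neg.1 h4 with h5 | h5 <;> rw [h5]
    · exact ⟨_, rfl⟩
    · exact neg_mem ⟨_, rfl⟩
  · refine ⟨-ε, Or.inr rfl, fun g => ?_⟩
    obtain ⟨g', h1, h2⟩ := hlift g
    rw [h, map_neg, map_neg] at h2
    have h3 : 0 ≤ ((g (-ε) : H) : ℝ) := by
      have h5 : φ (g' y) * star (φ (g' y)) = (((g (-ε) : H) : ℝ) : ℂ) := by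
        rw [h2, mul_neg, ← sq, h1]; simp
      rw [Complex.star_def, Complex.mul_conj] at h5
      rw [← Complex.ofReal_injective h5]; exact Complex.normSq_nonneg _
    refine ⟨lt_of_le_of_ne h3 (by simpa using hε), key _ ?_⟩
    have h4 : ((Real.sqrt ((g (-ε) : H) : ℝ) : ℝ) : ℂ) ^ 2 = (φ (g' y) * Complex.I) ^ 2 := by
      rw [mul_pow, h1, ← Complex.ofReal_pow, Real.sq_sqrt h3]; simp
    have h6 : φ (g' y) * Complex.I ∈ φ'.fieldRange ⊔ IntermediateField.adjoin K {Complex.I} :=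
      mul_mem ((le_sup_left : φ'.fieldRange ≤ _) ⟨_, rfl⟩)
        ((le_sup_right : IntermediateField.adjoin K {Complex.I} ≤ _)
          (IntermediateField.mem_adjoin_simple_self K _))
    rcases sq_eq_sq_iff_eq_or_eq_neg.1 h4 with h5 | h5 <;> rw [h5]
    · exact h6
    · exact neg_mem h6

omit [Algebra K ℝ] in
theorem exists_rho {f : Ideal (𝓞 K)} (hf0 : f ≠ ⊥) :
    ∃ ρ : Kˣ, (ρ : K) + 1 ∈ loc K f f ∧ 0 < σ₂ ρ := by
  have : Finite (𝓞 K ⧸ f) := Ring.HasFiniteQuotients.finiteQuotient hf0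
  obtain ⟨w, hw, hw2⟩ := exists_neg (n := f) σ₂
  have hw0 : -algebraMap (𝓞 K) K w ≠ 0 := by
    rw [neg_ne_zero]; intro h0; rw [h0, map_zero] at hw2; exact lt_irrefl _ hw2
  refine ⟨Units.mk0 _ hw0, ?_, by simpa using hw2⟩
  have := loc_neg (loc_alg (K := K) (m := f) hw)
  rwa [map_sub, map_one, neg_sub, sub_eq_neg_add] at this

theorem starkTate_of_tateStark (hK : Module.finrank ℚ K = 2) (hσ : σ₂ ≠ algebraMap K ℝ)
    {n : Ideal (𝓞 K)} (hn0 : n ≠ ⊥) (hn1 : n ≠ ⊤) (h : TateStark σ₂ n) : StarkTate σ₂ n := by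
  obtain ⟨H, Art, hR, ε, hε, hab⟩ := h
  have hA := hR.isArt hn1
  have := hR.2.1
  simp only [inJ_iff hn1] at hε
  obtain ⟨ρ, r1, r2⟩ := exists_rho (σ₂ := σ₂) hn0
  have hρ := cp_pr_of_neg_one r1
  obtain ⟨e₀, he₀, he⟩ := exists_sign (by simp) hab
  obtain ⟨e, rfl, habs⟩ : ∃ e : (𝓞 H)ˣ, ((e : 𝓞 H) : H) = e₀ ∧ ∀ g : H ≃ₐ[K] H,
      |((g e₀ : H) : ℝ)| = |((g ((ε : 𝓞 H) : H) : H) : ℝ)| := by
    rcases he₀ with rfl | rfl
    · exact ⟨ε, rfl, fun _ => rfl⟩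
    · exact ⟨-ε, rfl, fun g => by simp⟩
  have hval : ∀ a, Cp n a → ∃ x : ℝ, IsZetaDeriv σ₂ n a x ∧
      ((Art a ((e : 𝓞 H) : H) : H) : ℝ) = Real.exp (-2 * x) := by
    intro a ha
    obtain ⟨x, h1, h2⟩ := hε a ha
    exact ⟨x, h1, by rw [← h2, ← habs, abs_of_pos (he _).1, Real.exp_log (he _).1]⟩
  have hmul : ∀ a b, Cp n a → Cp n b → ∀ x : H, Art b (Art a x) = Art (a * b) x := by
    intro a b ha hb x
    rw [mul_comm a, hA.mul _ _ hb ha, AlgEquiv.mul_apply]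
  refine ⟨H, Art, hR, fun a => Units.map (MulSemiringAction.toRingHom _ _ (Art a)).toMonoidHom e,
    fun a ha => ?_⟩
  rw [inJ_iff hn1] at ha
  refine ⟨hval a ha, fun b hb => hmul a b ha ((inJ_iff hn1).1 hb) _, fun τ hτ => ?_, (he _).2⟩
  change ‖τ (Art a ((e : 𝓞 H) : H))‖ = 1
  obtain ⟨x₁, ⟨F₁, d₁, e₁, z₁⟩, v₁⟩ := hval a ha
  obtain ⟨x₂, ⟨F₂, d₂, e₂, z₂⟩, v₂⟩ := hval _ (ha.mul hρ)
  have h1 := deriv_add_eq_zero hK hσ hn0 hn1 ha r1 r2 (f := fun s => F₁ s + F₂ s) (d₁.add d₂)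
    fun s hs => by rw [z₁ s hs, z₂ s hs]
  rw [deriv_fun_add (d₁.differentiableAt compl_one_mem_nhds)
    (d₂.differentiableAt compl_one_mem_nhds), e₁, e₂, ← Complex.ofReal_add,
    Complex.ofReal_eq_zero] at h1
  have h2 : Art a ((e : 𝓞 H) : H) * Art (pr (𝓞 K) ρ) (Art a ((e : 𝓞 H) : H)) = 1 := by
    apply Subtype.ext
    rw [hmul _ _ ha hρ, MulMemClass.coe_mul, v₁, v₂, ← Real.exp_add, OneMemClass.coe_one,
      Real.exp_eq_one_iff]
    linarith
  have h3 := congrArg (fun y => ‖τ y‖) h2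
  simp only [map_mul, norm_mul, map_one, norm_one] at h3
  rcases art_conj hn0 hn1 hR r1 r2 τ hτ with h4 | h4
  · rw [h4, AlgEquiv.one_apply] at h3
    exact (mul_self_eq_one_iff.1 h3).resolve_right fun h => by linarith [norm_nonneg (τ (Art a e))]
  · rw [h4, norm_star] at h3
    exact (mul_self_eq_one_iff.1 h3).resolve_right fun h => by linarith [norm_nonneg (τ (Art a e))]

theorem tateStark_of_msc (hK : Module.finrank ℚ K = 2) (hσ : σ₂ ≠ algebraMap K ℝ)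
    {n : Ideal (𝓞 K)} (hn0 : n ≠ ⊥) (hn1 : n ≠ ⊤) (h : MSC σ₂ n) : TateStark σ₂ n := by
  obtain ⟨H, Art, hR, ε, hε⟩ := h
  obtain ⟨ρ, r1, r2⟩ := exists_rho (σ₂ := σ₂) hn0
  have hρ := cp_pr_of_neg_one r1
  obtain ⟨⟨x₀, -, v₀⟩, g₀, -, ab₀⟩ := hε 1 cp_one.1
  refine ⟨H, Art, hR, ε 1, fun a ha => ?_, ?_⟩
  · rw [g₀ a ha, one_mul]
    rw [inJ_iff hn1] at ha
    obtain ⟨⟨x, ⟨F, d, e, z⟩, v⟩, -⟩ := hε a ha.1
    obtain ⟨F₁, d₁, z₁⟩ := exists_cont hK hσ hn0 ha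
    obtain ⟨F₂, d₂, z₂⟩ := exists_cont hK hσ hn0 (ha.mul hρ)
    have h1 := deriv_add_eq_zero hK hσ hn0 hn1 ha r1 r2 (f := fun s => F₁ s + F₂ s) (d₁.add d₂)
      fun s hs => by rw [z₁ s hs, z₂ s hs]
    have hz : ∀ c, Cp n c → ∀ s, zeta {b | MRel σ₂ n b c} s = zeta (rayClass σ₂ n c) s := by
      intro c hc s
      have := zeta_mrel (σ₂ := σ₂) (d := ⊤) (D := 1) hn0 hn1 (Ideal.top_mul n).symm
        (by simp) hc hc.1 s
      simpa using this
    have h2 := (eventuallyEq_of_continuation d (g := fun s => F₁ s - F₂ s) (d₁.sub d₂)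
      fun s hs => by
        rw [z s hs, z₁ s hs, z₂ s hs, rclass_eq hn1 (finite_ideals_ge hn0) ha.1 r1 r2, hz _ ha,
          hz _ (ha.mul hρ)]).deriv_eq
    rw [deriv_fun_add (d₁.differentiableAt compl_one_mem_nhds)
      (d₂.differentiableAt compl_one_mem_nhds)] at h1
    rw [deriv_fun_sub (d₁.differentiableAt compl_one_mem_nhds)
      (d₂.differentiableAt compl_one_mem_nhds), e] at h2
    refine ⟨x / 2, ⟨F₁, d₁, ?_, z₁⟩, ?_⟩
    · push_cast; linear_combination (h1 - h2) / 2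
    · rw [v, abs_of_pos (Real.exp_pos _), Real.log_exp]; ring
  · set M := H ⊔ IntermediateField.adjoin K {Real.sqrt (((ε 1 : 𝓞 H) : H) : ℝ)}
    let _ := (IntermediateField.inclusion (le_sup_left : H ≤ M)).toRingHom.toAlgebra
    have : IsScalarTower K H M := IsScalarTower.of_algebraMap_eq fun _ => rfl
    have hs : ((X ^ 2 - C ((ε 1 : 𝓞 H) : H)).map (algebraMap H M)).Splits := by
      rw [Polynomial.map_sub, Polynomial.map_pow, map_X, map_C]
      refine X_pow_sub_C_splits_of_isPrimitiveRoot (IsPrimitiveRoot.neg_one 0 (by decide))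
        (α := ⟨_, (le_sup_right : _ ≤ M) (IntermediateField.mem_adjoin_simple_self K _)⟩)
        (Subtype.ext ?_)
      exact Real.sq_sqrt (by rw [v₀]; exact (Real.exp_pos _).le)
    exact IsAbelianGalois.of_algHom ((SplittingField.lift _ hs).restrictScalars K)

theorem tateStark_iff (hK : Module.finrank ℚ K = 2) (hσ : σ₂ ≠ algebraMap K ℝ)
    (f : Ideal (𝓞 K)) :
    (∀ n : Ideal (𝓞 K), n ≠ ⊥ → n ≠ ⊤ → n ∣ f → TateStark σ₂ n) ↔
      ∀ (O : Type) [CommRing O] [Algebra O K] [IsFractionRing O K] [Algebra O (𝓞 K)]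
        [IsScalarTower O (𝓞 K) K] (m : Ideal O), m ≠ ⊥ → m ≠ ⊤ → cond K m ∣ f → MSC σ₂ m := by
  refine ⟨fun h O _ _ _ _ _ m hm0 hm1 hm => ?_, fun h n hn0 hn1 hn => ?_⟩
  · refine msc_order_of_starkTate hK hσ hm0 hm1 fun n hn hn1 => ?_
    have hn0 : n ≠ ⊥ := by
      rintro rfl
      exact (setup_cond (K := K) hm0 hm1).hf0 (zero_dvd_iff.1 hn)
    exact starkTate_of_tateStark hK hσ hn0 hn1 (h n hn0 hn1 (hn.trans hm))
  · exact tateStark_of_msc hK hσ hn0 hn1 (h (𝓞 K) n hn0 hn1 (by rwa [cond_self]))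

end Pool.Agent.Lib.MP_6bf7a3_nt
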