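import Pool.Agent.Lib.MP_6bf7a3_nt.Defs

open NumberField FractionalIdeal
open scoped nonZeroDivisors

namespace Pool.Agent.Lib.MP_6bf7a3_nt

variable {K : Type} [Field K] {O : Type} [CommRing O] [Algebra O K] [IsFractionRing O K]

theorem cop_iff {m : Ideal O} {s : O} : Ideal.span {s} ⊔ m = ⊤ ↔ ∃ t, t * s - 1 ∈ m := by
  rw [Ideal.eq_top_iff_one, Submodule.mem_sup]
  constructor
  · rintro ⟨y, hy, z, hz, h⟩
    obtain ⟨t, rfl⟩ := Ideal.mem_span_singleton'.1 hy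
    refine ⟨t, ?_⟩
    have : t * s - 1 = -z := by rw [← h]; ring
    rw [this]; exact m.neg_mem hz
  · rintro ⟨t, ht⟩
    exact ⟨t * s, Ideal.mem_span_singleton'.2 ⟨t, rfl⟩, -(t * s - 1), m.neg_mem ht, by ring⟩

theorem one_mul_mem {m : Ideal O} {s t : O} (hs : s - 1 ∈ m) (ht : t - 1 ∈ m) :
    s * t - 1 ∈ m := by
  have : s * t - 1 = s * (t - 1) + (s - 1) := by ring
  rw [this]; exact m.add_mem (m.mul_mem_left _ ht) hs

omit [IsFractionRing O K] in
theorem mem_loc {m I : Ideal O} {x : K} :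
    x ∈ loc K m I ↔ ∃ s : O, s - 1 ∈ m ∧ ∃ y ∈ I, algebraMap O K s * x = algebraMap O K y := by
  constructor
  · rintro ⟨s, hs, y, hy, h⟩
    obtain ⟨t, ht⟩ := cop_iff.1 hs
    refine ⟨t * s, ht, t * y, I.mul_mem_left _ hy, ?_⟩
    rw [map_mul, map_mul, mul_assoc, h]
  · rintro ⟨s, hs, y, hy, h⟩
    exact ⟨s, cop_iff.2 ⟨1, by simpa using hs⟩, y, hy, h⟩

omit [IsFractionRing O K] in
theorem loc_alg {m I : Ideal O} {y : O} (hy : y ∈ I) : algebraMap O K y ∈ loc K m I :=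
  mem_loc.2 ⟨1, by simp, y, hy, by simp⟩

omit [IsFractionRing O K] in
theorem loc_alg_top {m : Ideal O} (y : O) : algebraMap O K y ∈ loc K m ⊤ := loc_alg trivial

omit [IsFractionRing O K] in
theorem loc_zero {m I : Ideal O} : (0 : K) ∈ loc K m I := by
  simpa using loc_alg (K := K) (m := m) I.zero_mem

omit [IsFractionRing O K] in
theorem loc_one {m : Ideal O} : (1 : K) ∈ loc K m ⊤ := by
  simpa using loc_alg_top (K := K) (m := m) 1

omit [IsFractionRing O K] in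
theorem loc_add {m I : Ideal O} {x x' : K} (h : x ∈ loc K m I) (h' : x' ∈ loc K m I) :
    x + x' ∈ loc K m I := by
  obtain ⟨s, hs, y, hy, e⟩ := mem_loc.1 h
  obtain ⟨s', hs', y', hy', e'⟩ := mem_loc.1 h'
  refine mem_loc.2 ⟨s * s', one_mul_mem hs hs', s' * y + s * y',
    I.add_mem (I.mul_mem_left _ hy) (I.mul_mem_left _ hy'), ?_⟩
  simp only [map_mul, map_add]
  rw [← e, ← e']; ring

omit [IsFractionRing O K] in
theorem loc_mul {m I : Ideal O} {x x' : K} (h : x ∈ loc K m ⊤) (h' : x' ∈ loc K m I) :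
    x * x' ∈ loc K m I := by
  obtain ⟨s, hs, y, -, e⟩ := mem_loc.1 h
  obtain ⟨s', hs', y', hy', e'⟩ := mem_loc.1 h'
  refine mem_loc.2 ⟨s * s', one_mul_mem hs hs', y * y', I.mul_mem_left _ hy', ?_⟩
  simp only [map_mul]
  rw [← e, ← e']; ring

omit [IsFractionRing O K] in
theorem loc_mul' {m I : Ideal O} {x x' : K} (h : x ∈ loc K m I) (h' : x' ∈ loc K m ⊤) :
    x * x' ∈ loc K m I := by
  rw [mul_comm]; exact loc_mul h' h

omit [IsFractionRing O K] in
theorem loc_neg {m I : Ideal O} {x : K} (h : x ∈ loc K m I) : -x ∈ loc K m I := by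
  have := loc_mul (loc_alg_top (m := m) (-1)) h
  simpa using this

omit [IsFractionRing O K] in
theorem loc_sub {m I : Ideal O} {x x' : K} (h : x ∈ loc K m I) (h' : x' ∈ loc K m I) :
    x - x' ∈ loc K m I := by
  rw [sub_eq_add_neg]; exact loc_add h (loc_neg h')

omit [IsFractionRing O K] in
theorem loc_sub_comm {m I : Ideal O} {x x' : K} (h : x - x' ∈ loc K m I) :
    x' - x ∈ loc K m I := by
  rw [← neg_sub]; exact loc_neg h

omit [IsFractionRing O K] in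
theorem loc_mono {m n I J : Ideal O} (hn : n ≤ m) (hI : I ≤ J) {x : K} (h : x ∈ loc K n I) :
    x ∈ loc K m J := by
  obtain ⟨s, hs, y, hy, e⟩ := mem_loc.1 h
  exact mem_loc.2 ⟨s, hn hs, y, hI hy, e⟩

omit [IsFractionRing O K] in
theorem loc_top {m I : Ideal O} {x : K} (h : x ∈ loc K m I) : x ∈ loc K m ⊤ :=
  loc_mono le_rfl le_top h

theorem mem_of_loc {m : Ideal O} {y : O} (h : algebraMap O K y ∈ loc K m m) : y ∈ m := by
  obtain ⟨s, hs, z, hz, e⟩ := mem_loc.1 h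
  rw [← map_mul] at e
  have e2 := IsFractionRing.injective O K e
  have : y = z - (s - 1) * y := by rw [← e2]; ring
  rw [this]; exact m.sub_mem hz (m.mul_mem_right _ hs)

omit [IsFractionRing O K] in
theorem loc_of_one {m : Ideal O} {x : K} (h : x - 1 ∈ loc K m m) : x ∈ loc K m ⊤ := by
  have := loc_add (loc_top h) loc_one
  simpa using this

omit [IsFractionRing O K] in
theorem loc_inv_of_one {m : Ideal O} {x : Kˣ} (h : (x : K) - 1 ∈ loc K m m) :
    ((x⁻¹ : Kˣ) : K) ∈ loc K m ⊤ := by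
  obtain ⟨s, hs, y, hy, e⟩ := mem_loc.1 h
  refine mem_loc.2 ⟨s + y, ?_, s, trivial, ?_⟩
  · have : s + y - 1 = (s - 1) + y := by ring
    rw [this]; exact m.add_mem hs hy
  · rw [map_add, ← e, Units.val_inv_eq_inv_val]
    field_simp
    ring

omit [IsFractionRing O K] in
theorem loc_one_mul {m : Ideal O} {x y : K} (hx : x - 1 ∈ loc K m m) (hy : y - 1 ∈ loc K m m) :
    x * y - 1 ∈ loc K m m := by
  have : x * y - 1 = x * (y - 1) + (x - 1) := by ring
  rw [this]; exact loc_add (loc_mul (loc_of_one hx) hy) hx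

omit [IsFractionRing O K] in
theorem loc_one_inv {m : Ideal O} {x : Kˣ} (hx : (x : K) - 1 ∈ loc K m m) :
    ((x⁻¹ : Kˣ) : K) - 1 ∈ loc K m m := by
  have : ((x⁻¹ : Kˣ) : K) - 1 = ((x⁻¹ : Kˣ) : K) * (-((x : K) - 1)) := by
    rw [Units.val_inv_eq_inv_val]; field_simp; ring
  rw [this]; exact loc_mul (loc_inv_of_one hx) (loc_neg hx)

/-- Shorthand for the principal ideal. -/
noncomputable abbrev pr (O : Type) [CommRing O] [Algebra O K] [IsFractionRing O K] :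
    Kˣ →* (FractionalIdeal O⁰ K)ˣ := toPrincipalIdeal O K

theorem mem_pr_mul {α : Kˣ} {a : (FractionalIdeal O⁰ K)ˣ} {x : K} :
    x ∈ ((pr O α * a : (FractionalIdeal O⁰ K)ˣ) : FractionalIdeal O⁰ K) ↔
      ∃ y ∈ (a : FractionalIdeal O⁰ K), x = α * y := by
  rw [Units.val_mul, coe_toPrincipalIdeal, mem_singleton_mul]

theorem mem_pr {α : Kˣ} {x : K} :
    x ∈ ((pr O α : (FractionalIdeal O⁰ K)ˣ) : FractionalIdeal O⁰ K) ↔
      ∃ y : O, x = α * algebraMap O K y := by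
  rw [coe_toPrincipalIdeal, mem_spanSingleton]
  simp only [Algebra.smul_def]
  constructor
  · rintro ⟨y, h⟩; exact ⟨y, by rw [← h]; ring⟩
  · rintro ⟨y, h⟩; exact ⟨y, by rw [h]; ring⟩

theorem self_mem_pr (α : Kˣ) :
    (α : K) ∈ ((pr O α : (FractionalIdeal O⁰ K)ˣ) : FractionalIdeal O⁰ K) :=
  mem_pr.2 ⟨1, by simp⟩

omit [IsFractionRing O K] in
theorem one_mem_mul_inv (a : (FractionalIdeal O⁰ K)ˣ) :
    (1 : K) ∈ (a : FractionalIdeal O⁰ K) * ((a⁻¹ : (FractionalIdeal O⁰ K)ˣ) : _) := by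
  rw [← Units.val_mul, mul_inv_cancel, Units.val_one]
  exact one_mem_one _

omit [IsFractionRing O K] in
theorem exists_of_mem_inv {a : (FractionalIdeal O⁰ K)ˣ} {x y : K}
    (hx : x ∈ (a : FractionalIdeal O⁰ K))
    (hy : y ∈ ((a⁻¹ : (FractionalIdeal O⁰ K)ˣ) : FractionalIdeal O⁰ K)) :
    ∃ z : O, algebraMap O K z = x * y := by
  have := mul_mem_mul hx hy
  rwa [← Units.val_mul, mul_inv_cancel, Units.val_one, mem_one_iff] at this

omit [IsFractionRing O K] in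
theorem alg_mul_mem {a : FractionalIdeal O⁰ K} {x : K} (z : O) (hx : x ∈ a) :
    algebraMap O K z * x ∈ a := by
  rw [← Algebra.smul_def]; exact Submodule.smul_mem (a : Submodule O K) z hx

omit [IsFractionRing O K] in
theorem Flat.mul {m : Ideal O} {a b : (FractionalIdeal O⁰ K)ˣ} (ha : Flat m a) (hb : Flat m b) :
    Flat m (a * b) := by
  intro x hx
  rw [Units.val_mul] at hx
  exact FractionalIdeal.mul_induction_on hx (fun i hi j hj => loc_mul (ha i hi) (hb j hj))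
    (fun _ _ => loc_add)

omit [IsFractionRing O K] in
theorem flat_one {m : Ideal O} : Flat m (1 : (FractionalIdeal O⁰ K)ˣ) := by
  intro x hx
  obtain ⟨z, rfl⟩ := (mem_one_iff _).1 hx
  exact loc_alg_top z

theorem flat_pr {m : Ideal O} {α : Kˣ} : Flat m (pr O α) ↔ (α : K) ∈ loc K m ⊤ := by
  constructor
  · intro h; exact h _ (self_mem_pr α)
  · intro h x hx
    obtain ⟨y, rfl⟩ := mem_pr.1 hx
    exact loc_mul h (loc_alg_top y)

omit [IsFractionRing O K] in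
theorem Flat.mono {m n : Ideal O} (hn : n ≤ m) {a : (FractionalIdeal O⁰ K)ˣ} (ha : Flat n a) :
    Flat m a := fun x hx => loc_mono hn le_rfl (ha x hx)

omit [IsFractionRing O K] in
theorem flat_of_coe {m I : Ideal O} {a : (FractionalIdeal O⁰ K)ˣ}
    (h : (a : FractionalIdeal O⁰ K) = I) : Flat m a := by
  intro x hx
  rw [h] at hx
  obtain ⟨y, -, rfl⟩ := (mem_coeIdeal _).1 hx
  exact loc_alg_top y

/-- Ideals that become trivial after localizing at `m`. -/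
def Cp (m : Ideal O) (a : (FractionalIdeal O⁰ K)ˣ) : Prop := Flat m a ∧ Flat m a⁻¹

omit [IsFractionRing O K] in
theorem Cp.mul {m : Ideal O} {a b : (FractionalIdeal O⁰ K)ˣ} (ha : Cp m a) (hb : Cp m b) :
    Cp m (a * b) := ⟨ha.1.mul hb.1, by rw [mul_inv]; exact ha.2.mul hb.2⟩

omit [IsFractionRing O K] in
theorem Cp.inv {m : Ideal O} {a : (FractionalIdeal O⁰ K)ˣ} (ha : Cp m a) : Cp m a⁻¹ :=
  ⟨ha.2, by rw [inv_inv]; exact ha.1⟩

omit [IsFractionRing O K] in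
theorem cp_one {m : Ideal O} : Cp m (1 : (FractionalIdeal O⁰ K)ˣ) :=
  ⟨flat_one, by rw [inv_one]; exact flat_one⟩

omit [IsFractionRing O K] in
theorem Cp.mono {m n : Ideal O} (hn : n ≤ m) {a : (FractionalIdeal O⁰ K)ˣ} (ha : Cp n a) :
    Cp m a := ⟨ha.1.mono hn, ha.2.mono hn⟩

theorem cp_pr_of_one {m : Ideal O} {α : Kˣ} (h : (α : K) - 1 ∈ loc K m m) : Cp m (pr O α) :=
  ⟨flat_pr.2 (loc_of_one h), by rw [← map_inv]; exact flat_pr.2 (loc_inv_of_one h)⟩

omit [IsFractionRing O K] in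
theorem exists_one_mem {m : Ideal O} {a : (FractionalIdeal O⁰ K)ˣ} (ha : Flat m a⁻¹) :
    ∃ t : O, t - 1 ∈ m ∧ algebraMap O K t ∈ (a : FractionalIdeal O⁰ K) := by
  have key : ∀ z ∈ (a : FractionalIdeal O⁰ K) * ((a⁻¹ : (FractionalIdeal O⁰ K)ˣ) : _),
      ∃ t : O, t - 1 ∈ m ∧ algebraMap O K t * z ∈ (a : FractionalIdeal O⁰ K) := by
    intro z hz
    refine FractionalIdeal.mul_induction_on hz (fun i hi j hj => ?_) ?_
    · obtain ⟨s, hs, y, -, e⟩ := mem_loc.1 (ha j hj)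
      refine ⟨s, hs, ?_⟩
      have : algebraMap O K s * (i * j) = algebraMap O K y * i := by rw [← e]; ring
      rw [this]; exact alg_mul_mem y hi
    · rintro x y ⟨s, hs, hx⟩ ⟨t, ht, hy⟩
      refine ⟨s * t, one_mul_mem hs ht, ?_⟩
      have : algebraMap O K (s * t) * (x + y) =
          algebraMap O K t * (algebraMap O K s * x) + algebraMap O K s * (algebraMap O K t * y) := by
        rw [map_mul]; ring
      rw [this]
      exact Submodule.add_mem (a : FractionalIdeal O⁰ K).coeToSubmodule (alg_mul_mem _ hx)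
        (alg_mul_mem _ hy)
  simpa using key 1 (one_mem_mul_inv a)

omit [IsFractionRing O K] in
theorem exists_clear {m : Ideal O} {a : (FractionalIdeal O⁰ K)ˣ} (ha : Flat m a) :
    ∃ s : O, s - 1 ∈ m ∧ ∀ x ∈ (a : FractionalIdeal O⁰ K), ∃ y : O,
      algebraMap O K s * x = algebraMap O K y := by
  have h : Flat m (a⁻¹)⁻¹ := by rwa [inv_inv]
  obtain ⟨t, ht, h2⟩ := exists_one_mem h
  refine ⟨t, ht, fun x hx => ?_⟩
  obtain ⟨z, hz⟩ := exists_of_mem_inv hx h2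
  exact ⟨z, by rw [hz, mul_comm]⟩

omit [IsFractionRing O K] in
theorem flat_inv_of_mem {m : Ideal O} {a : (FractionalIdeal O⁰ K)ˣ} {t : O} (ht : t - 1 ∈ m)
    (h : algebraMap O K t ∈ (a : FractionalIdeal O⁰ K)) : Flat m a⁻¹ := by
  intro x hx
  obtain ⟨z, hz⟩ := exists_of_mem_inv h hx
  exact mem_loc.2 ⟨t, ht, z, trivial, hz.symm⟩

theorem exists_one_of_sup {m I : Ideal O} (h : I ⊔ m = ⊤) : ∃ t ∈ I, t - 1 ∈ m := by
  rw [Ideal.eq_top_iff_one, Submodule.mem_sup] at h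
  obtain ⟨y, hy, z, hz, h⟩ := h
  refine ⟨y, hy, ?_⟩
  have : y - 1 = -z := by rw [← h]; ring
  rw [this]; exact m.neg_mem hz

theorem sup_of_exists_one {m I : Ideal O} {t : O} (h : t ∈ I) (ht : t - 1 ∈ m) : I ⊔ m = ⊤ := by
  rw [Ideal.eq_top_iff_one, Submodule.mem_sup]
  exact ⟨t, h, -(t - 1), m.neg_mem ht, by ring⟩

omit [IsFractionRing O K] in
theorem cp_of_coe {m I : Ideal O} {a : (FractionalIdeal O⁰ K)ˣ}
    (h : (a : FractionalIdeal O⁰ K) = I) (hI : I ⊔ m = ⊤) : Cp m a := by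
  obtain ⟨t, ht, ht1⟩ := exists_one_of_sup hI
  exact ⟨flat_of_coe h, flat_inv_of_mem ht1 (by rw [h]; exact mem_coeIdeal_of_mem _ ht)⟩

theorem inJ_iff {m : Ideal O} (hm : m ≠ ⊤) {a : (FractionalIdeal O⁰ K)ˣ} :
    InJ m a ↔ Cp m a := by
  constructor
  · rintro ⟨I₁, I₂, h1, h2, hu, e⟩
    have e1 : ((a * hu.unit : (FractionalIdeal O⁰ K)ˣ) : FractionalIdeal O⁰ K) = I₁ := by
      rw [Units.val_mul, hu.unit_spec, e]
    have c1 := cp_of_coe e1 h1
    have c2 := cp_of_coe hu.unit_spec h2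
    have := c1.mul c2.inv
    rwa [mul_inv_cancel_right] at this
  · rintro ⟨h1, h2⟩
    obtain ⟨s, hs, hs2⟩ := exists_clear h1
    obtain ⟨t, ht, ht2⟩ := exists_one_mem h2
    have hs0 : algebraMap O K s ≠ 0 := by
      intro h
      have : s = 0 := IsFractionRing.injective O K (by rw [h, map_zero])
      rw [this, zero_sub, Ideal.neg_mem_iff, ← Ideal.eq_top_iff_one] at hs
      exact hm hs
    let σ : Kˣ := Units.mk0 _ hs0
    have hle : ((pr O σ * a : (FractionalIdeal O⁰ K)ˣ) : FractionalIdeal O⁰ K) ≤ 1 := by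
      intro x hx
      obtain ⟨y, hy, rfl⟩ := mem_pr_mul.1 hx
      obtain ⟨z, hz⟩ := hs2 y hy
      exact (mem_one_iff _).2 ⟨z, hz.symm⟩
    obtain ⟨I, hI⟩ := le_one_iff_exists_coeIdeal.1 hle
    have hσ : ((Ideal.span {s} : Ideal O) : FractionalIdeal O⁰ K) = pr O σ := by
      rw [coe_toPrincipalIdeal, coeIdeal_span_singleton]; rfl
    refine ⟨I, Ideal.span {s}, ?_, cop_iff.2 ⟨1, by simpa using hs⟩, ?_, ?_⟩
    · have : algebraMap O K (s * t) ∈ (I : FractionalIdeal O⁰ K) := by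
        rw [hI]; exact mem_pr_mul.2 ⟨_, ht2, by rw [map_mul]; rfl⟩
      obtain ⟨w, hw, e⟩ := (mem_coeIdeal _).1 this
      rw [IsFractionRing.injective O K e] at hw
      exact sup_of_exists_one hw (one_mul_mem hs ht)
    · rw [hσ]; exact Units.isUnit _
    · rw [hσ, hI, Units.val_mul, mul_comm]

theorem loc_of_flat_pr_mul {m : Ideal O} {α : Kˣ} {c : (FractionalIdeal O⁰ K)ˣ}
    (hc : Flat m c⁻¹) (h : Flat m (pr O α * c)) : (α : K) ∈ loc K m ⊤ := by
  have := h.mul hc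
  rw [mul_inv_cancel_right] at this
  exact flat_pr.1 this

variable {σ₂ : K →+* ℝ}

theorem sign_mul_congr {α β γ : Kˣ} (h : SignType.sign (σ₂ α) = SignType.sign (σ₂ β)) :
    SignType.sign (σ₂ ((α * γ : Kˣ) : K)) = SignType.sign (σ₂ ((β * γ : Kˣ) : K)) := by
  simp only [Units.val_mul, map_mul, sign_mul, h]

theorem MRel.symm {m : Ideal O} {a b : (FractionalIdeal O⁰ K)ˣ} (h : MRel σ₂ m a b) :
    MRel σ₂ m b a := by
  obtain ⟨c, α, β, h1, h2, h3, h4, h5, h6, h7⟩ := h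
  exact ⟨c, β, α, h1, h3, h2, loc_sub_comm h4, h5.symm, h7, h6⟩

theorem MRel.flat_left {m : Ideal O} {a b : (FractionalIdeal O⁰ K)ˣ} (h : MRel σ₂ m a b) :
    Flat m a := by
  obtain ⟨c, α, β, h1, h2, h3, h4, h5, rfl, h7⟩ := h
  exact (flat_pr.2 h2).mul h1

theorem MRel.flat_right {m : Ideal O} {a b : (FractionalIdeal O⁰ K)ˣ} (h : MRel σ₂ m a b) :
    Flat m b := h.symm.flat_left

theorem MRel.refl {m : Ideal O} {a : (FractionalIdeal O⁰ K)ˣ} (h : Flat m a) : MRel σ₂ m a a :=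
  ⟨a, 1, 1, h, loc_one, loc_one, by simpa using loc_zero, rfl, by simp, by simp⟩

theorem MRel.mul_right {m : Ideal O} {a b d : (FractionalIdeal O⁰ K)ˣ} (h : MRel σ₂ m a b)
    (hd : Flat m d) : MRel σ₂ m (a * d) (b * d) := by
  obtain ⟨c, α, β, h1, h2, h3, h4, h5, rfl, rfl⟩ := h
  exact ⟨c * d, α, β, h1.mul hd, h2, h3, h4, h5, mul_assoc _ _ _, mul_assoc _ _ _⟩

theorem mrel_mul_iff {m : Ideal O} {a b d : (FractionalIdeal O⁰ K)ˣ} (hd : Cp m d) :
    MRel σ₂ m (a * d) (b * d) ↔ MRel σ₂ m a b := by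
  refine ⟨fun h => ?_, fun h => h.mul_right hd.1⟩
  simpa using h.mul_right hd.2

theorem mrel_iff {m : Ideal O} {b c : (FractionalIdeal O⁰ K)ˣ} {α : Kˣ} (hc : Cp m c)
    (hα : (α : K) ∈ loc K m ⊤) :
    MRel σ₂ m b (pr O α * c) ↔ ∃ β : Kˣ, b = pr O β * c ∧ (β : K) - α ∈ loc K m m ∧
      SignType.sign (σ₂ β) = SignType.sign (σ₂ α) := by
  constructor
  · rintro ⟨c', β', α', h1, h2, h3, h4, h5, h6, h7⟩
    have e : c' = pr O (α'⁻¹ * α) * c := by
      rw [map_mul, mul_assoc, h7, map_inv, inv_mul_cancel_left]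
    have hγ : ((α'⁻¹ * α : Kˣ) : K) ∈ loc K m ⊤ := loc_of_flat_pr_mul hc.2 (e ▸ h1)
    have eα : α = α' * (α'⁻¹ * α) := by rw [mul_inv_cancel_left]
    refine ⟨β' * (α'⁻¹ * α), ?_, ?_, ?_⟩
    · rw [h6, e, map_mul (toPrincipalIdeal O K) β', mul_assoc]
    · have : ((β' * (α'⁻¹ * α) : Kˣ) : K) - α = ((β' : K) - α') * ((α'⁻¹ * α : Kˣ) : K) := by
        conv_lhs => rw [eα]
        simp only [Units.val_mul]
        rw [← mul_assoc (((α'⁻¹ : Kˣ)) : K), Units.inv_mul, one_mul]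
        ring
      rw [this]; exact loc_mul' h4 hγ
    · conv_rhs => rw [eα]
      exact sign_mul_congr h5
  · rintro ⟨β, rfl, h1, h2⟩
    refine ⟨c, β, α, hc.1, ?_, hα, h1, h2, rfl, rfl⟩
    simpa using loc_add (loc_top h1) hα

theorem mrel_pr_one {m : Ideal O} {a : (FractionalIdeal O⁰ K)ˣ} (ha : Flat m a) {β : Kˣ}
    (h1 : (β : K) - 1 ∈ loc K m m) (h2 : 0 < σ₂ β) : MRel σ₂ m (pr O β * a) a :=
  ⟨a, β, 1, ha, loc_of_one h1, loc_one, h1, by simp [sign_pos h2], rfl, by simp⟩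

end Pool.Agent.Lib.MP_6bf7a3_nt
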