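import Pool.Agent.Lib.MP_6bf7a3_nt.Galois

open NumberField
open scoped nonZeroDivisors

namespace Pool.Agent.Lib.MP_6bf7a3_nt

variable {K : Type} [Field K] [NumberField K] [Algebra K ℝ]

theorem exists_subfield (H' : IntermediateField K ℝ) [FiniteDimensional K H']
    [IsAbelianGalois K H'] (N : Subgroup (H' ≃ₐ[K] H')) :
    ∃ (H : IntermediateField K ℝ) (hle : H ≤ H') (res : (H' ≃ₐ[K] H') →* (H ≃ₐ[K] H)),
      FiniteDimensional K H ∧
      Function.Surjective res ∧ (∀ g, res g = 1 ↔ g ∈ N) ∧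
      (∀ g (x : H), ((res g x : H) : ℝ) = g (IntermediateField.inclusion hle x)) ∧
      (∀ x : H', (∀ g ∈ N, g x = x) → (x : ℝ) ∈ H) ∧
      (∀ p : Ideal (𝓞 K), Algebra.IsUnramifiedIn (𝓞 H') p → Algebra.IsUnramifiedIn (𝓞 H) p) ∧
      (∀ (p : Ideal (𝓞 K)) (g : H' ≃ₐ[K] H') (q : ℕ),
        (∀ P ∈ p.primesOver (𝓞 H'), ∀ x : 𝓞 H', g • x - x ^ q ∈ P) →
        ∀ P ∈ p.primesOver (𝓞 H), ∀ x : 𝓞 H, res g • x - x ^ q ∈ P) ∧
      (∀ τ : H →+* ℂ, ∃ τ' : H' →+* ℂ, ∀ x, τ' (IntermediateField.inclusion hle x) = τ x) := by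
  let H : IntermediateField K ℝ := IntermediateField.lift (IntermediateField.fixedField N)
  have hle : H ≤ H' := IntermediateField.lift_le _
  let := (IntermediateField.inclusion hle).toRingHom.toAlgebra
  have : IsScalarTower K H H' := IsScalarTower.of_algebraMap_eq fun _ => rfl
  have hab : IsAbelianGalois K H := ab_mono hle inferInstance
  have hfin : FiniteDimensional K H :=
    FiniteDimensional.of_injective (IntermediateField.inclusion hle).toLinearMap
      (IntermediateField.inclusion hle).toRingHom.injective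
  have : NumberField H := NumberField.of_module_finite K H
  have : NumberField H' := NumberField.of_module_finite K H'
  have hcomm : ∀ (g : H' ≃ₐ[K] H') (x : H), algebraMap H H' (AlgEquiv.restrictNormalHom H g x) =
      g (algebraMap H H' x) := fun g x => g.restrictNormal_commutes H x
  refine ⟨H, hle, AlgEquiv.restrictNormalHom H, hfin, AlgEquiv.restrictNormalHom_surjective H',
    fun g => ?_, fun g x => ?_, fun x hx => ?_, fun p => unram_down, fun p g q => frob_down,
    fun τ => ?_⟩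
  · rw [← IntermediateField.fixingSubgroup_fixedField N, IntermediateField.mem_fixingSubgroup_iff]
    constructor
    · intro h x hx
      have := hcomm g ⟨x, (IntermediateField.mem_lift x).2 hx⟩
      rw [h] at this
      exact this.symm
    · intro h
      ext x
      have h1 : algebraMap H H' x ∈ IntermediateField.fixedField N :=
        (IntermediateField.mem_lift _).1 x.2
      have := hcomm g x
      rw [h _ h1] at this
      exact congrArg (fun y : H' => (y : ℝ)) this
  · exact congrArg (fun y : H' => (y : ℝ)) (hcomm g x)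
  · exact (IntermediateField.mem_lift x).2 ((IntermediateField.mem_fixedField_iff N x).2 hx)
  · have : Algebra.IsAlgebraic H H' := Algebra.IsAlgebraic.tower_top (K := K) H
    exact ⟨ComplexEmbedding.lift H' τ, fun x => ComplexEmbedding.lift_algebraMap_apply H' τ x⟩

omit [NumberField K] in
theorem unit_descend {H H' : IntermediateField K ℝ} (u : (𝓞 H')ˣ)
    (hu : (((u : 𝓞 H') : H') : ℝ) ∈ H) :
    ∃ v : (𝓞 H)ˣ, (((v : 𝓞 H) : H) : ℝ) = (((u : 𝓞 H') : H') : ℝ) := by
  have key : ∀ (w : 𝓞 H') (hw : ((w : H') : ℝ) ∈ H), IsIntegral ℤ (⟨_, hw⟩ : H) := by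
    intro w hw
    have h1 : IsIntegral ℤ ((w : H') : ℝ) := w.isIntegral_coe.map (H'.val.toRingHom.toIntAlgHom)
    exact (isIntegral_algHom_iff (H.val.toRingHom.toIntAlgHom) H.val.toRingHom.injective).1 h1
  have e : ((((u⁻¹ : (𝓞 H')ˣ) : 𝓞 H') : H') : ℝ) * (((u : 𝓞 H') : H') : ℝ) = 1 := by
    simp
  have hu' : ((((u⁻¹ : (𝓞 H')ˣ) : 𝓞 H') : H') : ℝ) ∈ H := by
    rw [eq_inv_of_mul_eq_one_left e]; exact H.inv_mem hu
  refine ⟨⟨⟨_, key _ hu⟩, ⟨_, key _ hu'⟩, ?_, ?_⟩, rfl⟩
  · apply RingOfIntegers.ext; apply Subtype.ext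
    rw [mul_comm] at e; exact e
  · apply RingOfIntegers.ext; apply Subtype.ext
    exact e

end Pool.Agent.Lib.MP_6bf7a3_nt
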