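import Pool.Agent.Lib.MP_6bf7a3_nt.Artin
import Pool.Agent.Lib.MP_6bf7a3_nt.Subfield

open NumberField FractionalIdeal
open scoped nonZeroDivisors

namespace Pool.Agent.Lib.MP_6bf7a3_nt

variable {K : Type} [Field K] {O : Type} [CommRing O] [Algebra O (𝓞 K)]

theorem mem_cond {m : Ideal O} {x : 𝓞 K} :
    x ∈ cond K m ↔ ∀ y : 𝓞 K, ∃ z ∈ m, algebraMap O (𝓞 K) z = x * y := by
  refine ⟨fun hx => ?_, fun hx => Ideal.subset_span hx⟩
  refine Submodule.span_induction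
    (p := fun x _ => ∀ y : 𝓞 K, ∃ z ∈ m, algebraMap O (𝓞 K) z = x * y)
    (fun x hx => hx) (fun y => ⟨0, m.zero_mem, by simp⟩) ?_ ?_ hx
  · intro a b _ _ ha hb y
    obtain ⟨z, hz, e⟩ := ha y
    obtain ⟨w, hw, e'⟩ := hb y
    exact ⟨z + w, m.add_mem hz hw, by rw [map_add, e, e', add_mul]⟩
  · intro r a _ ha y
    obtain ⟨z, hz, e⟩ := ha (r * y)
    exact ⟨z, hz, by rw [e, smul_eq_mul]; ring⟩

theorem cond_self (f : Ideal (𝓞 K)) : cond K f = f := by
  ext x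
  rw [mem_cond]
  constructor
  · intro h
    obtain ⟨z, hz, e⟩ := h 1
    rw [mul_one] at e
    exact e ▸ hz
  · intro h y
    exact ⟨x * y, f.mul_mem_right _ h, rfl⟩

variable [NumberField K] [Algebra O K] [IsFractionRing O K] [IsScalarTower O (𝓞 K) K]

theorem setup_cond {m : Ideal O} (hm0 : m ≠ ⊥) (hm1 : m ≠ ⊤) : Setup m (cond K m) := by
  have hinj := alg_inj K O (𝓞 K)
  have : IsDomain O := hinj.isDomain _
  have hfin : Module.Finite ℤ O :=
    Module.Finite.of_injective (algebraMap O (𝓞 K)).toIntAlgHom.toLinearMap hinj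
  refine ⟨fun x hx => by simpa using mem_cond.1 hx 1, ?_, hm1, hinj, inferInstance, inferInstance⟩
  have : Module.Finite O (𝓞 K) := Module.Finite.of_restrictScalars_finite ℤ O (𝓞 K)
  have hfg : (LinearMap.range (IsScalarTower.toAlgHom O (𝓞 K) K).toLinearMap).FG := by
    rw [LinearMap.range_eq_map]
    exact Module.Finite.fg_top.map _
  obtain ⟨a, ha, h⟩ := isFractional_of_fg (S := O⁰) hfg
  obtain ⟨y, hy, hy0⟩ := Submodule.exists_mem_ne_zero_of_ne_bot hm0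
  intro hbot
  have hmem : algebraMap O (𝓞 K) (y * a) ∈ cond K m := by
    refine mem_cond.2 fun w => ?_
    obtain ⟨z, hz⟩ := h _ ⟨w, rfl⟩
    refine ⟨y * z, m.mul_mem_right _ hy, ?_⟩
    apply IsFractionRing.injective (𝓞 K) K
    simp only [map_mul, ← IsScalarTower.algebraMap_apply]
    rw [hz, Algebra.smul_def, mul_assoc]
    rfl
  rw [hbot, Ideal.mem_bot, map_eq_zero_iff _ hinj] at hmem
  exact mul_ne_zero hy0 (nonZeroDivisors.ne_zero ha) hmem

variable [Algebra K ℝ] {σ₂ : K →+* ℝ}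

omit [NumberField K] [IsScalarTower O (𝓞 K) K] in
theorem IsRCF.isArt {m : Ideal O} (hm1 : m ≠ ⊤) {H : IntermediateField K ℝ}
    {Art : (FractionalIdeal O⁰ K)ˣ → (H ≃ₐ[K] H)} (h : IsRCF σ₂ m H Art) : IsArt σ₂ m Art := by
  obtain ⟨-, -, -, h1, h2, h3⟩ := h
  simp only [inJ_iff hm1] at h1 h2 h3
  exact ⟨h1, h2, h3⟩

omit [Algebra K ℝ] in
theorem exists_con_prime {m : Ideal O} {f : Ideal (𝓞 K)} (S : Setup m f) {p : Ideal (𝓞 K)}
    (hp : p.IsMaximal) (hpf : p ⊔ f = ⊤) :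
    ∃ d : (FractionalIdeal O⁰ K)ˣ, Cp (f.comap (algebraMap O (𝓞 K))) d ∧
      (ext (𝓞 K) d : FractionalIdeal (𝓞 K)⁰ K) = p ∧
      (d : FractionalIdeal O⁰ K) = (p.comap (algebraMap O (𝓞 K)) : Ideal O) := by
  have hp0 : p ≠ ⊥ := Ring.ne_bot_of_isMaximal_of_not_isField hp (RingOfIntegers.not_isField K)
  let B : (FractionalIdeal (𝓞 K)⁰ K)ˣ := Units.mk0 (p : FractionalIdeal (𝓞 K)⁰ K)
    (coeIdeal_ne_zero.2 hp0)
  have hB : (B : FractionalIdeal (𝓞 K)⁰ K) = p := rfl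
  obtain ⟨d, h1, h2, h3⟩ := exists_ext (O := O) S.hf S.hf0 (cp_of_coe hB hpf)
  refine ⟨d, h1, by rw [h2, hB], ?_⟩
  ext x
  rw [h3, hB, mem_coeIdeal, mem_coeIdeal]
  constructor
  · rintro ⟨⟨y, hy, rfl⟩, h⟩
    obtain ⟨z, rfl⟩ := exists_of_loc S.hf h
    exact ⟨z, hy, IsScalarTower.algebraMap_apply O (𝓞 K) K z⟩
  · rintro ⟨z, hz, rfl⟩
    exact ⟨⟨_, hz, (IsScalarTower.algebraMap_apply O (𝓞 K) K z).symm⟩, loc_alg_top z⟩

omit [NumberField K] [Algebra O (𝓞 K)] [IsScalarTower O (𝓞 K) K] [Algebra K ℝ] in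
theorem principal_iff {m I : Ideal O} {d : (FractionalIdeal O⁰ K)ˣ}
    (hd : (d : FractionalIdeal O⁰ K) = I) :
    (∃ α : Kˣ, d = pr O α ∧ (α : K) - 1 ∈ loc K m m ∧ 0 < σ₂ α) ↔
      ∃ π : O, I = Ideal.span {π} ∧ π - 1 ∈ m ∧ 0 < σ₂ (algebraMap O K π) := by
  constructor
  · rintro ⟨α, rfl, h1, h2⟩
    have := self_mem_pr (O := O) α
    rw [hd] at this
    obtain ⟨π, -, hπ⟩ := (mem_coeIdeal _).1 this
    refine ⟨π, ?_, mem_of_loc (K := K) (by rwa [map_sub, map_one, hπ]), by rwa [hπ]⟩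
    apply coeIdeal_injective (K := K)
    show (I : FractionalIdeal O⁰ K) = (Ideal.span {π} : Ideal O)
    rw [← hd, coe_toPrincipalIdeal, coeIdeal_span_singleton, hπ]
  · rintro ⟨π, rfl, h1, h2⟩
    have h0 : algebraMap O K π ≠ 0 := by
      intro h; rw [h, map_zero] at h2; exact lt_irrefl _ h2
    refine ⟨Units.mk0 _ h0, ?_, by simpa using loc_alg (K := K) (m := m) h1, h2⟩
    ext1
    rw [hd, coe_toPrincipalIdeal, coeIdeal_span_singleton]; rfl

theorem main {m : Ideal O} (hm0 : m ≠ ⊥) (hm1 : m ≠ ⊤) (h : MSC σ₂ (cond K m)) : MSC σ₂ m := by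
  classical
  have S := setup_cond (K := K) hm0 hm1
  set f := cond K m with hf_def
  obtain ⟨H', Art', hR, ε', hε'⟩ := h
  have hA := hR.isArt S.f1
  obtain ⟨hfin', hab', hp', -⟩ := hR
  rw [cond_self] at hp'
  simp only [inJ_iff S.f1] at hε'
  obtain ⟨H, hle, res, hfin, hsurj, hker, hres, hfix, hunr, hfrob, hτ⟩ :=
    exists_subfield H' (kerN m hA)
  obtain ⟨Art, hArt, hform⟩ := S.exists_art hA res hsurj hker
  have hab : IsAbelianGalois K H := ab_mono hle hab'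
  have : NumberField H := NumberField.of_module_finite K H
  have hform1 : ∀ d, Cp (f.comap (algebraMap O (𝓞 K))) d → Art d = res (Art' (ext (𝓞 K) d)) := by
    intro d hd
    rw [hform d 1 (by simpa using loc_zero) (by simp) (by simpa using hd)]
    simp
  choose T hT using fun a : (FractionalIdeal O⁰ K)ˣ => S.exists_dec (σ₂ := σ₂) a
  let val : (𝓞 H')ˣ →* H' := ((algebraMap (𝓞 H') H').toMonoidHom).comp (Units.coeHom _)
  have hval : ∀ u : (𝓞 H')ˣ, val u = ((u : 𝓞 H') : H') := fun _ => rfl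
  let e : (FractionalIdeal O⁰ K)ˣ → (𝓞 H')ˣ := fun a =>
    ∏ B ∈ T a, ε' B ^ (fib σ₂ m f a B).ncard
  choose! x hx1 hx2 using fun B hB => (hε' B hB).1
  have hgen : ∀ (a : (FractionalIdeal O⁰ K)ˣ) (U : Finset (FractionalIdeal (𝓞 K)⁰ K)ˣ),
      Flat m a → Dec σ₂ m f a U → ∃ y : ℝ, IsZDeriv σ₂ m a y ∧
        ((∏ B ∈ U, val (ε' B) ^ (fib σ₂ m f a B).ncard : H') : ℝ) = Real.exp (-y) := by
    intro a U ha hU
    refine ⟨_, S.isZDeriv_dec (fun s hs => summable_dedekind K hs) ha hU x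
      (fun B hB => hx1 B (hU.1 B hB)), ?_⟩
    rw [← Finset.sum_neg_distrib, Real.exp_sum]
    push_cast
    refine Finset.prod_congr rfl fun B hB => ?_
    rw [hval, hx2 B (hU.1 B hB), ← Real.exp_nat_mul]
    congr 1; ring
  have he : ∀ a, val (e a) = ∏ B ∈ T a, val (ε' B) ^ (fib σ₂ m f a B).ncard := by
    intro a; simp only [e, map_prod, map_pow]
  have he1 : ∀ a, Flat m a → ∃ y : ℝ, IsZDeriv σ₂ m a y ∧ ((val (e a) : H') : ℝ) = Real.exp (-y) := by
    intro a ha; rw [he]; exact hgen a _ ha (hT a)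
  have hrel : ∀ a a', MRel σ₂ m a a' → val (e a) = val (e a') := by
    intro a a' h
    obtain ⟨y, h1, h2⟩ := he1 a h.flat_left
    obtain ⟨y', h1', h2'⟩ := he1 a' h.flat_right
    apply Subtype.ext
    rw [h2, h2', (h1.congr S.hm1 S.mfin h).unique h1']
  have hact : ∀ a d, Flat m a → Cp (f.comap (algebraMap O (𝓞 K))) d →
      Art' (ext (𝓞 K) d) (val (e a)) = val (e (a * d)) := by
    intro a d ha hd
    have had : Flat m (a * d) := ha.mul (hd.1.mono S.le)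
    obtain ⟨y, h1, h2⟩ := hgen (a * d) _ had (S.dec_mul (hT a) hd)
    obtain ⟨y', h1', h2'⟩ := he1 _ had
    apply Subtype.ext
    rw [h2', ← h1.unique h1', ← h2, he, map_prod, Finset.prod_map]
    congr 1
    refine Finset.prod_congr rfl fun B hB => ?_
    rw [mulRightEmbedding_apply, S.ncard_fib_mul hd, map_pow, hval,
      (hε' B ((hT a).1 B hB)).2.1 _ hd.ext, hval]
  have hmem : ∀ a, Flat m a → ((val (e a) : H') : ℝ) ∈ H := by
    intro a ha
    refine hfix _ ?_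
    rintro _ ⟨β, h1, h2, h3, rfl⟩
    rw [← ext_pr (O := O), hact a _ ha h1, mul_comm]
    exact hrel _ _ (mrel_pr_one ha h2 h3)
  choose! ε hε using fun a ha => unit_descend (e a) (hmem a ha)
  have hincl : ∀ a, Flat m a →
      IntermediateField.inclusion hle ((ε a : 𝓞 H) : H) = val (e a) :=
    fun a ha => Subtype.ext (hε a ha)
  refine ⟨H, Art, ⟨hfin, hab, fun p hp hpf => ?_, ?_, ?_, ?_⟩, ε, fun a ha => ⟨?_, ?_, ?_, ?_⟩⟩
  · obtain ⟨d, hd1, hd2, hd3⟩ := exists_con_prime S hp hpf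
    obtain ⟨-, hu, hfr⟩ := hp' p hp hpf
    have hfr2 := hfrob p _ _ (hfr _ hd2)
    rw [← hform1 d hd1] at hfr2
    refine ⟨?_, hunr p hu, fun a ha => ?_⟩
    · rw [split_iff hp (hunr p hu) hfr2, hArt.ker d (hd1.mono S.le), principal_iff hd3]
    · rwa [Units.ext (ha.trans hd3.symm)]
  · simp only [inJ_iff hm1]; exact hArt.mul
  · simp only [inJ_iff hm1]; exact hArt.surj
  · simp only [inJ_iff hm1]; exact hArt.ker
  · rw [hε a ha]; exact he1 a ha
  · intro b hb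
    rw [inJ_iff hm1] at hb
    have := S.finn
    obtain ⟨α, h1, h2, h3⟩ := exists_move S.le S.hm1 S.nfin σ₂ hb
    apply Subtype.ext
    rw [hform b α h1 h2 h3, hres, hincl a ha, hact a _ ha h3, hε _ (ha.mul hb.1), mul_left_comm,
      hrel _ _ (mrel_pr_one (ha.mul hb.1) h1 h2), hval]
  · intro τ hτ1
    obtain ⟨τ', hτ'⟩ := hτ τ
    rw [← hτ', hincl a ha, he, map_prod, norm_prod]
    refine Finset.prod_eq_one fun B hB => ?_
    rw [map_pow, norm_pow, hval, (hε' B ((hT a).1 B hB)).2.2.1 τ' fun y => ?_, one_pow]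
    rw [← hτ1 y, ← hτ']; rfl
  · obtain ⟨N, hN1, hN2, hN3⟩ := exists_ab_of_finset (T a) H' hab'
      (fun B => Real.sqrt (((ε' B : 𝓞 H') : H') : ℝ))
      (fun B hB => (hε' B ((hT a).1 B hB)).2.2.2)
    refine ab_mono (sup_le (hle.trans hN2) ?_) hN1
    rw [IntermediateField.adjoin_simple_le_iff, hε a ha, ← hval, he]
    have : Real.sqrt ((∏ B ∈ T a, val (ε' B) ^ (fib σ₂ m f a B).ncard : H') : ℝ) =
        ∏ B ∈ T a, Real.sqrt (((ε' B : 𝓞 H') : H') : ℝ) ^ (fib σ₂ m f a B).ncard := by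
      rw [Real.sqrt_eq_iff_mul_self_eq_of_pos, ← Finset.prod_mul_distrib]
      · push_cast
        refine Finset.prod_congr rfl fun B hB => ?_
        rw [← mul_pow, Real.mul_self_sqrt, hval]
        rw [hx2 B ((hT a).1 B hB)]; exact (Real.exp_pos _).le
      · refine Finset.prod_pos fun B hB => pow_pos (Real.sqrt_pos.2 ?_) _
        rw [hx2 B ((hT a).1 B hB)]; exact Real.exp_pos _
    rw [this]
    exact prod_mem fun B hB => pow_mem (hN3 B hB) _

end Pool.Agent.Lib.MP_6bf7a3_nt
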