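import Pool.Agent.Lib.MP_6bf7a3_nt.Ext

open NumberField FractionalIdeal
open scoped nonZeroDivisors

namespace Pool.Agent.Lib.MP_6bf7a3_nt

variable {K : Type} [Field K] {O : Type} [CommRing O] [Algebra O K] [IsFractionRing O K]

/-- The additive group of an invertible ideal. -/
def sg (a : (FractionalIdeal O⁰ K)ˣ) : AddSubgroup K :=
  (a : FractionalIdeal O⁰ K).coeToSubmodule.toAddSubgroup

omit [IsFractionRing O K] in
theorem mem_sg {a : (FractionalIdeal O⁰ K)ˣ} {x : K} :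
    x ∈ sg a ↔ x ∈ (a : FractionalIdeal O⁰ K) := Iff.rfl

omit [IsFractionRing O K] in
theorem mem_sg_one {x : K} :
    x ∈ sg (1 : (FractionalIdeal O⁰ K)ˣ) ↔ ∃ z : O, algebraMap O K z = x := mem_one_iff O⁰

theorem sg_pr_mul (ω : Kˣ) (a : (FractionalIdeal O⁰ K)ˣ) :
    sg (pr O ω * a) = (sg a).map (AddMonoidHom.mulLeft (ω : K)) := by
  ext x
  rw [mem_sg, mem_pr_mul, AddSubgroup.mem_map]
  constructor
  · rintro ⟨y, hy, rfl⟩; exact ⟨y, hy, rfl⟩
  · rintro ⟨y, hy, rfl⟩; exact ⟨y, hy, rfl⟩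

theorem sg_pr (ω : Kˣ) :
    sg (pr O ω) = (sg (1 : (FractionalIdeal O⁰ K)ˣ)).map (AddMonoidHom.mulLeft (ω : K)) := by
  rw [← sg_pr_mul, mul_one]

theorem mulLeft_inj (ω : Kˣ) : Function.Injective (AddMonoidHom.mulLeft (ω : K)) :=
  fun _ _ h => mul_left_cancel₀ ω.ne_zero h

/-- The index of an invertible ideal. -/
noncomputable def idx (a : (FractionalIdeal O⁰ K)ˣ) : ℕ :=
  (sg a).relIndex (sg (1 : (FractionalIdeal O⁰ K)ˣ))

theorem relIndex_coe (I : Ideal O) :
    (I.toAddSubgroup.map (algebraMap O K : O →+ K)).relIndex (sg (1 : (FractionalIdeal O⁰ K)ˣ)) =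
      Nat.card (O ⧸ I) := by
  have h1 : sg (1 : (FractionalIdeal O⁰ K)ˣ) = (⊤ : AddSubgroup O).map (algebraMap O K : O →+ K) := by
    ext x
    rw [mem_sg, Units.val_one, mem_one_iff, AddSubgroup.mem_map]
    simp
  rw [h1, AddSubgroup.relIndex_map_map_of_injective _ _ (IsFractionRing.injective O K),
    AddSubgroup.relIndex_top_right, AddSubgroup.index_eq_card]
  rfl

theorem idx_coe {a : (FractionalIdeal O⁰ K)ˣ} {I : Ideal O} (h : (a : FractionalIdeal O⁰ K) = I) :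
    idx a = Nat.card (O ⧸ I) := by
  rw [← relIndex_coe (K := K) I, idx]
  congr 1
  ext x
  rw [mem_sg, h, mem_coeIdeal, AddSubgroup.mem_map]
  simp

theorem idx_pr_mul {ω : Kˣ} {w : O} (hw : algebraMap O K w = ω) {a : (FractionalIdeal O⁰ K)ˣ}
    (ha : (a : FractionalIdeal O⁰ K) ≤ 1) : idx (pr O ω * a) = idx a * idx (pr O ω) := by
  have h1 : sg (pr O ω * a) ≤ sg (pr O ω) := by
    rw [sg_pr_mul, sg_pr]; exact AddSubgroup.map_mono ha
  have h2 : sg (pr O ω) ≤ sg (1 : (FractionalIdeal O⁰ K)ˣ) := by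
    intro x hx
    obtain ⟨y, rfl⟩ := mem_pr.1 hx
    exact mem_sg_one.2 ⟨w * y, by rw [map_mul, hw]⟩
  rw [idx, ← AddSubgroup.relIndex_mul_relIndex _ _ _ h1 h2]
  congr 1
  rw [sg_pr_mul, sg_pr, AddSubgroup.relIndex_map_map_of_injective _ _ (mulLeft_inj ω), idx]

variable {A : Type} [CommRing A] [IsDomain A] [Algebra A K] [IsFractionRing A K] [Algebra O A]
  [IsScalarTower O A K] {f : Ideal A} (hf : ∀ x ∈ f, ∃ z : O, algebraMap O A z = x)
include hf

omit [IsDomain A] [IsFractionRing O K] in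
theorem relIndex_orders_ne_zero [Finite (A ⧸ f)] :
    (sg (1 : (FractionalIdeal O⁰ K)ˣ)).relIndex (sg (1 : (FractionalIdeal A⁰ K)ˣ)) ≠ 0 := by
  intro h
  have hle : f.toAddSubgroup.map (algebraMap A K : A →+ K) ≤ sg (1 : (FractionalIdeal O⁰ K)ˣ) := by
    rintro _ ⟨x, hx, rfl⟩
    obtain ⟨z, rfl⟩ := hf x hx
    exact mem_sg_one.2 ⟨z, IsScalarTower.algebraMap_apply O A K z⟩
  have := AddSubgroup.relIndex_eq_zero_of_le_left hle h
  rw [relIndex_coe] at this
  exact Nat.card_pos.ne' this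

omit [IsDomain A] in
theorem idx_pr_eq [Finite (A ⧸ f)] {ω : Kˣ} {w : O} (hw : algebraMap O K w = ω) :
    idx (pr O ω) = idx (pr A ω) := by
  have h0 : sg (1 : (FractionalIdeal O⁰ K)ˣ) ≤ sg (1 : (FractionalIdeal A⁰ K)ˣ) := by
    intro x hx
    obtain ⟨z, rfl⟩ := mem_sg_one.1 hx
    exact mem_sg_one.2 ⟨_, (IsScalarTower.algebraMap_apply O A K z).symm⟩
  have h1 : sg (pr O ω) ≤ sg (1 : (FractionalIdeal O⁰ K)ˣ) := by
    intro x hx
    obtain ⟨y, rfl⟩ := mem_pr.1 hx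
    exact mem_sg_one.2 ⟨w * y, by rw [map_mul, hw]⟩
  have h2 : sg (pr O ω) ≤ sg (pr A ω) := by
    rw [sg_pr, sg_pr]; exact AddSubgroup.map_mono h0
  have h3 : sg (pr A ω) ≤ sg (1 : (FractionalIdeal A⁰ K)ˣ) := by
    intro x hx
    obtain ⟨y, rfl⟩ := mem_pr.1 hx
    exact mem_sg_one.2 ⟨algebraMap O A w * y, by
      rw [map_mul, ← IsScalarTower.algebraMap_apply, hw]⟩
  have e1 := AddSubgroup.relIndex_mul_relIndex _ _ _ h1 h0
  have e2 := AddSubgroup.relIndex_mul_relIndex _ _ _ h2 h3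
  have e3 : (sg (pr O ω)).relIndex (sg (pr A ω)) =
      (sg (1 : (FractionalIdeal O⁰ K)ˣ)).relIndex (sg (1 : (FractionalIdeal A⁰ K)ˣ)) := by
    rw [sg_pr, sg_pr, AddSubgroup.relIndex_map_map_of_injective _ _ (mulLeft_inj ω)]
  rw [e3, ← e1, mul_comm] at e2
  exact (mul_right_cancel₀ (relIndex_orders_ne_zero hf) e2).symm

omit [IsDomain A] in
theorem card_quot_map (hinj : Function.Injective (algebraMap O A)) {C : Ideal O} (hC : C ⊔ f.comap (algebraMap O A) = ⊤) :
    Nat.card (O ⧸ C) = Nat.card (A ⧸ C.map (algebraMap O A)) := by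
  obtain ⟨t, ht, ht1⟩ := exists_one_of_sup hC
  have ht2 : algebraMap O A t - 1 ∈ f := by simpa using ht1
  have key : ∀ z ∈ C.map (algebraMap O A), ∀ y ∈ f, ∃ w ∈ C, algebraMap O A w = y * z := by
    intro z hz
    refine Submodule.span_induction (p := fun z _ => ∀ y ∈ f, ∃ w ∈ C, algebraMap O A w = y * z)
      ?_ ?_ ?_ ?_ hz
    · rintro _ ⟨c, hc, rfl⟩ y hy
      obtain ⟨y', rfl⟩ := hf y hy
      exact ⟨y' * c, C.mul_mem_left _ hc, map_mul _ _ _⟩
    · intro y _; exact ⟨0, C.zero_mem, by simp⟩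
    · intro a b _ _ ha hb y hy
      obtain ⟨w, hw, e⟩ := ha y hy
      obtain ⟨w', hw', e'⟩ := hb y hy
      exact ⟨w + w', C.add_mem hw hw', by rw [map_add, e, e', mul_add]⟩
    · intro r a _ ha y hy
      obtain ⟨w, hw, e⟩ := ha (y * r) (f.mul_mem_right _ hy)
      exact ⟨w, hw, by rw [e, smul_eq_mul, mul_assoc]⟩
  refine Nat.card_congr (Equiv.ofBijective
    (Ideal.quotientMap (C.map (algebraMap O A)) (algebraMap O A) Ideal.le_comap_map) ⟨?_, ?_⟩)
  · apply Ideal.quotientMap_injective'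
    intro x hx
    obtain ⟨w, hw, e⟩ := key _ hx _ ht2
    have e2 : w = (t - 1) * x := hinj (by rw [e, map_mul, map_sub, map_one])
    have : x = x * t - w := by rw [e2]; ring
    rw [this]; exact C.sub_mem (C.mul_mem_left _ ht) hw
  · intro z
    obtain ⟨z, rfl⟩ := Ideal.Quotient.mk_surjective z
    obtain ⟨w, hw⟩ := hf _ (f.mul_mem_right z ht2)
    refine ⟨Ideal.Quotient.mk _ (-w), ?_⟩
    rw [Ideal.quotientMap_mk, Ideal.Quotient.eq, map_neg, hw]
    have : -((algebraMap O A t - 1) * z) - z = -(z * algebraMap O A t) := by ring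
    rw [this]
    exact Submodule.neg_mem _ (Ideal.mul_mem_left _ _ (Ideal.mem_map_of_mem _ ht))

theorem idx_ext [Ring.HasFiniteQuotients A] (hf0 : f ≠ ⊥) (hn1 : f.comap (algebraMap O A) ≠ ⊤)
    (hn : {p : Ideal O | f.comap (algebraMap O A) ≤ p}.Finite) {b : (FractionalIdeal O⁰ K)ˣ}
    (hb : (b : FractionalIdeal O⁰ K) ≤ 1) : idx b = idx (ext A b) := by
  have := Ring.HasFiniteQuotients.finiteQuotient hf0
  have : IsDomain O := (alg_inj K O A).isDomain _
  obtain ⟨α, c, C, hC, hc, e⟩ := exists_decomp b hn1 hn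
  obtain ⟨u, w, hw, huw⟩ := IsFractionRing.div_surjective (A := O) (α : K)
  have hw0 : algebraMap O K w ≠ 0 := IsFractionRing.to_map_ne_zero_of_mem_nonZeroDivisors hw
  have hu0 : algebraMap O K u ≠ 0 := by
    intro h; rw [h, zero_div] at huw; exact α.ne_zero huw.symm
  let ω : Kˣ := Units.mk0 _ hw0
  let υ : Kˣ := Units.mk0 _ hu0
  have e1 : ω * α = υ := by
    ext; simp only [ω, υ, Units.val_mul, Units.val_mk0]; rw [← huw]; field_simp
  have e2 : pr O ω * b = pr O υ * c := by rw [e, ← mul_assoc, ← map_mul, e1]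
  have e3 : pr A ω * ext A b = pr A υ * ext A c := by
    have := congrArg (ext A) e2
    rwa [map_mul, map_mul, ext_pr, ext_pr] at this
  have hc1 : (c : FractionalIdeal O⁰ K) ≤ 1 := by rw [hc]; exact coeIdeal_le_one
  have f2 := congrArg idx e2
  have f3 := congrArg idx e3
  rw [idx_pr_mul (w := w) rfl hb, idx_pr_mul (w := u) rfl hc1] at f2
  rw [idx_pr_mul (w := algebraMap O A w) (IsScalarTower.algebraMap_apply O A K w).symm
      (extended_le_one_of_le_one _ _ _ hb),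
    idx_pr_mul (w := algebraMap O A u) (IsScalarTower.algebraMap_apply O A K u).symm
      (extended_le_one_of_le_one _ _ _ hc1)] at f3
  have g1 : idx c = idx (ext A c) := by
    rw [idx_coe hc, idx_coe (ext_coe hc), card_quot_map hf (alg_inj K O A) hC]
  rw [idx_pr_eq hf (w := w) rfl, idx_pr_eq hf (w := u) rfl, g1, ← f3] at f2
  refine mul_right_cancel₀ ?_ f2
  have h5 : ((pr A ω : (FractionalIdeal A⁰ K)ˣ) : FractionalIdeal A⁰ K) =
      (Ideal.span {algebraMap O A w} : Ideal A) := by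
    rw [coe_toPrincipalIdeal, coeIdeal_span_singleton, ← IsScalarTower.algebraMap_apply]; rfl
  rw [idx_coe h5]
  have : Finite (A ⧸ Ideal.span {algebraMap O A w}) := by
    apply Ring.HasFiniteQuotients.finiteQuotient
    rw [Ne, Ideal.span_singleton_eq_bot]
    intro h
    apply hw0
    rw [IsScalarTower.algebraMap_apply O A K, h, map_zero]
  exact Nat.card_pos.ne'

end Pool.Agent.Lib.MP_6bf7a3_nt
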