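import Pool.Agent.Lib.MP_6bf7a3_nt.Fiber

open NumberField FractionalIdeal Filter
open scoped nonZeroDivisors Topology

namespace Pool.Agent.Lib.MP_6bf7a3_nt

theorem hasSum_comp_fiber {X Y : Type} (e : X → Y) (hfin : ∀ y, (e ⁻¹' {y}).Finite) (g : Y → ℂ)
    (hs : Summable fun y => ((e ⁻¹' {y}).ncard : ℝ) * ‖g y‖) :
    HasSum (fun x => g (e x)) (∑' y, ((e ⁻¹' {y}).ncard : ℂ) * g y) := by
  have h1 : Summable fun x => ‖g (e x)‖ := by
    rw [← (Equiv.sigmaFiberEquiv e).summable_iff]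
    refine (summable_sigma_of_nonneg fun _ => norm_nonneg _).2
      ⟨fun y => ?_, hs.congr fun y => ?_⟩
    · have : Finite {a // e a = y} := hfin y
      exact Summable.of_finite
    · have : ∀ z : {a // e a = y},
          ‖g (e ((Equiv.sigmaFiberEquiv e) ⟨y, z⟩))‖ = ‖g y‖ := by
        rintro ⟨z, rfl⟩; rfl
      rw [tsum_congr this, tsum_const, nsmul_eq_mul]
      rfl
  have h2 := (h1.of_norm.hasSum.tsum_fiberwise e).tsum_eq
  have h3 : ∀ y, ∑' b : e ⁻¹' {y}, g (e b) = ((e ⁻¹' {y}).ncard : ℂ) * g y := by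
    intro y
    have : ∀ z : e ⁻¹' {y}, g (e z) = g y := by
      rintro ⟨z, rfl⟩; rfl
    rw [tsum_congr this, tsum_const, nsmul_eq_mul]
    rfl
  rw [tsum_congr h3] at h2
  rw [h2]
  exact h1.of_norm.hasSum

theorem summable_dedekind (K : Type) [Field K] [NumberField K] {s : ℂ} (hs : 1 < s.re) :
    Summable fun J : Ideal (𝓞 K) => (Nat.card (𝓞 K ⧸ J) : ℂ) ^ (-s) := by
  have ht : Tendsto (fun n : ℕ => (∑ k ∈ Finset.Icc 1 n,
      (Nat.card {I : Ideal (𝓞 K) // Ideal.absNorm I = k} : ℝ)) / (n : ℝ)) atTop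
      (𝓝 (dedekindZeta_residue K)) := by
    refine ((Ideal.tendsto_norm_le_div_atTop₀ K).comp tendsto_natCast_atTop_atTop).congr
      fun n ↦ ?_
    simp only [Function.comp_apply, Nat.cast_le, ← Nat.cast_sum]
    congr
    rw [← add_left_inj 1, ← Ideal.card_norm_le_eq_card_norm_le_add_one,
      show Finset.Icc 1 n = Finset.Ioc 0 n from Finset.Icc_succ_left_eq_Ioc _ _,
      show 1 = Nat.card {I : Ideal (𝓞 K) // Ideal.absNorm I = 0} by
        simp [Ideal.absNorm_eq_zero_iff],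
      Finset.sum_Ioc_add_eq_sum_Icc (n.zero_le),
      ← Finset.card_preimage_eq_sum_card_image_eq
        (fun k _ ↦ Ideal.finite_setOfPred_absNorm_eq k)]
    simp [Set.coe_eq_subtype]
  have hO := Asymptotics.isBigO_atTop_natCast_rpow_of_tendsto_div_rpow (r := 1) (by simpa using ht)
  have hL := LSeriesSummable_of_sum_norm_bigO_and_nonneg hO (fun _ => Nat.cast_nonneg _)
    zero_le_one hs
  have hs0 : -s ≠ 0 := by
    rw [neg_ne_zero]; rintro rfl; simp at hs; linarith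
  refine (hasSum_comp_fiber (fun J : Ideal (𝓞 K) => Ideal.absNorm J)
    (fun k => Ideal.finite_setOfPred_absNorm_eq k) (fun n : ℕ => (n : ℂ) ^ (-s)) ?_).summable
  refine hL.norm.congr fun n => ?_
  rw [LSeries.term_def]
  split_ifs with h
  · simp [h, Complex.zero_cpow hs0]
  · rw [norm_div, Complex.cpow_neg, norm_inv, div_eq_mul_inv]
    congr 1
    simp only [Complex.ofReal_natCast, Complex.norm_natCast]
    rfl

variable {K : Type} [Field K] {O : Type} [CommRing O] [Algebra O K] [IsFractionRing O K]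
  {A : Type} [CommRing A] [IsDomain A] [Algebra A K] [IsFractionRing A K] [Algebra O A]
  [IsScalarTower O A K] {σ₂ : K →+* ℝ}

namespace Setup

variable {m : Ideal O} {f : Ideal A} (S : Setup m f)
include S

theorem fiber_eq (a : (FractionalIdeal O⁰ K)ˣ) (J : Ideal A) {B : (FractionalIdeal A⁰ K)ˣ}
    (hB : (B : FractionalIdeal A⁰ K) = J) :
    ((fun I : {I : Ideal O // ∃ b ∈ {b | MRel σ₂ m b a}, (b : FractionalIdeal O⁰ K) = I} =>
      I.1.map (algebraMap O A)) ⁻¹' {J}).Finite ∧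
    ((fun I : {I : Ideal O // ∃ b ∈ {b | MRel σ₂ m b a}, (b : FractionalIdeal O⁰ K) = I} =>
      I.1.map (algebraMap O A)) ⁻¹' {J}).ncard = (fib σ₂ m f a B).ncard := by
  let u : {I : Ideal O // ∃ b ∈ {b | MRel σ₂ m b a}, (b : FractionalIdeal O⁰ K) = I} →
      (FractionalIdeal O⁰ K)ˣ := fun I => I.2.choose
  have hu1 : ∀ I, MRel σ₂ m (u I) a := fun I => I.2.choose_spec.1
  have hu2 : ∀ I, (u I : FractionalIdeal O⁰ K) = I.1 := fun I => I.2.choose_spec.2
  have hinj : Function.Injective u := by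
    intro I I' h
    have := hu2 I
    rw [h, hu2] at this
    exact Subtype.ext (coeIdeal_injective this).symm
  have him : u '' ((fun I => I.1.map (algebraMap O A)) ⁻¹' {J}) = fib σ₂ m f a B := by
    ext b
    constructor
    · rintro ⟨I, hI, rfl⟩
      refine ⟨hu1 I, flat_of_coe (hu2 I), ?_⟩
      ext1
      rw [ext_coe (hu2 I), hB]
      exact congrArg _ hI
    · rintro ⟨h1, h2, h3⟩
      obtain ⟨I, hI⟩ := le_one_iff_exists_coeIdeal.1
        (le_one_of_ext S.hf h2 (by rw [h3, hB]; exact coeIdeal_le_one))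
      refine ⟨⟨I, b, h1, hI.symm⟩, ?_, ?_⟩
      · have := ext_coe (A := A) hI.symm
        rw [h3, hB] at this
        exact (coeIdeal_injective this).symm
      · ext1; rw [hu2, hI]
  refine ⟨Set.Finite.of_finite_image (f := u) ?_ hinj.injOn, ?_⟩
  · rw [him]; exact S.fib_finite _ _
  · rw [← him, Set.ncard_image_of_injective _ hinj]

theorem zeta_dec {a : (FractionalIdeal O⁰ K)ˣ} {T : Finset (FractionalIdeal A⁰ K)ˣ}
    (hT : Dec σ₂ m f a T) {s : ℂ}
    (hs : Summable fun J : Ideal A => (Nat.card (A ⧸ J) : ℂ) ^ (-s)) :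
    zeta {b | MRel σ₂ m b a} s =
      ∑ B ∈ T, ((fib σ₂ m f a B).ncard : ℂ) * zeta {B' | MRel σ₂ f B' B} s := by
  classical
  have := S.finA
  let X := {I : Ideal O // ∃ b ∈ {b | MRel σ₂ m b a}, (b : FractionalIdeal O⁰ K) = I}
  let e : X → Ideal A := fun I => I.1.map (algebraMap O A)
  let g : Ideal A → ℂ := fun J => (Nat.card (A ⧸ J) : ℂ) ^ (-s)
  let Y : (FractionalIdeal A⁰ K)ˣ → Set (Ideal A) := fun B =>
    {J | ∃ B' ∈ {B' | MRel σ₂ f B' B}, (B' : FractionalIdeal A⁰ K) = J}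
  have hempty : ∀ J : Ideal A, (¬ ∃ B : (FractionalIdeal A⁰ K)ˣ, (B : FractionalIdeal A⁰ K) = J) →
      e ⁻¹' {J} = ∅ := by
    intro J hJ
    rw [Set.eq_empty_iff_forall_notMem]
    rintro ⟨I, b, hb, hI⟩ h
    exact hJ ⟨ext A b, by rw [ext_coe hI]; exact congrArg _ h⟩
  have hfin : ∀ J, (e ⁻¹' {J}).Finite := by
    intro J
    by_cases hJ : ∃ B : (FractionalIdeal A⁰ K)ˣ, (B : FractionalIdeal A⁰ K) = J
    · obtain ⟨B, hB⟩ := hJ
      exact (S.fiber_eq a J hB).1
    · rw [hempty J hJ]; exact Set.finite_empty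
  have hcard : ∀ J, (e ⁻¹' {J}).ncard =
      ∑ B ∈ T, if J ∈ Y B then (fib σ₂ m f a B).ncard else 0 := by
    intro J
    by_cases hJ : ∃ B : (FractionalIdeal A⁰ K)ˣ, (B : FractionalIdeal A⁰ K) = J
    · obtain ⟨B', hB'⟩ := hJ
      have hY : ∀ B, J ∈ Y B ↔ MRel σ₂ f B' B := by
        intro B
        constructor
        · rintro ⟨B'', h1, h2⟩
          rwa [Units.ext (hB'.trans h2.symm)]
        · intro h; exact ⟨B', h, hB'⟩
      rw [(S.fiber_eq a J hB').2]
      simp only [hY]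
      rcases (fib σ₂ m f a B').eq_empty_or_nonempty with h0 | h0
      · symm
        rw [h0, Set.ncard_empty]
        refine Finset.sum_eq_zero fun B _ => ?_
        split_ifs with h
        · rw [← S.ncard_fib_rel h, h0, Set.ncard_empty]
        · rfl
      · obtain ⟨B₀, hB₀, h⟩ := hT.2.2 B' h0
        rw [Finset.sum_eq_single_of_mem B₀ hB₀, if_pos h, S.ncard_fib_rel h]
        intro B hB hne
        rw [if_neg]
        intro h'
        exact hne (hT.2.1 B hB B₀ hB₀ (h'.symm.trans S.f1 S.ffin h))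
    · rw [hempty J hJ, Set.ncard_empty]
      symm
      refine Finset.sum_eq_zero fun B _ => if_neg ?_
      rintro ⟨B', -, h⟩
      exact hJ ⟨B', h⟩
  have hsum : Summable fun J => ((e ⁻¹' {J}).ncard : ℝ) * ‖g J‖ := by
    refine Summable.of_nonneg_of_le (fun J => by positivity) (fun J => ?_)
      (hs.norm.mul_left ((∑ B ∈ T, (fib σ₂ m f a B).ncard : ℕ) : ℝ))
    gcongr
    rw [hcard]
    refine Finset.sum_le_sum fun B _ => ?_
    split_ifs <;> simp
  have h1 := (hasSum_comp_fiber e hfin g hsum).tsum_eq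
  have h2 : zeta {b | MRel σ₂ m b a} s = ∑' I : X, g (e I) := by
    refine tsum_congr ?_
    rintro ⟨I, b, hb, hI⟩
    show (Nat.card (O ⧸ I) : ℂ) ^ (-s) = (Nat.card (A ⧸ I.map (algebraMap O A)) : ℂ) ^ (-s)
    rw [← idx_coe hI, ← idx_coe (ext_coe hI),
      idx_ext S.hf S.hf0 S.n1 S.nfin (by rw [hI]; exact coeIdeal_le_one)]
  have h3 : ∀ J, ((e ⁻¹' {J}).ncard : ℂ) * g J =
      ∑ B ∈ T, ((fib σ₂ m f a B).ncard : ℂ) * (Y B).indicator g J := by
    intro J
    rw [hcard, Nat.cast_sum, Finset.sum_mul]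
    refine Finset.sum_congr rfl fun B _ => ?_
    by_cases h : J ∈ Y B <;> simp [h]
  rw [h2, h1, tsum_congr h3, Summable.tsum_finsetSum fun B _ => (hs.indicator _).mul_left _]
  refine Finset.sum_congr rfl fun B _ => ?_
  rw [tsum_mul_left, ← tsum_subtype]
  rfl

end Setup

end Pool.Agent.Lib.MP_6bf7a3_nt
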